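import Pool.Agent.P8H79.Iso.Comb

/-! The abelianisation of the subgroups given by tables. -/

set_option autoImplicit false

open UpperHalfPlane

namespace Pool.Agent.P8H79.Iso

theorem abel_equiv {K : Type} [Group K] {n : ℕ} (g : Fin n → K)
    (hg : Subgroup.closure (Set.range g) = ⊤) (h : K →* Multiplicative (Fin n → ℤ))
    (hh : ∀ j, h (g j) = Multiplicative.ofAdd (Pi.single j 1)) :
    Nonempty (Abelianization K ≃* Multiplicative (Fin n → ℤ)) := by
  let r : Multiplicative (Fin n → ℤ) →* Abelianization K :=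
    { toFun := fun v => ∏ j, (Abelianization.of (g j)) ^ (Multiplicative.toAdd v j)
      map_one' := by simp
      map_mul' := by
        intro v w
        rw [← Finset.prod_mul_distrib]
        refine Finset.prod_congr rfl fun j _ => ?_
        rw [toAdd_mul, Pi.add_apply, zpow_add] }
  let l : Abelianization K →* Multiplicative (Fin n → ℤ) := Abelianization.lift h
  have hl : ∀ j, l (Abelianization.of (g j)) = Multiplicative.ofAdd (Pi.single j 1) := by
    intro j
    show Abelianization.lift h (Abelianization.of (g j)) = _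
    rw [Abelianization.lift_apply_of, hh]
  have hr : ∀ j, r (Multiplicative.ofAdd (Pi.single j 1)) = Abelianization.of (g j) := by
    intro j
    show ∏ i, (Abelianization.of (g i)) ^ ((Pi.single j 1 : Fin n → ℤ) i) = _
    rw [Finset.prod_eq_single j]
    · simp
    · intro i _ hi
      rw [Pi.single_eq_of_ne hi, zpow_zero]
    · simp
  have h1 : r.comp l = MonoidHom.id _ := by
    apply Abelianization.hom_ext
    apply MonoidHom.eq_of_eqOn_dense hg
    rintro _ ⟨j, rfl⟩
    show r (l (Abelianization.of (g j))) = Abelianization.of (g j)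
    rw [hl, hr]
  have h2 : l.comp r = MonoidHom.id _ := by
    refine MonoidHom.ext fun v => ?_
    show l (∏ j, (Abelianization.of (g j)) ^ (Multiplicative.toAdd v j)) = v
    rw [map_prod]
    simp only [map_zpow, hl]
    apply Multiplicative.toAdd.injective
    rw [toAdd_prod]
    funext i
    rw [Finset.sum_apply, Finset.sum_eq_single i]
    · simp
    · intro j _ hj
      simp [Pi.single_eq_of_ne hj.symm]
    · simp
  exact ⟨MonoidHom.toMulEquiv l r h1 h2⟩

namespace Dat

variable (D : Dat)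

/-- the affine extension by a cocycle -/
def cf (j : Fin 6) (s : Fin 3) : Equiv.Perm (Fin 96 × ℤ) where
  toFun x := (D.P s x.1, x.2 + D.c j s x.1)
  invFun x := (D.P s x.1, x.2 + D.c j s x.1)
  left_inv x := by
    ext
    · simp [D.invol]
    · simp [D.canti]
  right_inv x := by
    ext
    · simp [D.invol]
    · simp [D.canti]

theorem cf_apply (j : Fin 6) (s : Fin 3) (x : Fin 96 × ℤ) :
    D.cf j s x = (D.P s x.1, x.2 + D.c j s x.1) := rfl

theorem good_cf (j : Fin 6) : Good (D.cf j) := by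
  have h := D.rel
  have h' := D.crel j
  have hsq : ∀ s, D.cf j s * D.cf j s = 1 := by
    intro s
    ext x
    · simp [cf_apply, D.invol]
    · simp [cf_apply, D.canti]
  refine ⟨hsq 0, hsq 1, hsq 2, ?_, ?_, ?_⟩
  · have key : ∀ x, ((D.cf j 0 * D.cf j 1) ^ 2) x = x := by
      rintro ⟨w, n⟩
      have h1 := h 1 0 w
      have h2 := h' 1 0 w
      simp only [mm] at h1 h2
      simp only [pow_succ, pow_zero, one_mul, Equiv.Perm.mul_apply, cf_apply]
      refine Prod.ext h1 ?_
      have h3 : csum D.P (D.c j) 1 0 4 w = 0 := h2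
      simp only [csum] at h3
      change n + _ + _ + _ + _ = n
      change 0 + D.c j 1 w + D.c j 0 (D.P 1 w) + D.c j 1 (D.P 0 (D.P 1 w)) +
        D.c j 0 (D.P 1 (D.P 0 (D.P 1 w))) = 0 at h3
      linarith
    exact Equiv.ext key
  · have key : ∀ x, ((D.cf j 1 * D.cf j 2) ^ 4) x = x := by
      rintro ⟨w, n⟩
      have h1 := h 2 1 w
      have h2 := h' 2 1 w
      simp only [mm] at h1 h2
      simp only [pow_succ, pow_zero, one_mul, Equiv.Perm.mul_apply, cf_apply]
      refine Prod.ext h1 ?_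
      have h3 : csum D.P (D.c j) 2 1 8 w = 0 := h2
      simp only [csum] at h3
      change n + _ + _ + _ + _ + _ + _ + _ + _ = n
      change 0 + D.c j 2 w + D.c j 1 (D.P 2 w) + D.c j 2 (D.P 1 (D.P 2 w)) +
        D.c j 1 (D.P 2 (D.P 1 (D.P 2 w))) + D.c j 2 (D.P 1 (D.P 2 (D.P 1 (D.P 2 w)))) +
        D.c j 1 (D.P 2 (D.P 1 (D.P 2 (D.P 1 (D.P 2 w))))) +
        D.c j 2 (D.P 1 (D.P 2 (D.P 1 (D.P 2 (D.P 1 (D.P 2 w)))))) +
        D.c j 1 (D.P 2 (D.P 1 (D.P 2 (D.P 1 (D.P 2 (D.P 1 (D.P 2 w))))))) = 0 at h3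
      linarith
    exact Equiv.ext key
  · have key : ∀ x, ((D.cf j 0 * D.cf j 2) ^ 6) x = x := by
      rintro ⟨w, n⟩
      have h1 := h 2 0 w
      have h2 := h' 2 0 w
      simp only [mm] at h1 h2
      simp only [pow_succ, pow_zero, one_mul, Equiv.Perm.mul_apply, cf_apply]
      refine Prod.ext h1 ?_
      have h3 : csum D.P (D.c j) 2 0 12 w = 0 := h2
      simp only [csum] at h3
      change n + _ + _ + _ + _ + _ + _ + _ + _ + _ + _ + _ + _ = n
      change 0 + D.c j 2 w + D.c j 0 (D.P 2 w) + D.c j 2 (D.P 0 (D.P 2 w)) +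
        D.c j 0 (D.P 2 (D.P 0 (D.P 2 w))) + D.c j 2 (D.P 0 (D.P 2 (D.P 0 (D.P 2 w)))) +
        D.c j 0 (D.P 2 (D.P 0 (D.P 2 (D.P 0 (D.P 2 w))))) +
        D.c j 2 (D.P 0 (D.P 2 (D.P 0 (D.P 2 (D.P 0 (D.P 2 w)))))) +
        D.c j 0 (D.P 2 (D.P 0 (D.P 2 (D.P 0 (D.P 2 (D.P 0 (D.P 2 w))))))) +
        D.c j 2 (D.P 0 (D.P 2 (D.P 0 (D.P 2 (D.P 0 (D.P 2 (D.P 0 (D.P 2 w)))))))) +
        D.c j 0 (D.P 2 (D.P 0 (D.P 2 (D.P 0 (D.P 2 (D.P 0 (D.P 2 (D.P 0 (D.P 2 w))))))))) +
        D.c j 2 (D.P 0 (D.P 2 (D.P 0 (D.P 2 (D.P 0 (D.P 2 (D.P 0 (D.P 2 (D.P 0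
          (D.P 2 w)))))))))) +
        D.c j 0 (D.P 2 (D.P 0 (D.P 2 (D.P 0 (D.P 2 (D.P 0 (D.P 2 (D.P 0 (D.P 2 (D.P 0
          (D.P 2 w))))))))))) = 0 at h3
      linarith
    exact Equiv.ext key

/-- the affine extension -/
def ch (j : Fin 6) : W →* Equiv.Perm (Fin 96 × ℤ) := lift (D.cf j) (D.good_cf j)

@[simp] theorem ch_gn (j : Fin 6) (s : Fin 3) : D.ch j (gn s) = D.cf j s := lift_gn _ _ _

theorem ch_mul (j : Fin 6) (g h : W) (x : Fin 96 × ℤ) :
    D.ch j (g * h) x = D.ch j g (D.ch j h x) := by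
  rw [map_mul]; rfl

theorem ch_shift (j : Fin 6) (g : W) (w : Fin 96) (n : ℤ) :
    D.ch j g (w, n) = (D.perm g w, n + (D.ch j g (w, 0)).2) := by
  induction g using W_induction generalizing w n with
  | h1 => simp
  | hm s g ih =>
    rw [ch_mul, ch_mul, ih w n, ih w 0, ch_gn, cf_apply, cf_apply, perm_mul, perm_gn, pf_apply]
    refine Prod.ext rfl ?_
    simp only
    ring

/-- the homomorphisms to the integers -/
def hz (j : Fin 6) (k : W) : ℤ := (D.ch j k (0, 0)).2

theorem hz_mul (j : Fin 6) {g h : W} (hh : h ∈ D.K) : D.hz j (g * h) = D.hz j g + D.hz j h := by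
  unfold hz
  rw [ch_mul, ch_shift D j h 0 0, D.mem_K.1 hh, ch_shift D j g 0]
  simp
  ring

theorem ch_tr (j : Fin 6) (w : Fin 96) : D.ch j (D.tr w) (0, 0) = (w, 0) := by
  induction w using D.tree_induction with
  | h0 => rw [tr_zero]; simp
  | hs w hw ih =>
    rw [D.tr_succ hw, ch_mul, ih, ch_gn, cf_apply]
    simp [D.invol, D.ctree j w hw]

theorem hz_gg (j i : Fin 6) : D.hz j (D.gg i) = if i = j then 1 else 0 := by
  unfold hz gg sg
  rw [ch_mul, ch_mul, ch_tr, ch_gn, cf_apply, ch_shift]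
  have h1 : (D.ch j (D.tr (D.P (D.ge i).1 (D.ge i).2))⁻¹
      (D.P (D.ge i).1 (D.ge i).2, 0)) = (0, 0) := by
    rw [map_inv, Equiv.Perm.inv_eq_iff_eq, ch_tr]
  simp only
  rw [h1, D.cge]
  ring

/-- the homomorphism to `ℤ⁶` -/
def hzz : D.K →* Multiplicative (Fin 6 → ℤ) where
  toFun k := Multiplicative.ofAdd fun j => D.hz j k.1
  map_one' := by
    apply Multiplicative.toAdd.injective
    funext j
    simp [hz]
  map_mul' a b := by
    apply Multiplicative.toAdd.injective
    funext j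
    simp only [toAdd_ofAdd, toAdd_mul, Pi.add_apply, Subgroup.coe_mul]
    exact D.hz_mul j b.2

theorem abel : Nonempty (Abelianization D.K ≃* Multiplicative (Fin 6 → ℤ)) := by
  let g : Fin 6 → D.K := fun j => ⟨D.gg j, D.sg_mem _ _⟩
  apply abel_equiv g _ D.hzz
  · intro j
    apply Multiplicative.toAdd.injective
    funext i
    show D.hz i (D.gg j) = _
    rw [hz_gg]
    by_cases h : i = j
    · subst h; simp
    · rw [if_neg (Ne.symm h)]; simp [Pi.single_eq_of_ne h]
  · rw [eq_top_iff]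
    have h1 : Subgroup.map D.K.subtype (Subgroup.closure (Set.range g)) = D.K := by
      rw [MonoidHom.map_closure]
      refine Eq.trans ?_ D.K_eq
      congr 1
      ext x
      simp [g]
    intro k _
    have h2 : (k : W) ∈ Subgroup.map D.K.subtype (Subgroup.closure (Set.range g)) := by
      rw [h1]; exact k.2
    obtain ⟨y, hy, hyk⟩ := h2
    have : y = k := Subtype.ext hyk
    rwa [← this]

end Dat

end Pool.Agent.P8H79.Iso
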