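import Pool.Agent.P8H79.Iso.Even

/-! The orientation preserving elements with squared trace twelve. -/

set_option autoImplicit false
set_option linter.unusedSimpArgs false

open Matrix UpperHalfPlane

namespace Pool.Agent.P8H79.Iso

/-- the matrices with squared trace twelve -/
def Rf (B C D : ℤ) : Matrix (Fin 3) (Fin 3) ℤ :=
  !![1 + 2 * C ^ 2 + 2 * D ^ 2, 6 * D - 6 * B * C, -6 * B * D - 6 * C;
    2 * D + 2 * B * C, 5 - 2 * C ^ 2, -6 * B - 2 * C * D;
    -2 * C + 2 * B * D, 6 * B - 2 * C * D, 5 - 2 * D ^ 2]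

theorem int_of {x : ℝ} {k n : ℤ} (h1 : 2 * x ^ 2 = k) (h2 : 12 * x = n) : ∃ m : ℤ, x = m := by
  have h3 : (n : ℝ) ^ 2 = 72 * k := by rw [← h1, ← h2]; ring
  have h4 : n ^ 2 = 72 * k := by exact_mod_cast h3
  have h5 : (6 : ℤ) ∣ n := by
    have h6 : (36 : ℤ) ∣ n ^ 2 := ⟨2 * k, by rw [h4]; ring⟩
    have h7 : (6 : ℤ) ^ 2 ∣ n ^ 2 := by simpa using h6
    exact (Int.pow_dvd_pow_iff (by norm_num)).1 h7
  obtain ⟨n', rfl⟩ := h5
  have h6 : n' ^ 2 = 2 * k := by nlinarith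
  have h7 : (2 : ℤ) ∣ n' := Int.prime_two.dvd_of_dvd_pow ⟨k, h6⟩
  obtain ⟨n'', rfl⟩ := h7
  refine ⟨n'', ?_⟩
  push_cast at h2
  linarith

theorem form11 {g : W} (hs : sgn g = 1) (ht : (mat g).1.trace = 11) :
    ∃ B C D : ℤ, 3 * B ^ 2 = C ^ 2 + D ^ 2 - 2 ∧ (mat g).1 = Rf B C D := by
  obtain ⟨p₀, q₀, r₀, s₀, h1₀, h2₀, h3₀⟩ := even_data hs
  have h4₀ := even_trace h1₀ h3₀
  rw [ht] at h4₀
  -- choose the sign
  obtain ⟨p, q, r, s, h1, h3, h4⟩ : ∃ p q r s : ℝ, p * s - q * r = 1 ∧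
      rm g = !![(p ^ 2 + q ^ 2 + r ^ 2 + s ^ 2) / 2, -3 * (Real.sqrt 3)⁻¹ * (p * q + r * s),
        3 / 2 * (Real.sqrt 3)⁻¹ * (q ^ 2 + s ^ 2 - p ^ 2 - r ^ 2);
      -(Real.sqrt 3)⁻¹ * (p * r + q * s), p * s + q * r, p * r - q * s;
      1 / 2 * (Real.sqrt 3)⁻¹ * (r ^ 2 + s ^ 2 - p ^ 2 - q ^ 2), p * q - r * s,
        (p ^ 2 + s ^ 2 - q ^ 2 - r ^ 2) / 2] ∧ p + s = 6 * (Real.sqrt 3)⁻¹ := by
    have h5 : (p₀ + s₀ - 6 * (Real.sqrt 3)⁻¹) * (p₀ + s₀ + 6 * (Real.sqrt 3)⁻¹) = 0 := by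
      have := sq3
      push_cast at h4₀
      linear_combination h4₀ - 36 * this
    rcases mul_eq_zero.1 h5 with h6 | h6
    · exact ⟨p₀, q₀, r₀, s₀, h1₀, h3₀, by linarith⟩
    · refine ⟨-p₀, -q₀, -r₀, -s₀, by linarith, ?_, by linarith⟩
      rw [h3₀]
      congr 1
      ext i j
      fin_cases i <;> fin_cases j <;>
        simp only [Fin.zero_eta, Fin.mk_one, Fin.reduceFinMk, cons_val_zero, cons_val_one,
          cons_val] <;> ring
  clear h1₀ h2₀ h3₀ h4₀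
  set ρ := (Real.sqrt 3)⁻¹ with hρ
  have hr : ρ * ρ = 1 / 3 := sq3
  set C : ℝ := (p - s) / 2 with hC
  set D : ℝ := -(q + r) / 2 with hD
  set B : ℝ := 3 * ρ * (q - r) / 2 with hB
  have ep : p = 3 * ρ + C := by rw [hC]; linarith
  have es : s = 3 * ρ - C := by rw [hC]; linarith
  have eq : q = -D + ρ * B := by
    rw [hD, hB]; linear_combination (-3 / 2 * (q - r)) * hr
  have er : r = -D - ρ * B := by
    rw [hD, hB]; linear_combination (3 / 2 * (q - r)) * hr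
  have hrel : B ^ 2 = 3 * (C ^ 2 + D ^ 2) - 6 := by
    rw [ep, es, eq, er] at h1
    linear_combination 3 * h1 - (27 + 3 * B ^ 2) * hr
  have ent : ∀ i j, ((mat g).1 i j : ℝ) = rm g i j := fun i j => rfl
  have m00 : ((mat g).1 0 0 : ℝ) = 1 + 2 * C ^ 2 + 2 * D ^ 2 := by
    rw [ent, h3]
    simp only [of_apply, cons_val_zero, cons_val_one, cons_val]
    rw [ep, es, eq, er]
    linear_combination (9 + B ^ 2) * hr + 1 / 3 * hrel
  have m01 : ((mat g).1 0 1 : ℝ) = 6 * D - 2 * B * C := by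
    rw [ent, h3]
    simp only [of_apply, cons_val_zero, cons_val_one, cons_val]
    rw [ep, es, eq, er]
    linear_combination (18 * D - 6 * B * C) * hr
  have m02 : ((mat g).1 0 2 : ℝ) = -2 * B * D - 6 * C := by
    rw [ent, h3]
    simp only [of_apply, cons_val_zero, cons_val_one, cons_val]
    rw [ep, es, eq, er]
    linear_combination (-6 * B * D - 18 * C) * hr
  have m10 : ((mat g).1 1 0 : ℝ) = 2 * D + 2 / 3 * B * C := by
    rw [ent, h3]
    simp only [of_apply, cons_val_zero, cons_val_one, cons_val]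
    rw [ep, es, eq, er]
    linear_combination (6 * D + 2 * B * C) * hr
  have m11 : ((mat g).1 1 1 : ℝ) = 5 - 2 * C ^ 2 := by
    rw [ent, h3]
    simp only [of_apply, cons_val_zero, cons_val_one, cons_val]
    rw [ep, es, eq, er]
    linear_combination (9 - B ^ 2) * hr - 1 / 3 * hrel
  have m12 : ((mat g).1 1 2 : ℝ) = -2 * B - 2 * C * D := by
    rw [ent, h3]
    simp only [of_apply, cons_val_zero, cons_val_one, cons_val]
    rw [ep, es, eq, er]
    linear_combination (-6 * B) * hr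
  have m20 : ((mat g).1 2 0 : ℝ) = -2 * C + 2 / 3 * B * D := by
    rw [ent, h3]
    simp only [of_apply, cons_val_zero, cons_val_one, cons_val]
    rw [ep, es, eq, er]
    linear_combination (2 * B * D - 6 * C) * hr
  have m21 : ((mat g).1 2 1 : ℝ) = 2 * B - 2 * C * D := by
    rw [ent, h3]
    simp only [of_apply, cons_val_zero, cons_val_one, cons_val]
    rw [ep, es, eq, er]
    linear_combination (6 * B) * hr
  have m22 : ((mat g).1 2 2 : ℝ) = 5 - 2 * D ^ 2 := by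
    rw [ent, h3]
    simp only [of_apply, cons_val_zero, cons_val_one, cons_val]
    rw [ep, es, eq, er]
    linear_combination (9 - B ^ 2) * hr - 1 / 3 * hrel
  obtain ⟨C', hC'⟩ : ∃ m : ℤ, C = m := by
    apply int_of (k := 5 - (mat g).1 1 1) (n := -((mat g).1 0 2 + 3 * (mat g).1 2 0))
    · push_cast; rw [m11]; ring
    · push_cast; rw [m02, m20]; ring
  obtain ⟨D', hD'⟩ : ∃ m : ℤ, D = m := by
    apply int_of (k := 5 - (mat g).1 2 2) (n := (mat g).1 0 1 + 3 * (mat g).1 1 0)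
    · push_cast; rw [m22]; ring
    · push_cast; rw [m01, m10]; ring
  obtain ⟨B', hB'⟩ : ∃ m : ℤ, B = 3 * m := by
    have h5 : 4 * B = (((mat g).1 2 1 - (mat g).1 1 2 : ℤ) : ℝ) := by push_cast; rw [m21, m12]; ring
    set n := (mat g).1 2 1 - (mat g).1 1 2
    have h6 : (n : ℝ) ^ 2 = 16 * (3 * ((C' : ℝ) ^ 2 + D' ^ 2) - 6) := by
      rw [← h5, ← hC', ← hD', ← hrel]; ring
    have h7 : n ^ 2 = 16 * (3 * (C' ^ 2 + D' ^ 2) - 6) := by exact_mod_cast h6
    have h8 : (4 : ℤ) ∣ n := by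
      have h9 : (4 : ℤ) ^ 2 ∣ n ^ 2 := ⟨3 * (C' ^ 2 + D' ^ 2) - 6, by rw [h7]; ring⟩
      exact (Int.pow_dvd_pow_iff (by norm_num)).1 h9
    obtain ⟨n', hn'⟩ := h8
    rw [hn'] at h7 h5
    have h9 : n' ^ 2 = 3 * (C' ^ 2 + D' ^ 2 - 2) := by nlinarith
    have h10 : (3 : ℤ) ∣ n' := Int.prime_three.dvd_of_dvd_pow ⟨_, h9⟩
    obtain ⟨m, hm⟩ := h10
    refine ⟨m, ?_⟩
    rw [hm] at h5
    push_cast at h5
    linarith
  refine ⟨B', C', D', ?_, ?_⟩
  · rw [hB', hC', hD'] at hrel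
    have h5 : (3 : ℝ) * (B' : ℝ) ^ 2 = (C' : ℝ) ^ 2 + (D' : ℝ) ^ 2 - 2 := by linarith
    exact_mod_cast h5
  · rw [hB', hC', hD'] at m01 m02 m10 m12 m20 m21
    rw [hC', hD'] at m00
    rw [hC'] at m11
    rw [hD'] at m22
    have n00 : (mat g).1 0 0 = 1 + 2 * C' ^ 2 + 2 * D' ^ 2 := by exact_mod_cast m00
    have n01 : (mat g).1 0 1 = 6 * D' - 6 * B' * C' := by
      have : ((mat g).1 0 1 : ℝ) = 6 * D' - 6 * B' * C' := by rw [m01]; ring
      exact_mod_cast this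
    have n02 : (mat g).1 0 2 = -6 * B' * D' - 6 * C' := by
      have : ((mat g).1 0 2 : ℝ) = -6 * B' * D' - 6 * C' := by rw [m02]; ring
      exact_mod_cast this
    have n10 : (mat g).1 1 0 = 2 * D' + 2 * B' * C' := by
      have : ((mat g).1 1 0 : ℝ) = 2 * D' + 2 * B' * C' := by rw [m10]; ring
      exact_mod_cast this
    have n11 : (mat g).1 1 1 = 5 - 2 * C' ^ 2 := by exact_mod_cast m11
    have n12 : (mat g).1 1 2 = -6 * B' - 2 * C' * D' := by
      have : ((mat g).1 1 2 : ℝ) = -6 * B' - 2 * C' * D' := by rw [m12]; ring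
      exact_mod_cast this
    have n20 : (mat g).1 2 0 = -2 * C' + 2 * B' * D' := by
      have : ((mat g).1 2 0 : ℝ) = -2 * C' + 2 * B' * D' := by rw [m20]; ring
      exact_mod_cast this
    have n21 : (mat g).1 2 1 = 6 * B' - 2 * C' * D' := by
      have : ((mat g).1 2 1 : ℝ) = 6 * B' - 2 * C' * D' := by rw [m21]; ring
      exact_mod_cast this
    have n22 : (mat g).1 2 2 = 5 - 2 * D' ^ 2 := by exact_mod_cast m22
    ext i j
    fin_cases i <;> fin_cases j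
    · exact n00
    · exact n01
    · exact n02
    · exact n10
    · exact n11
    · exact n12
    · exact n20
    · exact n21
    · exact n22

end Pool.Agent.P8H79.Iso
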