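import Pool.Agent.P8H79.Iso.Disc

/-! Finite index subgroups of the triangle group given by tables. -/

set_option autoImplicit false

open UpperHalfPlane

namespace Pool.Agent.P8H79.Iso

/-- table lookup -/
def lk (b T i : ℕ) : ℕ := (T >>> (b * i)) % 2 ^ b

/-- the orders of the products of two generators -/
def mm (s t : Fin 3) : ℕ :=
  if s = t then 1 else if s.val + t.val = 1 then 2 else if s.val + t.val = 3 then 4 else 6

/-- alternating letters -/
def lt2 (s t : Fin 3) (k : ℕ) : Fin 3 := if k % 2 = 0 then s else t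

/-- alternating walks -/
def walk (P : Fin 3 → Fin 96 → Fin 96) (s t : Fin 3) : ℕ → Fin 96 → Fin 96
  | 0, w => w
  | k + 1, w => P (lt2 s t k) (walk P s t k w)

/-- sums along alternating walks -/
def csum (P : Fin 3 → Fin 96 → Fin 96) (c : Fin 3 → Fin 96 → ℤ) (s t : Fin 3) : ℕ → Fin 96 → ℤ
  | 0, _ => 0
  | k + 1, w => csum P c s t k w + c (lt2 s t k) (walk P s t k w)

/-- words of the spanning tree -/
def wd (P : Fin 3 → Fin 96 → Fin 96) (par : Fin 96 → Fin 3) : ℕ → Fin 96 → List (Fin 3)
  | 0, _ => []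
  | n + 1, w => if w = 0 then [] else par w :: wd P par n (P (par w) w)

/-- a table for a finite index subgroup -/
structure Dat where
  P : Fin 3 → Fin 96 → Fin 96
  par : Fin 96 → Fin 3
  rk : Fin 3 → Fin 96 → ℕ
  ft : Fin 3 → Fin 96 → Fin 3
  ge : Fin 6 → Fin 3 × Fin 96
  c : Fin 6 → Fin 3 → Fin 96 → ℤ
  invol : ∀ s w, P s (P s w) = w
  rel : ∀ s t w, walk P s t (2 * mm s t) w = w
  sheet : ∀ s w, (P s w).val < 48 ↔ ¬ w.val < 48
  wd1 : ∀ w, w ≠ 0 → wd P par 20 w = par w :: wd P par 20 (P (par w) w)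
  free : ∀ s t : Fin 3, s ≠ t → ∀ j : Fin 6, 0 < j.val → j.val < mm s t → ∀ w,
    walk P s t (2 * j.val) w ≠ w
  rkd : ∀ s w, rk s w ≠ 0 → ft s w ≠ s ∧ ∀ k : Fin 12, 1 ≤ k.val → k.val < 2 * mm s (ft s w) →
    rk (lt2 s (ft s w) k.val) (walk P s (ft s w) k.val w) < rk s w
  rk0 : ∀ s w, rk s w = 0 → (w ≠ 0 ∧ s = par w) ∨ (P s w ≠ 0 ∧ s = par (P s w)) ∨
    ∃ j, ge j = (s, w) ∨ ge j = (s, P s w)
  canti : ∀ j s w, c j s (P s w) = -c j s w
  crel : ∀ j s t w, csum P (c j) s t (2 * mm s t) w = 0
  ctree : ∀ j w, w ≠ 0 → c j (par w) (P (par w) w) = 0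
  cge : ∀ j i, c j (ge i).1 (ge i).2 = if i = j then 1 else 0

theorem relator (s t : Fin 3) : sys.pr (alt (2 * mm s t) t s) = 1 := by
  have key : ∀ (a b : Fin 3) (n : ℕ), sys.pr (alt (2 * n) a b) = (gn a * gn b) ^ n := by
    intro a b n
    induction n with
    | zero => simp [alt]
    | succ n ih =>
      rw [show 2 * (n + 1) = 2 * n + 1 + 1 by ring, alt, TSys.pr_cons, alt, TSys.pr_cons, ih]
      have h1 : ¬ Even (2 * n + 1) := by
        rw [Nat.not_even_iff_odd]; exact ⟨n, rfl⟩
      have h2 : Even (2 * n) := even_two_mul n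
      rw [if_neg h1, if_pos h2, ← mul_assoc, pow_succ']
      rfl
  rw [key]
  have h := good_gn
  have h01 := h.s01
  have h12 := h.s12
  have h02 := h.s02
  have h10 := swap_pow h.s0 h.s1 h01
  have h21 := swap_pow h.s1 h.s2 h12
  have h20 := swap_pow h.s0 h.s2 h02
  fin_cases s <;> fin_cases t
  · show (gn 0 * gn 0) ^ 1 = 1
    rw [pow_one, h.s0]
  · exact h10
  · exact h20
  · exact h01
  · show (gn 1 * gn 1) ^ 1 = 1
    rw [pow_one, h.s1]
  · exact h21
  · exact h02
  · exact h12
  · show (gn 2 * gn 2) ^ 1 = 1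
    rw [pow_one, h.s2]

theorem lt2_eq (s t : Fin 3) (k : ℕ) : (if Even k then s else t) = lt2 s t k := by
  unfold lt2
  simp only [Nat.even_iff]

theorem alt_succ (s t : Fin 3) (k : ℕ) : sys.pr (alt (k + 1) t s) =
    gn (lt2 s t k) * sys.pr (alt k t s) := by
  rw [alt, TSys.pr_cons, lt2_eq]
  rfl

namespace Dat

variable (D : Dat)

/-- the generators as permutations -/
def pf (s : Fin 3) : Equiv.Perm (Fin 96) := ⟨D.P s, D.P s, D.invol s, D.invol s⟩

theorem pf_apply (s : Fin 3) (w : Fin 96) : D.pf s w = D.P s w := rfl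

theorem good_pf : Good D.pf := by
  have h := D.rel
  refine ⟨?_, ?_, ?_, ?_, ?_, ?_⟩
  · ext w; simp [pf_apply, D.invol]
  · ext w; simp [pf_apply, D.invol]
  · ext w; simp [pf_apply, D.invol]
  · ext w
    have := h 1 0 w
    simp only [mm] at this
    simp only [pow_succ, pow_zero, one_mul, Equiv.Perm.mul_apply, pf_apply, Equiv.Perm.one_apply]
    exact congrArg Fin.val this
  · ext w
    have := h 2 1 w
    simp only [mm] at this
    simp only [pow_succ, pow_zero, one_mul, Equiv.Perm.mul_apply, pf_apply, Equiv.Perm.one_apply]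
    exact congrArg Fin.val this
  · ext w
    have := h 2 0 w
    simp only [mm] at this
    simp only [pow_succ, pow_zero, one_mul, Equiv.Perm.mul_apply, pf_apply, Equiv.Perm.one_apply]
    exact congrArg Fin.val this

/-- the permutation representation -/
def perm : W →* Equiv.Perm (Fin 96) := lift D.pf D.good_pf

@[simp] theorem perm_gn (s : Fin 3) : D.perm (gn s) = D.pf s := lift_gn _ _ _

theorem perm_mul (g h : W) (w : Fin 96) : D.perm (g * h) w = D.perm g (D.perm h w) := by
  rw [map_mul]; rfl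

theorem perm_alt (s t : Fin 3) (k : ℕ) (w : Fin 96) :
    D.perm (sys.pr (alt k t s)) w = walk D.P s t k w := by
  induction k with
  | zero => simp [alt, walk]
  | succ k ih => rw [alt_succ, perm_mul, ih, perm_gn, pf_apply, walk]

/-- the subgroup -/
def K : Subgroup W where
  carrier := {g | D.perm g 0 = 0}
  mul_mem' {g h} hg hh := by
    show D.perm (g * h) 0 = 0
    rw [perm_mul, show D.perm h 0 = 0 from hh, show D.perm g 0 = 0 from hg]
  one_mem' := by simp
  inv_mem' {g} hg := by
    show D.perm g⁻¹ 0 = 0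
    rw [map_inv, Equiv.Perm.inv_eq_iff_eq]
    exact (show D.perm g 0 = 0 from hg).symm

theorem mem_K {g : W} : g ∈ D.K ↔ D.perm g 0 = 0 := Iff.rfl

/-- coset representatives -/
noncomputable def tr (w : Fin 96) : W := sys.pr (wd D.P D.par 20 w)

theorem tr_zero : D.tr 0 = 1 := by simp [tr, wd]

theorem tr_succ {w : Fin 96} (hw : w ≠ 0) : D.tr w = gn (D.par w) * D.tr (D.P (D.par w) w) := by
  unfold tr
  rw [D.wd1 w hw, TSys.pr_cons]
  rfl

theorem tree_induction {p : Fin 96 → Prop} (h0 : p 0)
    (hs : ∀ w, w ≠ 0 → p (D.P (D.par w) w) → p w) (w : Fin 96) : p w := by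
  induction hn : (wd D.P D.par 20 w).length using Nat.strong_induction_on generalizing w with
  | _ n IH =>
    by_cases hw : w = 0
    · rw [hw]; exact h0
    · apply hs w hw
      apply IH _ _ _ rfl
      rw [← hn, D.wd1 w hw]
      simp

theorem perm_tr (w : Fin 96) : D.perm (D.tr w) 0 = w := by
  induction w using D.tree_induction with
  | h0 => rw [tr_zero]; simp
  | hs w hw ih => rw [D.tr_succ hw, perm_mul, ih, perm_gn, pf_apply, D.invol]

/-- the Schreier generators -/
noncomputable def sg (s : Fin 3) (w : Fin 96) : W := (D.tr (D.P s w))⁻¹ * gn s * D.tr w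

theorem sg_mem (s : Fin 3) (w : Fin 96) : D.sg s w ∈ D.K := by
  rw [mem_K, sg, perm_mul, perm_mul, perm_tr, perm_gn, pf_apply, map_inv,
    Equiv.Perm.inv_eq_iff_eq, perm_tr]

theorem sg_inv (s : Fin 3) (w : Fin 96) : D.sg s (D.P s w) = (D.sg s w)⁻¹ := by
  unfold sg
  rw [D.invol, mul_inv_rev, mul_inv_rev, inv_inv, inv_eq_of_mul_eq_one_left (gn_sq s), mul_assoc]

theorem mem_of_sg {H : Subgroup W} (h : ∀ s w, D.sg s w ∈ H) (g : W) (w : Fin 96) :
    (D.tr (D.perm g w))⁻¹ * g * D.tr w ∈ H := by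
  induction g using W_induction generalizing w with
  | h1 => simp
  | hm s g ih =>
    have h1 := mul_mem (h s (D.perm g w)) (ih w)
    have h2 : D.perm (gn s * g) w = D.P s (D.perm g w) := by rw [perm_mul, perm_gn, pf_apply]
    rw [h2]
    convert h1 using 1
    unfold sg
    group

theorem K_le {H : Subgroup W} (h : ∀ s w, D.sg s w ∈ H) : D.K ≤ H := by
  intro g hg
  have := D.mem_of_sg h g 0
  rw [D.mem_K.1 hg, tr_zero] at this
  simpa using this

/-- the six generators -/
noncomputable def gg (j : Fin 6) : W := D.sg (D.ge j).1 (D.ge j).2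

theorem sg_tree {w : Fin 96} (hw : w ≠ 0) : D.sg (D.par w) w = 1 := by
  unfold sg
  rw [D.tr_succ hw, ← mul_assoc, mul_assoc _ (gn _) (gn _), gn_sq]
  simp

theorem sg_rank (n : ℕ) : ∀ s w, D.rk s w = n → D.sg s w ∈ Subgroup.closure (Set.range D.gg) := by
  induction n using Nat.strong_induction_on with
  | _ n IH =>
    intro s w hn
    rcases Nat.eq_zero_or_pos n with h0 | hpos
    · rw [h0] at hn
      rcases D.rk0 s w hn with ⟨h1, rfl⟩ | ⟨h1, h2⟩ | ⟨j, h1 | h1⟩
      · rw [D.sg_tree h1]; exact one_mem _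
      · have h3 : D.sg s (D.P s w) = 1 := by
          conv_lhs => rw [h2]
          rw [← h2]
          have := D.sg_tree h1
          rwa [← h2] at this
        rw [D.sg_inv, inv_eq_one] at h3
        rw [h3]; exact one_mem _
      · have : D.gg j = D.sg s w := by rw [gg, h1]
        rw [← this]
        exact Subgroup.subset_closure ⟨j, rfl⟩
      · have : D.gg j = D.sg s (D.P s w) := by rw [gg, h1]
        rw [D.sg_inv] at this
        rw [← inv_inv (D.sg s w), ← this]
        exact inv_mem (Subgroup.subset_closure ⟨j, rfl⟩)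
    · obtain ⟨h1, h2⟩ := D.rkd s w (by omega)
      set t := D.ft s w
      set H := Subgroup.closure (Set.range D.gg)
      let G : ℕ → W := fun k => (D.tr (walk D.P s t k w))⁻¹ * sys.pr (alt k t s) * D.tr w
      have hG1 : G 1 = D.sg s w := by
        simp [G, walk, lt2, alt, sg]
        rfl
      have hstep : ∀ k, G (k + 1) = D.sg (lt2 s t k) (walk D.P s t k w) * G k := by
        intro k
        simp only [G, alt_succ, walk, sg]
        group
      have hmm : 2 * mm s t ≤ 12 := by
        unfold mm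
        split_ifs <;> norm_num
      have hk : ∀ k, k + 1 ≤ 2 * mm s t → G (k + 1) * (G 1)⁻¹ ∈ H := by
        intro k
        induction k with
        | zero => intro _; rw [mul_inv_cancel]; exact one_mem _
        | succ k ih =>
          intro hk
          rw [hstep, mul_assoc]
          refine mul_mem ?_ (ih (by omega))
          have h3 := h2 ⟨k + 1, by omega⟩ (by simp) (by simp; omega)
          exact IH _ (by rw [← hn]; exact h3) _ _ rfl
      have hpos' : 0 < 2 * mm s t := by
        unfold mm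
        split_ifs <;> norm_num
      obtain ⟨m, hm⟩ : ∃ m, 2 * mm s t = m + 1 := ⟨2 * mm s t - 1, by omega⟩
      have hlast : G (m + 1) = 1 := by
        simp only [G]
        rw [← hm, D.rel, relator]
        simp
      have h3 := hk m (by omega)
      rw [hlast, one_mul, hG1] at h3
      exact (Subgroup.inv_mem_iff _).1 h3

theorem K_eq : Subgroup.closure (Set.range D.gg) = D.K := by
  apply le_antisymm
  · rw [Subgroup.closure_le]
    rintro _ ⟨j, rfl⟩
    exact D.sg_mem _ _
  · exact D.K_le fun s w => D.sg_rank _ s w rfl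

end Dat

end Pool.Agent.P8H79.Iso
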