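import Pool.Agent.P8H79.Iso.Cls

/-! Conjugacy of the orientation preserving elements with squared trace twelve. -/

set_option autoImplicit false

open Matrix UpperHalfPlane

namespace Pool.Agent.P8H79.Iso

theorem mat_inj {g h : W} (hm : (mat g).1 = (mat h).1) : g = h := by
  apply act_injective
  ext z
  congr 1
  apply pt_injective
  rw [pt_act, pt_act]
  unfold rm
  rw [hm]

theorem disp_form {g : W} {B C D : ℤ} (hrel : 3 * B ^ 2 = C ^ 2 + D ^ 2 - 2)
    (h : (mat g).1 = Rf B C D) (z : ℍ) : Real.cosh (dist z (act g z)) =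
      5 + 6 * (B * pt z 0 - C * pt z 1 - D * pt z 2) ^ 2 := by
  rw [cosh_dist_act]
  have hr : (3 : ℝ) * (B : ℝ) ^ 2 = (C : ℝ) ^ 2 + (D : ℝ) ^ 2 - 2 := by exact_mod_cast hrel
  have hself := fm_pt_self z
  set x := pt z
  have e : rm g *ᵥ x = ![(1 + 2 * C ^ 2 + 2 * D ^ 2) * x 0 + (6 * D - 6 * B * C) * x 1 +
      (-6 * B * D - 6 * C) * x 2, (2 * D + 2 * B * C) * x 0 + (5 - 2 * C ^ 2) * x 1 +
      (-6 * B - 2 * C * D) * x 2, (-2 * C + 2 * B * D) * x 0 + (6 * B - 2 * C * D) * x 1 +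
      (5 - 2 * D ^ 2) * x 2] := by
    unfold rm
    rw [h]
    ext i
    fin_cases i <;> simp [Rf, mulVec, dotProduct, Fin.sum_univ_three]
  rw [e]
  unfold fm at hself ⊢
  simp only [cons_val_zero, cons_val_one, cons_val]
  linear_combination (-5) * hself - 2 * (x 0) ^ 2 * hr

theorem axis_pt {g : W} (hs : sgn g = 1) (ht : (mat g).1.trace = 11) :
    ∃ z : ℍ, Real.cosh (dist z (act g z)) = 5 := by
  obtain ⟨p, q, r, s, h1, h2, h3⟩ := even_moebius hs
  rw [ht] at h3
  push_cast at h3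
  obtain ⟨z, hz⟩ := exists_axis (a := p) (b := q) (c := r) (d := s) h1 (by rw [h3]; norm_num)
  refine ⟨z, ?_⟩
  rw [cosh_disp h1 (h2 z), hz, h3]
  norm_num

/-- product of the matrices of a word -/
def mw : List (Fin 3) → Matrix (Fin 3) (Fin 3) ℤ
  | [] => 1
  | i :: l => mt i * mw l

/-- product of the generators of a word -/
def gw : List (Fin 3) → W
  | [] => 1
  | i :: l => gn i * gw l

theorem mat_gw (l : List (Fin 3)) : (mat (gw l)).1 = mw l := by
  induction l with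
  | nil => simp [gw, mw]
  | cons i l ih => rw [gw, mw, map_mul, Units.val_mul, ih, mat_gn]; rfl

theorem gw_append (l l' : List (Fin 3)) : gw (l ++ l') = gw l * gw l' := by
  induction l with
  | nil => simp [gw]
  | cons i l ih => rw [List.cons_append, gw, gw, ih, mul_assoc]

theorem gw_reverse (l : List (Fin 3)) : gw l.reverse = (gw l)⁻¹ := by
  induction l with
  | nil => simp [gw]
  | cons i l ih =>
    rw [List.reverse_cons, gw_append, ih, gw, gw, gw, mul_one, _root_.mul_inv_rev,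
      inv_eq_of_mul_eq_one_left (gn_sq i)]

/-- the word of the systole -/
def uw : List (Fin 3) := [1, 2, 1, 2, 0, 2, 0, 2, 0, 2]

/-- the systole -/
def u : W := gw uw

/-- the conjugating words -/
def cw (B C D : ℤ) : List (Fin 3) :=
  if B = 0 then (if C = D then [] else [1]) else
  if B = -1 then
    (if C = -2 then (if D = -1 then [0, 1] else [0]) else
    if C = -1 then (if D = -2 then [1, 2, 0] else [2, 0]) else
    if C = 1 then (if D = -2 then [1, 2, 0, 1] else [2, 0, 1]) else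
    (if D = -1 then [1, 2, 1, 2, 0] else [2, 1, 2, 0])) else
    (if C = -2 then (if D = -1 then [2, 1, 2, 0] else [1, 2, 1, 2, 0]) else
    if C = -1 then (if D = -2 then [2, 0, 1] else [1, 2, 0, 1]) else
    if C = 1 then (if D = -2 then [2, 0] else [1, 2, 0]) else
    (if D = -1 then [0] else [0, 1]))

theorem cw_spec : ∀ b c d : Fin 5, 3 * ((b.val : ℤ) - 2) ^ 2 = ((c.val : ℤ) - 2) ^ 2 +
    ((d.val : ℤ) - 2) ^ 2 - 2 →
    let l := cw ((b.val : ℤ) - 2) ((c.val : ℤ) - 2) ((d.val : ℤ) - 2)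
    Rf ((b.val : ℤ) - 2) ((c.val : ℤ) - 2) ((d.val : ℤ) - 2) = mw (l ++ uw ++ l.reverse) ∨
    Rf ((b.val : ℤ) - 2) ((c.val : ℤ) - 2) ((d.val : ℤ) - 2) = mw (l ++ uw.reverse ++ l.reverse) := by
  decide +kernel

theorem cw_spec' {B C D : ℤ} (hrel : 3 * B ^ 2 = C ^ 2 + D ^ 2 - 2) (hB : B ^ 2 ≤ 1) :
    ∃ w : W, ∀ g : W, (mat g).1 = Rf B C D → g = w * u * w⁻¹ ∨ g = w * u⁻¹ * w⁻¹ := by
  have hC : C ^ 2 ≤ 5 := by nlinarith [sq_nonneg D]
  have hD : D ^ 2 ≤ 5 := by nlinarith [sq_nonneg C]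
  have b1 : -1 ≤ B := by nlinarith
  have b2 : B ≤ 1 := by nlinarith
  have c1 : -2 ≤ C := by nlinarith
  have c2 : C ≤ 2 := by nlinarith
  have d1 : -2 ≤ D := by nlinarith
  have d2 : D ≤ 2 := by nlinarith
  have key := cw_spec ⟨(B + 2).toNat, by omega⟩ ⟨(C + 2).toNat, by omega⟩ ⟨(D + 2).toNat, by omega⟩
  simp only at key
  rw [Int.toNat_of_nonneg (by omega), Int.toNat_of_nonneg (by omega),
    Int.toNat_of_nonneg (by omega)] at key
  simp only [add_sub_cancel_right] at key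
  specialize key hrel
  refine ⟨gw (cw B C D), fun g hg => ?_⟩
  rcases key with h | h
  · left
    apply mat_inj
    rw [hg, h, ← mat_gw, gw_append, gw_append, gw_reverse]
    rfl
  · right
    apply mat_inj
    rw [hg, h, ← mat_gw, gw_append, gw_append, gw_reverse, gw_reverse]
    rfl

/-- all orientation preserving elements with squared trace twelve are conjugate -/
theorem class11 {g : W} (hs : sgn g = 1) (ht : (mat g).1.trace = 11) :
    ∃ w : W, g = w * u * w⁻¹ ∨ g = w * u⁻¹ * w⁻¹ := by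
  obtain ⟨z, hz⟩ := axis_pt hs ht
  obtain ⟨h, hh⟩ := cover z
  have hs' : sgn (h * g * h⁻¹) = 1 := by
    rw [map_mul, map_mul, hs, mul_one, map_inv, mul_inv_cancel]
  have ht' : (mat (h * g * h⁻¹)).1.trace = 11 := by
    rw [map_mul, map_mul, map_inv, Units.val_mul, Units.val_mul, trace_mul_comm, ← mul_assoc,
      Units.inv_mul, one_mul, ht]
  obtain ⟨B, C, D, hrel, hm⟩ := form11 hs' ht'
  have hd : Real.cosh (dist (act h z) (act (h * g * h⁻¹) (act h z))) = 5 := by
    rw [← hz]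
    congr 1
    rw [map_mul, map_mul, map_inv, IsometryEquiv.mul_apply, IsometryEquiv.mul_apply,
      IsometryEquiv.inv_apply_self, (act h).dist_eq]
  rw [disp_form hrel hm] at hd
  have hax : (B : ℝ) * pt (act h z) 0 = C * pt (act h z) 1 + D * pt (act h z) 2 := by
    have h1 : ((B : ℝ) * pt (act h z) 0 - C * pt (act h z) 1 - D * pt (act h z) 2) ^ 2 = 0 := by
      linarith
    have h2 := pow_eq_zero_iff (two_ne_zero) |>.1 h1
    linarith
  have hb := ch_bound hh
  have hself := fm_pt_self (act h z)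
  unfold fm at hself
  set x := pt (act h z)
  have hr : (3 : ℝ) * (B : ℝ) ^ 2 = (C : ℝ) ^ 2 + (D : ℝ) ^ 2 - 2 := by exact_mod_cast hrel
  have hB : (B : ℝ) ^ 2 ≤ 4 / 3 := by
    have h1 : ((B : ℝ) * x 0) ^ 2 ≤ ((C : ℝ) ^ 2 + (D : ℝ) ^ 2) * (x 1 ^ 2 + x 2 ^ 2) := by
      rw [hax]
      nlinarith [sq_nonneg ((C : ℝ) * x 2 - D * x 1)]
    have h2 : x 1 ^ 2 + x 2 ^ 2 = (x 0 ^ 2 - 1) / 3 := by linarith
    rw [h2] at h1
    nlinarith
  have hB' : B ^ 2 ≤ 1 := by
    have h1 : (B : ℝ) ^ 2 < 2 := by linarith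
    have h2 : B ^ 2 < 2 := by exact_mod_cast h1
    omega
  obtain ⟨w, hw⟩ := cw_spec' hrel hB'
  refine ⟨h⁻¹ * w, ?_⟩
  rcases hw _ hm with h1 | h1
  · left
    rw [_root_.mul_inv_rev, inv_inv]
    have : g = h⁻¹ * (h * g * h⁻¹) * h := by group
    rw [this, h1]
    simp only [mul_assoc]
  · right
    rw [_root_.mul_inv_rev, inv_inv]
    have : g = h⁻¹ * (h * g * h⁻¹) * h := by group
    rw [this, h1]
    simp only [mul_assoc]

end Pool.Agent.P8H79.Iso
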