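import Pool.Agent.P8H79.Iso.Geo

/-! Discreteness, the fundamental chamber and stabilisers. -/

set_option autoImplicit false

open Matrix UpperHalfPlane

namespace Pool.Agent.P8H79.Iso

/-- the base point -/
noncomputable def x0 : ℍ := ⟨⟨-1 / 2, 1⟩, by norm_num⟩

theorem pt_x0 : pt x0 = ![9 / 8, 1 / 2 * (Real.sqrt 3)⁻¹, -(1 / 8) * (Real.sqrt 3)⁻¹] := by
  rw [pt_eq]
  have h1 : x0.re = -1 / 2 := rfl
  have h2 : x0.im = 1 := rfl
  have h3 : nq x0 = 5 / 4 := by unfold nq; rw [h1, h2]; norm_num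
  rw [h1, h2, h3]
  apply vec3_eq <;> ring

theorem r3 : Real.sqrt 3 = 3 * (Real.sqrt 3)⁻¹ := by
  have rt : (Real.sqrt 3)⁻¹ * Real.sqrt 3 = 1 := inv_mul_cancel₀ s3pos.ne'
  linear_combination (-Real.sqrt 3) * rt + (Real.sqrt 3)⁻¹ * s3sq

/-- the open chamber -/
def Op : Set ℍ := {z | ∀ s, fm (pt z) (wall s) < 0}

/-- the closed chamber -/
def Ch : Set ℍ := {z | ∀ s, fm (pt z) (wall s) ≤ 0}

theorem x0_mem : x0 ∈ Op := by
  have h3 : 0 < (Real.sqrt 3)⁻¹ := by positivity
  intro s
  rw [pt_x0]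
  fin_cases s
  · show fm _ (wall 0) < 0
    rw [fm_wall0]
    apply mul_neg_of_pos_of_neg (by positivity)
    simp only [cons_val_zero, cons_val_one]
    have h4 : (Real.sqrt 3)⁻¹ < 3 / 4 := by
      by_contra hcon
      push Not at hcon
      have := sq3
      nlinarith
    linarith
  · show fm _ (wall 1) < 0
    rw [fm_wall1]
    apply mul_neg_of_pos_of_neg (by positivity)
    simp only [cons_val]
    linarith
  · show fm _ (wall 2) < 0
    rw [fm_wall2]
    apply mul_neg_of_pos_of_neg (by positivity)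
    simp only [cons_val_one, cons_val]
    linarith

theorem continuous_pt : Continuous pt := by
  have h1 : Continuous fun z : ℍ => z.re := UpperHalfPlane.continuous_re
  have h2 : Continuous fun z : ℍ => z.im := UpperHalfPlane.continuous_im
  have h3 : Continuous fun z : ℍ => nq z := (h1.pow 2).add (h2.pow 2)
  have h4 : ∀ z : ℍ, z.im ≠ 0 := fun z => z.im_ne_zero
  have h5 : Continuous fun z : ℍ => ![(nq z / z.im + 1 / z.im) / 2,
      -(z.re / z.im) * (Real.sqrt 3)⁻¹, (1 / z.im - nq z / z.im) / 2 * (Real.sqrt 3)⁻¹] := by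
    apply continuous_pi
    intro i
    fin_cases i
    · exact ((h3.div h2 h4).add (continuous_const.div h2 h4)).div_const 2
    · exact ((h1.div h2 h4).neg).mul continuous_const
    · exact (((continuous_const.div h2 h4).sub (h3.div h2 h4)).div_const 2).mul continuous_const
  exact h5.congr fun z => (pt_eq z).symm

theorem continuous_fm (y : Fin 3 → ℝ) : Continuous fun z => fm (pt z) y := by
  have h := continuous_pt
  unfold fm
  have h0 : Continuous fun z => pt z 0 := (continuous_apply 0).comp h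
  have h1 : Continuous fun z => pt z 1 := (continuous_apply 1).comp h
  have h2 : Continuous fun z => pt z 2 := (continuous_apply 2).comp h
  fun_prop

theorem isOpen_Op : IsOpen Op := by
  have : Op = ⋂ s, {z | fm (pt z) (wall s) < 0} := by ext z; simp [Op]
  rw [this]
  exact isOpen_iInter_of_finite fun s => isOpen_lt (continuous_fm _) continuous_const

theorem isClosed_Ch : IsClosed Ch := by
  have : Ch = ⋂ s, {z | fm (pt z) (wall s) ≤ 0} := by ext z; simp [Ch]
  rw [this]
  exact isClosed_iInter fun s => isClosed_le (continuous_fm _) continuous_const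

theorem not_mem_Op {g : W} (h : g ≠ 1) {z : ℍ} (hz : z ∈ Op) : act g z ∉ Op := by
  intro h1
  obtain ⟨s, _, hs⟩ := sys.exists_pos h
  have h2 := hs (pt z) hz
  have h3 := h1 s
  rw [pt_act] at h3
  exact absurd (lt_trans h2 h3) (lt_irrefl _)

theorem exists_sep : ∃ δ > 0, ∀ g : W, g ≠ 1 → δ ≤ dist x0 (act g x0) := by
  obtain ⟨δ, hδ, h⟩ := Metric.isOpen_iff.1 isOpen_Op x0 x0_mem
  refine ⟨δ, hδ, fun g hg => ?_⟩
  by_contra hcon
  push Not at hcon
  exact not_mem_Op hg x0_mem (h (by rw [Metric.mem_ball, dist_comm]; exact hcon))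

theorem act_injective : Function.Injective act := by
  rw [injective_iff_map_eq_one]
  intro g hg
  by_contra hne
  obtain ⟨δ, hδ, h⟩ := exists_sep
  have := h g hne
  rw [hg] at this
  simp at this
  linarith

theorem finite_ball (R : ℝ) : {g : W | dist x0 (act g x0) ≤ R}.Finite := by
  obtain ⟨δ, hδ, h⟩ := exists_sep
  obtain ⟨t, _, ht, hcov⟩ := (isCompact_closedBall x0 R).finite_cover_balls (half_pos hδ)
  have hc : ∀ g : W, dist x0 (act g x0) ≤ R → ∃ c ∈ t, dist (act g x0) c < δ / 2 := by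
    intro g hg
    have : act g x0 ∈ Metric.closedBall x0 R := by rw [Metric.mem_closedBall, dist_comm]; exact hg
    have h2 := hcov this
    simp only [Set.mem_iUnion] at h2
    obtain ⟨c, hc, hc2⟩ := h2
    exact ⟨c, hc, hc2⟩
  choose! f hf1 hf2 using hc
  refine Set.Finite.of_finite_image (f := f) (ht.subset ?_) ?_
  · rintro _ ⟨g, hg, rfl⟩
    exact hf1 g hg
  · intro g hg g' hg' he
    by_contra hne
    have h1 : g⁻¹ * g' ≠ 1 := by
      intro h2
      exact hne (inv_mul_eq_one.1 h2)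
    have h2 := h _ h1
    have h3 : dist x0 (act (g⁻¹ * g') x0) = dist (act g x0) (act g' x0) := by
      rw [← (act g).dist_eq x0, map_mul, map_inv, IsometryEquiv.mul_apply,
        IsometryEquiv.apply_inv_self]
    rw [h3] at h2
    have h4 := hf2 g hg
    have h5 := hf2 g' hg'
    rw [he] at h4
    have h6 := dist_triangle_right (act g x0) (act g' x0) (f g')
    linarith

theorem neg_fm_le {z w : ℍ} {x y : ℍ} (h : dist z w ≤ dist x y) :
    -fm (pt z) (pt w) ≤ -fm (pt x) (pt y) := by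
  rw [← cosh_dist_eq, ← cosh_dist_eq]
  exact Real.cosh_le_cosh.2 (by rwa [abs_of_nonneg dist_nonneg, abs_of_nonneg dist_nonneg])

theorem dist_lt_of_fm {z w : ℍ} {x y : ℍ} (h : -fm (pt z) (pt w) < -fm (pt x) (pt y)) :
    dist z w < dist x y := by
  by_contra hcon
  push Not at hcon
  exact absurd (neg_fm_le hcon) (not_le.2 h)

theorem cover (z : ℍ) : ∃ g : W, act g z ∈ Ch := by
  have hfin : {g : W | dist (act g z) x0 ≤ dist z x0}.Finite := by
    apply (finite_ball (2 * dist z x0)).subset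
    intro g hg
    simp only [Set.mem_ofPred_eq] at hg ⊢
    have h1 := dist_triangle x0 (act g z) (act g x0)
    rw [(act g).dist_eq, dist_comm x0 (act g z)] at h1
    linarith
  obtain ⟨g, hg, hmin⟩ := Set.exists_min_image _ (fun g => dist (act g z) x0) hfin
    ⟨1, by simp⟩
  refine ⟨g, fun s => ?_⟩
  by_contra hcon
  push Not at hcon
  have h1 : pt (act (gn s * g) z) = pt (act g z) - (2 * fm (pt (act g z)) (wall s)) • wall s := by
    rw [map_mul, IsometryEquiv.mul_apply, pt_act]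
    exact sys.act s _
  have h2 : fm (pt (act (gn s * g) z)) (pt x0) = fm (pt (act g z)) (pt x0) -
      2 * fm (pt (act g z)) (wall s) * fm (wall s) (pt x0) := by
    rw [h1]
    have := sys.B_sub (pt (act g z)) ((2 * fm (pt (act g z)) (wall s)) • wall s) (pt x0)
    have h3 := sys.B_smul (2 * fm (pt (act g z)) (wall s)) (wall s) (pt x0)
    change fm _ _ = fm _ _ - fm _ _ at this
    change fm _ _ = _ * fm _ _ at h3
    rw [this, h3]
  have h4 : fm (wall s) (pt x0) < 0 := by
    have := x0_mem s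
    have h5 := sys.symm (pt x0) (wall s)
    change fm _ _ = fm _ _ at h5
    rwa [← h5]
  have h6 : dist (act (gn s * g) z) x0 < dist (act g z) x0 := by
    apply dist_lt_of_fm
    rw [h2]
    have := mul_neg_of_pos_of_neg hcon h4
    nlinarith
  have h7 := hmin (gn s * g) (le_trans h6.le hg)
  exact absurd h7 (not_le.2 h6)

theorem pt_I : pt I = ![1, 0, 0] := by
  rw [pt_eq]
  have h1 : I.re = 0 := rfl
  have h2 : I.im = 1 := rfl
  have h3 : nq I = 1 := by unfold nq; rw [h1, h2]; norm_num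
  rw [h1, h2, h3]
  apply vec3_eq <;> ring

theorem ch_ineq {z : ℍ} (hz : z ∈ Ch) : 3 * pt z 1 ≤ pt z 0 ∧ pt z 2 ≤ 0 ∧ -pt z 2 ≤ pt z 1 := by
  have h0 := hz 0
  have h1 := hz 1
  have h2 := hz 2
  rw [fm_wall0] at h0
  rw [fm_wall1] at h1
  rw [fm_wall2] at h2
  have p2 : 0 < (Real.sqrt 2)⁻¹ := by positivity
  have p3 : 0 < (Real.sqrt 3)⁻¹ := by positivity
  have p6 : 0 < (Real.sqrt 6)⁻¹ := by positivity
  refine ⟨?_, ?_, ?_⟩
  · by_contra hcon
    push Not at hcon
    have : 0 < (Real.sqrt 2)⁻¹ * (-pt z 0 + 3 * pt z 1) := mul_pos p2 (by linarith)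
    linarith
  · by_contra hcon
    push Not at hcon
    have : 0 < (Real.sqrt 3)⁻¹ * (3 * pt z 2) := mul_pos p3 (by linarith)
    linarith
  · by_contra hcon
    push Not at hcon
    have : 0 < (Real.sqrt 6)⁻¹ * (-(3 * pt z 1) - 3 * pt z 2) := mul_pos p6 (by linarith)
    linarith

theorem ch_bound {z : ℍ} (hz : z ∈ Ch) : (pt z 0) ^ 2 ≤ 3 := by
  obtain ⟨h0, h1, h2⟩ := ch_ineq hz
  have h3 := fm_pt_self z
  unfold fm at h3
  nlinarith [mul_nonneg (by linarith : 0 ≤ pt z 1) (by linarith : 0 ≤ pt z 1 + pt z 2),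
    mul_nonneg (by linarith : 0 ≤ -pt z 2) (by linarith : 0 ≤ pt z 1 + pt z 2),
    mul_nonneg (by linarith : 0 ≤ pt z 0 - 3 * pt z 1) (by linarith : 0 ≤ pt z 1),
    mul_nonneg (by linarith : 0 ≤ pt z 0 - 3 * pt z 1) (by linarith : 0 ≤ pt z 0 + 3 * pt z 1)]

theorem ch_dist {z : ℍ} (hz : z ∈ Ch) : dist z I ≤ 2 := by
  have h1 := cosh_dist_eq z I
  rw [pt_I] at h1
  have h2 : -fm (pt z) ![1, 0, 0] = pt z 0 := by simp [fm]
  rw [h2] at h1
  have h3 := ch_bound hz
  by_contra hcon
  push Not at hcon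
  have h4 : Real.cosh 2 < Real.cosh (dist z I) :=
    Real.cosh_lt_cosh.2 (by rwa [abs_of_nonneg (by norm_num : (0 : ℝ) ≤ 2),
      abs_of_nonneg dist_nonneg])
  have h5 : 2 ≤ Real.cosh 2 := by
    have h6 : (2 : ℝ) ≤ Real.exp 1 := by
      have := Real.add_one_le_exp (1 : ℝ)
      linarith
    have h7 : Real.exp 2 = Real.exp 1 * Real.exp 1 := by rw [← Real.exp_add]; norm_num
    have h8 : 0 < Real.exp (-2) := Real.exp_pos _
    rw [Real.cosh_eq, h7]
    nlinarith
  nlinarith

theorem isCompact_Ch : IsCompact Ch :=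
  (isCompact_closedBall I 2).of_isClosed_subset isClosed_Ch fun _ hz => ch_dist hz

/-- the walls through a point of the chamber are not all three walls -/
theorem exists_wall {z : ℍ} : ∃ s, fm (pt z) (wall s) ≠ 0 := by
  by_contra hcon
  push Not at hcon
  have h0 := hcon 0
  have h1 := hcon 1
  have h2 := hcon 2
  rw [fm_wall0] at h0
  rw [fm_wall1] at h1
  rw [fm_wall2] at h2
  have p2 : (Real.sqrt 2)⁻¹ ≠ 0 := by positivity
  have p3 : (Real.sqrt 3)⁻¹ ≠ 0 := by positivity
  have p6 : (Real.sqrt 6)⁻¹ ≠ 0 := by positivity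
  have e0 := (mul_eq_zero.1 h0).resolve_left p2
  have e1 := (mul_eq_zero.1 h1).resolve_left p3
  have e2 := (mul_eq_zero.1 h2).resolve_left p6
  have h3 := fm_pt_self z
  unfold fm at h3
  have f1 : pt z 1 = 0 := by linarith
  have f2 : pt z 2 = 0 := by linarith
  have f0 : pt z 0 = 0 := by linarith
  rw [f0, f1, f2] at h3
  norm_num at h3

/-- an element fixing a point of the chamber lies in a rank two parabolic subgroup -/
theorem stab {z : ℍ} (hz : z ∈ Ch) {g : W} (hg : act g z = z) :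
    ∃ s t : Fin 3, s ≠ t ∧ g ∈ Subgroup.closure {gn s, gn t} := by
  have h1 : rm g *ᵥ pt z = pt z := by rw [← pt_act, hg]
  have hx : ∀ t, sys.B (pt z) (sys.e t) ≤ 0 := hz
  obtain ⟨_, h2⟩ := sys.closed (y := pt x0) x0_mem hx _ (g := g) rfl (by
    intro t
    have : sys.ρ g (pt z) = pt z := h1
    rw [this]
    exact hz t)
  obtain ⟨u, hu⟩ := exists_wall (z := z)
  have key : ∀ s t : Fin 3, (∀ v, v ≠ u → v = s ∨ v = t) →
      g ∈ Subgroup.closure {gn s, gn t} := by
    intro s t hst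
    refine Subgroup.closure_mono ?_ h2
    rintro _ ⟨v, hv, rfl⟩
    have hv' : v ≠ u := by
      rintro rfl
      exact hu hv
    rcases hst v hv' with rfl | rfl
    · exact Set.mem_insert _ _
    · exact Set.mem_insert_of_mem _ rfl
  fin_cases u
  · exact ⟨1, 2, by decide, key 1 2 (by decide)⟩
  · exact ⟨0, 2, by decide, key 0 2 (by decide)⟩
  · exact ⟨0, 1, by decide, key 0 1 (by decide)⟩

theorem proper {K : Set ℍ} (hK : IsCompact K) : {g : W | (act g '' K ∩ K).Nonempty}.Finite := by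
  obtain ⟨R, hR⟩ := hK.isBounded.subset_closedBall x0
  apply (finite_ball (2 * R)).subset
  rintro g ⟨_, ⟨z, hz, rfl⟩, hw⟩
  have h1 := Metric.mem_closedBall.1 (hR hz)
  have h2 := Metric.mem_closedBall.1 (hR hw)
  have h3 := dist_triangle x0 (act g z) (act g x0)
  rw [(act g).dist_eq] at h3
  rw [dist_comm] at h2
  simp only [Set.mem_ofPred_eq]
  linarith

end Pool.Agent.P8H79.Iso
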