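import Pool.Agent.P8H79.Iso.Geo

/-! Displacement functions of Moebius transformations. -/

set_option autoImplicit false

open Matrix UpperHalfPlane

namespace Pool.Agent.P8H79.Iso

/-- the signed displacement parameter -/
noncomputable def sd (a b c d : ℝ) (z : ℍ) : ℝ :=
  ((a - d) * (z.re / z.im) + b * (1 / z.im) - c * (nq z / z.im)) / 2

theorem cosh_disp {a b c d : ℝ} (hdet : a * d - b * c = 1) {z w : ℍ}
    (hw : (w : ℂ) = ((a : ℂ) * z + b) / (c * z + d)) :
    Real.cosh (dist z w) = (a + d) ^ 2 / 2 - 1 + 2 * (sd a b c d z) ^ 2 := by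
  have hne : a * d - b * c ≠ 0 := by rw [hdet]; norm_num
  set m := mk2 a b c d hne with hm
  have h00 : m 0 0 = a := rfl
  have h01 : m 0 1 = b := rfl
  have h10 : m 1 0 = c := rfl
  have h11 : m 1 1 = d := rfl
  have hd : m.det.val = 1 := by
    rw [GeneralLinearGroup.val_det_apply, det_fin_two, h00, h01, h10, h11, hdet]
  have h1 : w = m • z := by
    apply UpperHalfPlane.ext
    rw [coe_smul_of_det_pos (by rw [hd]; norm_num), hw]
    rfl
  obtain ⟨e1, e2, e3⟩ := gl_pt (g := m) (by rw [hd]; norm_num) z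
  rw [← h1, h00, h01, h10, h11] at *
  rw [cosh_dist_eq, pt_eq z, pt_eq w, e1, e2, e3]
  unfold sd
  have hXZ : (nq z / z.im) * (1 / z.im) - (z.re / z.im) ^ 2 = 1 := by
    have hy : z.im ≠ 0 := z.im_ne_zero
    unfold nq
    field_simp
    ring
  set X := nq z / z.im
  set Y := z.re / z.im
  set Z := 1 / z.im
  have hr := sq3
  set r := (Real.sqrt 3)⁻¹
  unfold fm
  simp only [cons_val_zero, cons_val_one, cons_val]
  linear_combination ((a ^ 2 + d ^ 2) / 2 + b * c) * hXZ - hdet +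
    (-3 * Y * (a * c * X + (a * d + b * c) * Y + b * d * Z) -
      3 / 4 * (Z - X) * ((c ^ 2 * X + 2 * c * d * Y + d ^ 2 * Z) -
        (a ^ 2 * X + 2 * a * b * Y + b ^ 2 * Z))) * hr

theorem mk_re (x y : ℝ) (hy : 0 < y) : (⟨⟨x, y⟩, hy⟩ : ℍ).re = x := rfl
theorem mk_im (x y : ℝ) (hy : 0 < y) : (⟨⟨x, y⟩, hy⟩ : ℍ).im = y := rfl
theorem mk_nq (x y : ℝ) (hy : 0 < y) : nq (⟨⟨x, y⟩, hy⟩ : ℍ) = x ^ 2 + y ^ 2 := rfl

theorem sd_mk (a b c d x y : ℝ) (hy : 0 < y) : sd a b c d ⟨⟨x, y⟩, hy⟩ =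
    ((a - d) * x + b - c * (x ^ 2 + y ^ 2)) / (2 * y) := by
  unfold sd
  rw [mk_re, mk_im, mk_nq]
  field_simp

/-- hyperbolic elements have an axis -/
theorem exists_axis {a b c d : ℝ} (hdet : a * d - b * c = 1) (ht : 4 < (a + d) ^ 2) :
    ∃ z : ℍ, sd a b c d z = 0 := by
  by_cases hc : c = 0
  · subst hc
    have had : a - d ≠ 0 := by
      intro h
      have : a = d := by linarith
      subst this
      nlinarith
    refine ⟨⟨⟨-b / (a - d), 1⟩, one_pos⟩, ?_⟩
    rw [sd_mk]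
    field_simp
    ring
  · have hk : 0 < ((a + d) ^ 2 - 4) / (4 * c ^ 2) := by
      apply div_pos (by linarith) (by positivity)
    refine ⟨⟨⟨(a - d) / (2 * c), Real.sqrt (((a + d) ^ 2 - 4) / (4 * c ^ 2))⟩,
      Real.sqrt_pos.2 hk⟩, ?_⟩
    rw [sd_mk, Real.sq_sqrt hk.le]
    have : (a - d) * ((a - d) / (2 * c)) + b -
        c * (((a - d) / (2 * c)) ^ 2 + ((a + d) ^ 2 - 4) / (4 * c ^ 2)) = 0 := by
      field_simp
      linear_combination (-16) * hdet
    rw [this, zero_div]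

/-- non hyperbolic elements have arbitrarily small displacement -/
theorem small_disp {a b c d : ℝ} (hdet : a * d - b * c = 1) (ht : (a + d) ^ 2 ≤ 4) {ε : ℝ}
    (hε : 0 < ε) : ∃ z : ℍ, (a + d) ^ 2 / 2 - 1 + 2 * (sd a b c d z) ^ 2 < 1 + ε := by
  by_cases hc : c = 0
  · subst hc
    have had : a = d := by nlinarith [sq_nonneg (a - d)]
    subst had
    have ha : a ^ 2 = 1 := by linarith
    refine ⟨⟨⟨0, (|b| + 1) / ε + |b| + 1⟩, by positivity⟩, ?_⟩
    rw [sd_mk]
    set y := (|b| + 1) / ε + |b| + 1 with hy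
    have hy0 : 0 < y := by positivity
    have h1 : |b| < y := by
      have : 0 < (|b| + 1) / ε := by positivity
      rw [hy]; linarith
    have h2 : |b| < ε * y := by
      have h3 : ε * y = |b| + 1 + ε * (|b| + 1) := by rw [hy]; field_simp; ring
      have h4 : 0 ≤ |b| := abs_nonneg b
      have h5 : 0 < ε * (|b| + 1) := by positivity
      linarith
    have h3 : b ^ 2 < ε * y * y := by
      rw [← sq_abs]
      have h4 : 0 ≤ |b| := abs_nonneg b
      nlinarith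
    have h6 : ((a - a) * 0 + b - 0 * (0 ^ 2 + y ^ 2)) / (2 * y) = b / (2 * y) := by ring
    rw [h6, div_pow]
    have h7 : b ^ 2 / (2 * y) ^ 2 < ε / 4 := by
      rw [div_lt_iff₀ (by positivity)]
      nlinarith
    nlinarith
  · set κ := 4 - (a + d) ^ 2 with hκ
    have hκ0 : 0 ≤ κ := by rw [hκ]; linarith
    have hx : ∀ y : ℝ, ∀ hy : 0 < y, sd a b c d ⟨⟨(a - d) / (2 * c), y⟩, hy⟩ =
        -(κ / (4 * c) + c * y ^ 2) / (2 * y) := by
      intro y hy
      rw [sd_mk]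
      congr 1
      rw [hκ]
      field_simp
      linear_combination (-16) * hdet
    rcases hκ0.lt_or_eq with hpos | hzero
    · refine ⟨⟨⟨(a - d) / (2 * c), Real.sqrt (κ / (4 * c ^ 2))⟩,
        Real.sqrt_pos.2 (by positivity)⟩, ?_⟩
      rw [hx]
      set y := Real.sqrt (κ / (4 * c ^ 2)) with hy
      have hy2 : y ^ 2 = κ / (4 * c ^ 2) := Real.sq_sqrt (by positivity)
      have hy0 : 0 < y := Real.sqrt_pos.2 (by positivity)
      have h1 : -(κ / (4 * c) + c * y ^ 2) / (2 * y) = -(c * y) := by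
        have h2 : κ / (4 * c) = c * y ^ 2 := by rw [hy2]; field_simp
        rw [h2]
        field_simp
        ring
      rw [h1]
      have h3 : (-(c * y)) ^ 2 = κ / 4 := by
        rw [neg_sq, mul_pow, hy2]
        field_simp
      rw [h3, hκ]
      linarith
    · refine ⟨⟨⟨(a - d) / (2 * c), Real.sqrt ε / |c|⟩, by positivity⟩, ?_⟩
      rw [hx, ← hzero]
      set y := Real.sqrt ε / |c| with hy
      have hy0 : 0 < y := by positivity
      have hy2 : y ^ 2 = ε / c ^ 2 := by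
        rw [hy, div_pow, Real.sq_sqrt hε.le, sq_abs]
      have h1 : -(0 / (4 * c) + c * y ^ 2) / (2 * y) = -(c * y) / 2 := by
        field_simp
        ring
      rw [h1]
      have h3 : (-(c * y) / 2) ^ 2 = ε / 4 := by
        rw [div_pow, neg_sq, mul_pow, hy2]
        field_simp
        norm_num
      rw [h3]
      have h4 : (a + d) ^ 2 = 4 := by linarith
      rw [h4]
      linarith

/-- the squared trace is an isometry invariant -/
theorem trace_sq_eq {φ : ℍ ≃ᵢ ℍ} {g g' : ℍ → ℍ} (hconj : ∀ z, g' (φ z) = φ (g z))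
    {a b c d a' b' c' d' : ℝ} (h : a * d - b * c = 1) (h' : a' * d' - b' * c' = 1)
    (hg : ∀ z : ℍ, ((g z : ℍ) : ℂ) = ((a : ℂ) * z + b) / (c * z + d))
    (hg' : ∀ z : ℍ, ((g' z : ℍ) : ℂ) = ((a' : ℂ) * z + b') / (c' * z + d'))
    (ht : 4 < (a + d) ^ 2) : (a + d) ^ 2 = (a' + d') ^ 2 := by
  have e1 : ∀ z, Real.cosh (dist z (g z)) = (a + d) ^ 2 / 2 - 1 + 2 * (sd a b c d z) ^ 2 :=
    fun z => cosh_disp h (hg z)
  have e2 : ∀ z, Real.cosh (dist z (g' z)) = (a' + d') ^ 2 / 2 - 1 + 2 * (sd a' b' c' d' z) ^ 2 :=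
    fun z => cosh_disp h' (hg' z)
  have e3 : ∀ z, Real.cosh (dist (φ z) (g' (φ z))) = Real.cosh (dist z (g z)) := by
    intro z
    rw [hconj, φ.dist_eq]
  have low : ∀ w, (a + d) ^ 2 / 2 - 1 ≤ (a' + d') ^ 2 / 2 - 1 + 2 * (sd a' b' c' d' w) ^ 2 := by
    intro w
    have h1 := e3 (φ.symm w)
    rw [IsometryEquiv.apply_symm_apply, e1, e2] at h1
    rw [h1]
    nlinarith [sq_nonneg (sd a b c d (φ.symm w))]
  obtain ⟨z0, hz0⟩ := exists_axis h ht
  have up : (a' + d') ^ 2 / 2 - 1 ≤ (a + d) ^ 2 / 2 - 1 := by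
    have h1 := e3 z0
    rw [e1, e2, hz0] at h1
    nlinarith [sq_nonneg (sd a' b' c' d' (φ z0))]
  rcases lt_or_ge 4 ((a' + d') ^ 2) with h4 | h4
  · obtain ⟨z1, hz1⟩ := exists_axis h' h4
    have h1 := low z1
    rw [hz1] at h1
    linarith
  · exfalso
    obtain ⟨z1, hz1⟩ := small_disp h' h4 (ε := ((a + d) ^ 2 - 4) / 2) (by linarith)
    have h1 := low z1
    linarith

end Pool.Agent.P8H79.Iso
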