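import Pool.Agent.P8H79.Iso.Disc
import Pool.Agent.P8H79.Iso.Disp

/-! The matrices of the orientation preserving elements. -/

set_option autoImplicit false

open Matrix UpperHalfPlane

namespace Pool.Agent.P8H79.Iso

theorem cosh_dist_act (g : W) (z : ℍ) :
    Real.cosh (dist z (act g z)) = -fm (pt z) (rm g *ᵥ pt z) := by
  rw [cosh_dist_eq, pt_act]

/-- data of an orientation preserving element -/
theorem even_data {g : W} (hs : sgn g = 1) : ∃ p q r s : ℝ, p * s - q * r = 1 ∧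
    (∀ z : ℍ, ((act g z : ℍ) : ℂ) = ((p : ℂ) * z + q) / (r * z + s)) ∧
    rm g = !![(p ^ 2 + q ^ 2 + r ^ 2 + s ^ 2) / 2, -3 * (Real.sqrt 3)⁻¹ * (p * q + r * s),
        3 / 2 * (Real.sqrt 3)⁻¹ * (q ^ 2 + s ^ 2 - p ^ 2 - r ^ 2);
      -(Real.sqrt 3)⁻¹ * (p * r + q * s), p * s + q * r, p * r - q * s;
      1 / 2 * (Real.sqrt 3)⁻¹ * (r ^ 2 + s ^ 2 - p ^ 2 - q ^ 2), p * q - r * s,
        (p ^ 2 + s ^ 2 - q ^ 2 - r ^ 2) / 2] := by
  obtain ⟨m, h1, h2⟩ := exists_gl g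
  rw [hs] at h1
  have h3 : m.det.val = 1 := by simpa using h1
  have hdet : m.det.val = m 0 0 * m 1 1 - m 0 1 * m 1 0 := by
    rw [GeneralLinearGroup.val_det_apply, det_fin_two]
  refine ⟨m 0 0, m 0 1, m 1 0, m 1 1, by rw [← hdet]; exact h3, fun z => ?_, ?_⟩
  · rw [h2, coe_smul_of_det_pos (by rw [h3]; norm_num)]
    rfl
  · set p := m 0 0
    set q := m 0 1
    set r := m 1 0
    set s := m 1 1
    set ρ := (Real.sqrt 3)⁻¹ with hρ
    have hr : ρ * ρ = 1 / 3 := sq3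
    have key : ∀ z : ℍ, rm g *ᵥ pt z = ![(p ^ 2 * (nq z / z.im) + 2 * p * q * (z.re / z.im) +
        q ^ 2 * (1 / z.im) + (r ^ 2 * (nq z / z.im) + 2 * r * s * (z.re / z.im) +
        s ^ 2 * (1 / z.im))) / 2,
        -(p * r * (nq z / z.im) + (p * s + q * r) * (z.re / z.im) + q * s * (1 / z.im)) * ρ,
        (r ^ 2 * (nq z / z.im) + 2 * r * s * (z.re / z.im) + s ^ 2 * (1 / z.im) -
          (p ^ 2 * (nq z / z.im) + 2 * p * q * (z.re / z.im) + q ^ 2 * (1 / z.im))) / 2 * ρ] := by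
      intro z
      obtain ⟨e1, e2, e3⟩ := gl_pt (g := m) (by rw [h3]; norm_num) z
      rw [← pt_act, h2, pt_eq, e1, e2, e3]
    have k1 := key ⟨⟨0, 1⟩, one_pos⟩
    have k2 := key ⟨⟨0, 2⟩, two_pos⟩
    have k3 := key ⟨⟨1, 1⟩, one_pos⟩
    rw [pt_eq, mk_re, mk_im, mk_nq] at k1 k2 k3
    have c1 : ∀ i, _ := fun i => congrFun k1 i
    have c2 : ∀ i, _ := fun i => congrFun k2 i
    have c3 : ∀ i, _ := fun i => congrFun k3 i
    simp only [mulVec, dotProduct, Fin.sum_univ_three, cons_val_zero, cons_val_one, cons_val]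
      at c1 c2 c3
    have a0 := c1 0
    have a1 := c1 1
    have a2 := c1 2
    have b0 := c2 0
    have b1 := c2 1
    have b2 := c2 2
    have d0 := c3 0
    have d1 := c3 1
    have d2 := c3 2
    simp only [cons_val_zero, cons_val_one, cons_val] at a0 a1 a2 b0 b1 b2 d0 d1 d2
    rw [← hρ] at *
    have i00 : rm g 0 0 = (p ^ 2 + q ^ 2 + r ^ 2 + s ^ 2) / 2 := by linear_combination a0
    have i10 : rm g 1 0 = -ρ * (p * r + q * s) := by linear_combination a1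
    have i20 : rm g 2 0 = 1 / 2 * ρ * (r ^ 2 + s ^ 2 - p ^ 2 - q ^ 2) := by linear_combination a2
    have i02 : rm g 0 2 = 3 / 2 * ρ * (q ^ 2 + s ^ 2 - p ^ 2 - r ^ 2) := by
      linear_combination (-4 * ρ) * b0 + 5 * ρ * a0 - 3 * rm g 0 2 * hr
    have i12 : rm g 1 2 = p * r - q * s := by
      linear_combination (-4 * ρ) * b1 + 5 * ρ * a1 - 3 * (rm g 1 2 - (p * r - q * s)) * hr
    have i22 : rm g 2 2 = (p ^ 2 + s ^ 2 - q ^ 2 - r ^ 2) / 2 := by
      linear_combination (-4 * ρ) * b2 + 5 * ρ * a2 -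
        3 * (rm g 2 2 - (p ^ 2 + s ^ 2 - q ^ 2 - r ^ 2) / 2) * hr
    have i01 : rm g 0 1 = -3 * ρ * (p * q + r * s) := by
      linear_combination (-3 * ρ) * d0 + 9 / 2 * ρ * a0 - 1 / 2 * i02 -
        (3 * rm g 0 1 + 3 / 2 * rm g 0 2) * hr
    have i11 : rm g 1 1 = p * s + q * r := by
      linear_combination (-3 * ρ) * d1 + 9 / 2 * ρ * a1 - 1 / 2 * i12 -
        (3 * rm g 1 1 + 3 / 2 * rm g 1 2 +
          (-3 / 2 * (p * r) + 3 / 2 * (q * s) - 3 * (p * s + q * r))) * hr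
    have i21 : rm g 2 1 = p * q - r * s := by
      linear_combination (-3 * ρ) * d2 + 9 / 2 * ρ * a2 - 1 / 2 * i22 -
        (3 * rm g 2 1 + 3 / 2 * rm g 2 2 +
          (3 / 4 * (r ^ 2 - s ^ 2 - p ^ 2 + q ^ 2) + 3 * (r * s) - 3 * (p * q))) * hr
    ext i j
    fin_cases i <;> fin_cases j
    · exact i00
    · exact i01
    · exact i02
    · exact i10
    · exact i11
    · exact i12
    · exact i20
    · exact i21
    · exact i22

theorem even_trace {g : W} {p q r s : ℝ} (hdet : p * s - q * r = 1)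
    (h : rm g = !![(p ^ 2 + q ^ 2 + r ^ 2 + s ^ 2) / 2, -3 * (Real.sqrt 3)⁻¹ * (p * q + r * s),
        3 / 2 * (Real.sqrt 3)⁻¹ * (q ^ 2 + s ^ 2 - p ^ 2 - r ^ 2);
      -(Real.sqrt 3)⁻¹ * (p * r + q * s), p * s + q * r, p * r - q * s;
      1 / 2 * (Real.sqrt 3)⁻¹ * (r ^ 2 + s ^ 2 - p ^ 2 - q ^ 2), p * q - r * s,
        (p ^ 2 + s ^ 2 - q ^ 2 - r ^ 2) / 2]) :
    (p + s) ^ 2 = ((mat g).1.trace : ℤ) + 1 := by
  have h1 : (((mat g).1.trace : ℤ) : ℝ) = rm g 0 0 + rm g 1 1 + rm g 2 2 := by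
    simp only [rm, trace, Fin.sum_univ_three, diag_apply, map_apply]
    push_cast
    rfl
  rw [h1, h]
  simp only [of_apply, cons_val_zero, cons_val_one, cons_val]
  linear_combination hdet

/-- the squared trace of an orientation preserving element -/
theorem even_moebius {g : W} (hs : sgn g = 1) : ∃ p q r s : ℝ, p * s - q * r = 1 ∧
    (∀ z : ℍ, ((act g z : ℍ) : ℂ) = ((p : ℂ) * z + q) / (r * z + s)) ∧
    (p + s) ^ 2 = ((mat g).1.trace : ℤ) + 1 := by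
  obtain ⟨p, q, r, s, h1, h2, h3⟩ := even_data hs
  exact ⟨p, q, r, s, h1, h2, even_trace h1 h3⟩

/-- conjugation by an isometry preserves the trace -/
theorem trace_conj {φ : ℍ ≃ᵢ ℍ} {g g' : W} (hg : sgn g = 1) (hg' : sgn g' = 1)
    (h : act g' = φ * act g * φ⁻¹) (ht : 3 < (mat g).1.trace) :
    (mat g').1.trace = (mat g).1.trace := by
  obtain ⟨p, q, r, s, h1, h2, h3⟩ := even_moebius hg
  obtain ⟨p', q', r', s', h1', h2', h3'⟩ := even_moebius hg'
  have h4 : ∀ z, act g' (φ z) = φ (act g z) := by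
    intro z
    rw [h, IsometryEquiv.mul_apply, IsometryEquiv.mul_apply, IsometryEquiv.inv_apply_self]
  have h5 : (4 : ℝ) < (p + s) ^ 2 := by
    rw [h3]
    have : (3 : ℝ) < ((mat g).1.trace : ℤ) := by exact_mod_cast ht
    linarith
  have h6 := trace_sq_eq h4 h1 h1' h2 h2' h5
  rw [h3, h3'] at h6
  have h7 : (((mat g).1.trace : ℤ) : ℝ) = ((mat g').1.trace : ℤ) := by linarith
  exact_mod_cast h7.symm

end Pool.Agent.P8H79.Iso
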