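import Pool.Agent.P8H79.Iso.Grp

/-! The action of `(2,4,6)` on the upper half plane. -/

set_option autoImplicit false

open Matrix UpperHalfPlane

namespace Pool.Agent.P8H79.Iso

/-- the squared modulus -/
noncomputable def nq (z : ℍ) : ℝ := z.re ^ 2 + z.im ^ 2

/-- the hyperboloid model -/
noncomputable def pt (z : ℍ) : Fin 3 → ℝ :=
  ![(nq z + 1) / (2 * z.im), -z.re / (Real.sqrt 3 * z.im), (1 - nq z) / (2 * Real.sqrt 3 * z.im)]

theorem s3sq : Real.sqrt 3 * Real.sqrt 3 = 3 := Real.mul_self_sqrt (by norm_num)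
theorem s2sq : Real.sqrt 2 * Real.sqrt 2 = 2 := Real.mul_self_sqrt (by norm_num)
theorem s3pos : 0 < Real.sqrt 3 := by positivity
theorem s2pos : 0 < Real.sqrt 2 := by positivity

theorem cosh_dist_eq (z w : ℍ) : Real.cosh (dist z w) = -fm (pt z) (pt w) := by
  rw [cosh_dist']
  have h1 : z.im ≠ 0 := z.im_ne_zero
  have h2 : w.im ≠ 0 := w.im_ne_zero
  have h3 : Real.sqrt 3 ≠ 0 := s3pos.ne'
  have e1 : (-z.re / (Real.sqrt 3 * z.im)) * (-w.re / (Real.sqrt 3 * w.im)) =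
      z.re * w.re / (3 * (z.im * w.im)) := by
    rw [div_mul_div_comm]
    congr 1
    · ring
    · linear_combination (z.im * w.im) * s3sq
  have e2 : ((1 - nq z) / (2 * Real.sqrt 3 * z.im)) * ((1 - nq w) / (2 * Real.sqrt 3 * w.im)) =
      (1 - nq z) * (1 - nq w) / (12 * (z.im * w.im)) := by
    rw [div_mul_div_comm]
    congr 1
    linear_combination 4 * (z.im * w.im) * s3sq
  unfold fm
  simp only [pt, cons_val_zero, cons_val_one, cons_val]
  rw [e1, e2]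
  unfold nq
  field_simp
  ring

theorem fm_pt_self (z : ℍ) : fm (pt z) (pt z) = -1 := by
  have := cosh_dist_eq z z
  rw [dist_self, Real.cosh_zero] at this
  linarith

theorem pt_injective : Function.Injective pt := by
  intro z w h
  have h0 := cosh_dist_eq z w
  rw [h, fm_pt_self] at h0
  have h1 : dist z w = 0 := by
    have h2 : Real.cosh (dist z w) = 1 := by linarith
    by_contra hne
    have := Real.one_lt_cosh.2 hne
    linarith
  exact dist_eq_zero.1 h1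

/-- matrices with determinant `±1` -/
noncomputable def mk2 (a b c d : ℝ) (h : a * d - b * c ≠ 0) : GL (Fin 2) ℝ :=
  GeneralLinearGroup.mkOfDetNeZero !![a, b; c, d] (by rw [det_fin_two_of]; exact h)

theorem mk2_val (a b c d : ℝ) (h : a * d - b * c ≠ 0) : (mk2 a b c d h).1 = !![a, b; c, d] := rfl

theorem normSq_denom (g : GL (Fin 2) ℝ) (z : ℍ) : Complex.normSq (denom g z) =
    (g 1 0) ^ 2 * nq z + 2 * (g 1 0) * (g 1 1) * z.re + (g 1 1) ^ 2 := by
  simp [denom, Complex.normSq_apply, nq]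
  ring

theorem gl_im {g : GL (Fin 2) ℝ} (hg : |g.det.val| = 1) (z : ℍ) :
    (g • z).im = z.im / ((g 1 0) ^ 2 * nq z + 2 * (g 1 0) * (g 1 1) * z.re + (g 1 1) ^ 2) := by
  rw [im_smul_eq_div_normSq, hg, one_mul, normSq_denom]

theorem gl_re (g : GL (Fin 2) ℝ) (z : ℍ) :
    (g • z).re = (g 0 0 * g 1 0 * nq z + (g 0 0 * g 1 1 + g 0 1 * g 1 0) * z.re + g 0 1 * g 1 1) /
      ((g 1 0) ^ 2 * nq z + 2 * (g 1 0) * (g 1 1) * z.re + (g 1 1) ^ 2) := by
  rw [re_smul, Complex.div_re, normSq_denom, ← add_div]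
  congr 1
  simp [num, denom, nq]
  ring

theorem den_pos (g : GL (Fin 2) ℝ) (z : ℍ) :
    0 < (g 1 0) ^ 2 * nq z + 2 * (g 1 0) * (g 1 1) * z.re + (g 1 1) ^ 2 := by
  rw [← normSq_denom]
  exact normSq_denom_pos g z.im_ne_zero

theorem gl_nq {g : GL (Fin 2) ℝ} (hg : |g.det.val| = 1) (z : ℍ) :
    nq (g • z) = ((g 0 0) ^ 2 * nq z + 2 * (g 0 0) * (g 0 1) * z.re + (g 0 1) ^ 2) /
      ((g 1 0) ^ 2 * nq z + 2 * (g 1 0) * (g 1 1) * z.re + (g 1 1) ^ 2) := by
  have hD := den_pos g z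
  have hdet : (g 0 0 * g 1 1 - g 0 1 * g 1 0) ^ 2 = 1 := by
    have : g.det.val = g 0 0 * g 1 1 - g 0 1 * g 1 0 := by
      rw [GeneralLinearGroup.val_det_apply, det_fin_two]
    rw [← this, ← sq_abs, hg, one_pow]
  rw [show nq (g • z) = (g • z).re ^ 2 + (g • z).im ^ 2 from rfl, gl_re, gl_im hg]
  set D := (g 1 0) ^ 2 * nq z + 2 * (g 1 0) * (g 1 1) * z.re + (g 1 1) ^ 2 with hDdef
  rw [div_pow, div_pow, ← add_div, div_eq_div_iff (by positivity) hD.ne']
  have hn : nq z = z.re ^ 2 + z.im ^ 2 := rfl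
  have key : (g 0 0 * g 1 0 * nq z + (g 0 0 * g 1 1 + g 0 1 * g 1 0) * z.re + g 0 1 * g 1 1) ^ 2 +
      z.im ^ 2 = ((g 0 0) ^ 2 * nq z + 2 * (g 0 0) * (g 0 1) * z.re + (g 0 1) ^ 2) * D := by
    rw [hDdef, hn]
    linear_combination (-(z.im ^ 2)) * hdet
  rw [key]
  ring

/-- the action on the three coordinates `|z|²/y`, `x/y`, `1/y` -/
theorem gl_pt {g : GL (Fin 2) ℝ} (hg : |g.det.val| = 1) (z : ℍ) :
    (nq (g • z) / (g • z).im = (g 0 0) ^ 2 * (nq z / z.im) + 2 * (g 0 0) * (g 0 1) *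
      (z.re / z.im) + (g 0 1) ^ 2 * (1 / z.im)) ∧
    ((g • z).re / (g • z).im = g 0 0 * g 1 0 * (nq z / z.im) +
      (g 0 0 * g 1 1 + g 0 1 * g 1 0) * (z.re / z.im) + g 0 1 * g 1 1 * (1 / z.im)) ∧
    (1 / (g • z).im = (g 1 0) ^ 2 * (nq z / z.im) + 2 * (g 1 0) * (g 1 1) * (z.re / z.im) +
      (g 1 1) ^ 2 * (1 / z.im)) := by
  have hD := (den_pos g z).ne'
  have hy : z.im ≠ 0 := z.im_ne_zero
  rw [gl_im hg, gl_re, gl_nq hg]
  refine ⟨?_, ?_, ?_⟩
  · rw [div_div_div_cancel_right₀ hD]; field_simp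
  · rw [div_div_div_cancel_right₀ hD]; field_simp
  · rw [one_div_div]; field_simp

theorem pt_eq (z : ℍ) : pt z = ![(nq z / z.im + 1 / z.im) / 2, -(z.re / z.im) * (Real.sqrt 3)⁻¹,
    (1 / z.im - nq z / z.im) / 2 * (Real.sqrt 3)⁻¹] := by
  have hy : z.im ≠ 0 := z.im_ne_zero
  have h3 : Real.sqrt 3 ≠ 0 := s3pos.ne'
  unfold pt
  congr 1
  · field_simp
  · congr 1
    · field_simp
    · congr 1
      field_simp

theorem det_aux : -(Real.sqrt 3 * (Real.sqrt 2)⁻¹) * (Real.sqrt 3 * (Real.sqrt 2)⁻¹) -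
    -(Real.sqrt 2)⁻¹ * (Real.sqrt 2)⁻¹ = -1 := by
  linear_combination (1 - Real.sqrt 3 * Real.sqrt 3) * sq2 - (1 / 2) * s3sq

theorem det_aux2 : -(Real.sqrt 2)⁻¹ * (Real.sqrt 2)⁻¹ - (Real.sqrt 2)⁻¹ * (Real.sqrt 2)⁻¹ = -1 := by
  linear_combination -2 * sq2

/-- the three reflections as matrices -/
noncomputable def gm : Fin 3 → GL (Fin 2) ℝ
  | 0 => mk2 (-(Real.sqrt 3 * (Real.sqrt 2)⁻¹)) (-(Real.sqrt 2)⁻¹) (Real.sqrt 2)⁻¹
      (Real.sqrt 3 * (Real.sqrt 2)⁻¹) (by rw [det_aux]; norm_num)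
  | 1 => mk2 0 1 1 0 (by norm_num)
  | 2 => mk2 (-(Real.sqrt 2)⁻¹) (Real.sqrt 2)⁻¹ (Real.sqrt 2)⁻¹ (Real.sqrt 2)⁻¹
      (by rw [det_aux2]; norm_num)

theorem gm_det (i : Fin 3) : (gm i).det.val = -1 := by
  rw [GeneralLinearGroup.val_det_apply]
  fin_cases i
  · show (!![_, _; _, _] : Matrix (Fin 2) (Fin 2) ℝ).det = -1
    rw [det_fin_two_of]
    exact det_aux
  · show (!![_, _; _, _] : Matrix (Fin 2) (Fin 2) ℝ).det = -1
    rw [det_fin_two_of]
    norm_num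
  · show (!![_, _; _, _] : Matrix (Fin 2) (Fin 2) ℝ).det = -1
    rw [det_fin_two_of]
    exact det_aux2

theorem vec3_eq {a b c a' b' c' : ℝ} (h0 : a = a') (h1 : b = b') (h2 : c = c') :
    ![a, b, c] = ![a', b', c'] := by rw [h0, h1, h2]

theorem pt_gm (i : Fin 3) (z : ℍ) : pt (gm i • z) = rm (gn i) *ᵥ pt z := by
  have hdet : |(gm i).det.val| = 1 := by rw [gm_det]; norm_num
  obtain ⟨h1, h2, h3⟩ := gl_pt hdet z
  rw [pt_eq, h1, h2, h3, pt_eq]
  set X := nq z / z.im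
  set Y := z.re / z.im
  set Z := 1 / z.im
  have ss := sq2
  have tt := s3sq
  have rt : (Real.sqrt 3)⁻¹ * Real.sqrt 3 = 1 := inv_mul_cancel₀ s3pos.ne'
  have r3 : Real.sqrt 3 = 3 * (Real.sqrt 3)⁻¹ := by
    linear_combination (-Real.sqrt 3) * rt + (Real.sqrt 3)⁻¹ * tt
  fin_cases i
  · have g00 : (gm 0) 0 0 = -(Real.sqrt 3 * (Real.sqrt 2)⁻¹) := rfl
    have g01 : (gm 0) 0 1 = -(Real.sqrt 2)⁻¹ := rfl
    have g10 : (gm 0) 1 0 = (Real.sqrt 2)⁻¹ := rfl
    have g11 : (gm 0) 1 1 = Real.sqrt 3 * (Real.sqrt 2)⁻¹ := rfl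
    simp only [Fin.zero_eta]
    rw [g00, g01, g10, g11, rm_gn0]
    simp only [cons_val_zero, cons_val_one, cons_val]
    set s := (Real.sqrt 2)⁻¹
    set t := Real.sqrt 3
    set r := (Real.sqrt 3)⁻¹
    have e1 : (-(t * s)) ^ 2 * X + 2 * -(t * s) * -s * Y + (-s) ^ 2 * Z =
        3 / 2 * X + t * Y + 1 / 2 * Z := by
      linear_combination (t * t * X + 2 * t * Y + Z) * ss + (1 / 2 * X) * tt
    have e2 : -(t * s) * s * X + (-(t * s) * (t * s) + -s * s) * Y + -s * (t * s) * Z =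
        -(t / 2) * X - 2 * Y - t / 2 * Z := by
      linear_combination (-t * X - (t * t + 1) * Y - t * Z) * ss - (1 / 2 * Y) * tt
    have e3 : s ^ 2 * X + 2 * s * (t * s) * Y + (t * s) ^ 2 * Z =
        1 / 2 * X + t * Y + 3 / 2 * Z := by
      linear_combination (X + 2 * t * Y + t * t * Z) * ss + (1 / 2 * Z) * tt
    rw [e1, e2, e3]
    apply vec3_eq
    · linear_combination Y * r3
    · linear_combination (1 / 2 * X + 1 / 2 * Z) * rt
    · ring
  · have g00 : (gm 1) 0 0 = 0 := rfl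
    have g01 : (gm 1) 0 1 = 1 := rfl
    have g10 : (gm 1) 1 0 = 1 := rfl
    have g11 : (gm 1) 1 1 = 0 := rfl
    simp only [Fin.mk_one]
    rw [g00, g01, g10, g11, rm_gn1]
    simp only [cons_val_zero, cons_val_one, cons_val]
    apply vec3_eq
    · ring
    · ring
    · ring
  · have g00 : (gm 2) 0 0 = -(Real.sqrt 2)⁻¹ := rfl
    have g01 : (gm 2) 0 1 = (Real.sqrt 2)⁻¹ := rfl
    have g10 : (gm 2) 1 0 = (Real.sqrt 2)⁻¹ := rfl
    have g11 : (gm 2) 1 1 = (Real.sqrt 2)⁻¹ := rfl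
    simp only [Fin.reduceFinMk]
    rw [g00, g01, g10, g11, rm_gn2]
    simp only [cons_val_zero, cons_val_one, cons_val]
    set s := (Real.sqrt 2)⁻¹
    set r := (Real.sqrt 3)⁻¹
    apply vec3_eq
    · linear_combination (X + Z) * ss
    · linear_combination r * (X - Z) * ss
    · linear_combination (2 * Y * r) * ss

/-- the reflections as isometries -/
noncomputable def ri (i : Fin 3) : ℍ ≃ᵢ ℍ where
  toFun z := gm i • z
  invFun z := (gm i)⁻¹ • z
  left_inv z := inv_smul_smul _ _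
  right_inv z := smul_inv_smul _ _
  isometry_toFun := by
    apply Isometry.of_dist_eq
    intro z w
    have h : Real.cosh (dist (gm i • z) (gm i • w)) = Real.cosh (dist z w) := by
      rw [cosh_dist_eq, cosh_dist_eq, pt_gm, pt_gm, fm_gn]
    have h1 := congrArg Real.arcosh h
    rwa [Real.arcosh_cosh dist_nonneg, Real.arcosh_cosh dist_nonneg] at h1

theorem ri_apply (i : Fin 3) (z : ℍ) : ri i z = gm i • z := rfl

theorem pt_ri (i : Fin 3) (z : ℍ) : pt (ri i z) = rm (gn i) *ᵥ pt z := pt_gm i z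

theorem pt_pow (i j : Fin 3) (n : ℕ) (z : ℍ) :
    pt (((ri i * ri j) ^ n) z) = rm ((gn i * gn j) ^ n) *ᵥ pt z := by
  induction n with
  | zero => simp [rm_one]
  | succ n ih =>
    rw [pow_succ', pow_succ', IsometryEquiv.mul_apply, IsometryEquiv.mul_apply, pt_ri, pt_ri, ih,
      mulVec_mulVec, mulVec_mulVec, ← rm_mul, ← rm_mul, mul_assoc]

theorem good_ri : Good ri := by
  have key : ∀ i j n, (gn i * gn j) ^ n = 1 → (ri i * ri j) ^ n = 1 := by
    intro i j n h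
    ext z
    congr 1
    apply pt_injective
    rw [pt_pow, h, rm_one, one_mulVec]
    rfl
  have h := good_gn
  refine ⟨?_, ?_, ?_, key _ _ _ h.s01, key _ _ _ h.s12, key _ _ _ h.s02⟩
  · simpa using key 0 0 1 (by simpa using h.s0)
  · simpa using key 1 1 1 (by simpa using h.s1)
  · simpa using key 2 2 1 (by simpa using h.s2)

/-- the action on the upper half plane -/
noncomputable def act : W →* (ℍ ≃ᵢ ℍ) := lift ri good_ri

@[simp] theorem act_gn (i : Fin 3) : act (gn i) = ri i := lift_gn _ _ _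

theorem pt_act (g : W) (z : ℍ) : pt (act g z) = rm g *ᵥ pt z := by
  induction g using W_induction generalizing z with
  | h1 => simp [rm_one]
  | hm i g ih =>
    rw [map_mul, IsometryEquiv.mul_apply, act_gn, pt_ri, ih, mulVec_mulVec, ← rm_mul]

/-- every element acts as a matrix of determinant `±1` -/
theorem exists_gl (g : W) : ∃ m : GL (Fin 2) ℝ, m.det.val = ((sgn g : ℤˣ) : ℤ) ∧
    ∀ z, act g z = m • z := by
  induction g using W_induction with
  | h1 => exact ⟨1, by simp, by simp⟩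
  | hm i g ih =>
    obtain ⟨m, h1, h2⟩ := ih
    refine ⟨gm i * m, ?_, fun z => ?_⟩
    · rw [map_mul, Units.val_mul, gm_det, h1, map_mul, sgn_gn]
      simp
    · rw [map_mul, IsometryEquiv.mul_apply, act_gn, ri_apply, h2, mul_smul]

end Pool.Agent.P8H79.Iso
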