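import Pool.Agent.P8H79.Iso.Tits

/-! The abstract Coxeter group `(2,4,6)`, its integral representation and its action on the upper
half plane. -/

set_option autoImplicit false

open Matrix UpperHalfPlane

namespace Pool.Agent.P8H79.Iso

/-- the relators of the Coxeter group with labels `2`, `4`, `6` -/
def rels : Set (FreeGroup (Fin 3)) :=
  {.of 0 * .of 0, .of 1 * .of 1, .of 2 * .of 2, (.of 0 * .of 1) ^ 2, (.of 1 * .of 2) ^ 4,
    (.of 0 * .of 2) ^ 6}

/-- the Coxeter group `(2,4,6)` -/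
abbrev W : Type := PresentedGroup rels

/-- the generators -/
def gn (i : Fin 3) : W := PresentedGroup.of i

/-- the conditions on the images of the generators -/
structure Good {G : Type} [Group G] (f : Fin 3 → G) : Prop where
  s0 : f 0 * f 0 = 1
  s1 : f 1 * f 1 = 1
  s2 : f 2 * f 2 = 1
  s01 : (f 0 * f 1) ^ 2 = 1
  s12 : (f 1 * f 2) ^ 4 = 1
  s02 : (f 0 * f 2) ^ 6 = 1

/-- the universal property -/
def lift {G : Type} [Group G] (f : Fin 3 → G) (h : Good f) : W →* G :=
  PresentedGroup.toGroup (rels := rels) (f := f) (by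
    intro r hr
    simp only [rels, Set.mem_insert_iff, Set.mem_singleton_iff] at hr
    rcases hr with rfl | rfl | rfl | rfl | rfl | rfl
    · simpa using h.s0
    · simpa using h.s1
    · simpa using h.s2
    · simpa using h.s01
    · simpa using h.s12
    · simpa using h.s02)

@[simp] theorem lift_gn {G : Type} [Group G] (f : Fin 3 → G) (h : Good f) (i : Fin 3) :
    lift f h (gn i) = f i := PresentedGroup.toGroup.of _

theorem good_gn : Good gn := by
  have key : ∀ r ∈ rels, (FreeGroup.lift gn r : W) = 1 := by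
    intro r hr
    have h2 : (FreeGroup.lift gn : FreeGroup (Fin 3) →* W) =
        PresentedGroup.mk rels := by
      apply FreeGroup.ext_hom
      intro a
      simp [gn, PresentedGroup.of]
    rw [h2]
    exact PresentedGroup.one_of_mem hr
  refine ⟨?_, ?_, ?_, ?_, ?_, ?_⟩
  · simpa using key _ (show (.of 0 * .of 0) ∈ rels by simp [rels])
  · simpa using key _ (show (.of 1 * .of 1) ∈ rels by simp [rels])
  · simpa using key _ (show (.of 2 * .of 2) ∈ rels by simp [rels])
  · simpa using key _ (show (.of 0 * .of 1) ^ 2 ∈ rels by simp [rels])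
  · simpa using key _ (show (.of 1 * .of 2) ^ 4 ∈ rels by simp [rels])
  · simpa using key _ (show (.of 0 * .of 2) ^ 6 ∈ rels by simp [rels])

theorem gn_sq (i : Fin 3) : gn i * gn i = 1 := by
  fin_cases i
  · exact good_gn.s0
  · exact good_gn.s1
  · exact good_gn.s2

theorem closure_gn : Subgroup.closure (Set.range gn) = ⊤ :=
  PresentedGroup.closure_range_of rels

theorem hom_ext {G : Type} [Group G] {f g : W →* G} (h : ∀ i, f (gn i) = g (gn i)) : f = g :=
  PresentedGroup.ext h

theorem swap_pow {G : Type} [Group G] {a b : G} (ha : a * a = 1) (hb : b * b = 1) {m : ℕ}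
    (h : (a * b) ^ m = 1) : (b * a) ^ m = 1 := by
  have h1 : b * a = (a * b)⁻¹ := by
    rw [_root_.mul_inv_rev, inv_eq_of_mul_eq_one_left ha, inv_eq_of_mul_eq_one_left hb]
  rw [h1, inv_pow, h, inv_one]

/-- the sign -/
def sgn : W →* ℤˣ := lift (fun _ => -1) ⟨by decide, by decide, by decide, by decide, by decide,
  by decide⟩

@[simp] theorem sgn_gn (i : Fin 3) : sgn (gn i) = -1 := lift_gn _ _ _

/-! ### the integral representation -/

/-- the matrices of the generators -/
def mt : Fin 3 → Matrix (Fin 3) (Fin 3) ℤ :=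
  ![!![2, -3, 0; 1, -2, 0; 0, 0, 1], !![1, 0, 0; 0, 1, 0; 0, 0, -1],
    !![1, 0, 0; 0, 0, -1; 0, -1, 0]]

theorem mt_sq (i : Fin 3) : mt i * mt i = 1 := by
  fin_cases i <;> decide

/-- the generators as units -/
def mu (i : Fin 3) : (Matrix (Fin 3) (Fin 3) ℤ)ˣ := ⟨mt i, mt i, mt_sq i, mt_sq i⟩

theorem good_mu : Good mu := by
  refine ⟨?_, ?_, ?_, ?_, ?_, ?_⟩ <;> apply Units.ext <;>
    simp only [Units.val_mul, Units.val_pow_eq_pow_val, Units.val_one, mu] <;> decide

/-- the integral representation -/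
def mat : W →* (Matrix (Fin 3) (Fin 3) ℤ)ˣ := lift mu good_mu

@[simp] theorem mat_gn (i : Fin 3) : mat (gn i) = mu i := lift_gn _ _ _

/-- the real matrices -/
def rm (g : W) : Matrix (Fin 3) (Fin 3) ℝ := (mat g).1.map (Int.cast : ℤ → ℝ)

theorem rm_one : rm 1 = 1 := by
  simp [rm, Matrix.map_one]

theorem rm_mul (g h : W) : rm (g * h) = rm g * rm h := by
  unfold rm
  rw [map_mul, Units.val_mul]
  exact Matrix.map_mul (f := Int.castRingHom ℝ)

/-- the form -/
def fm (x y : Fin 3 → ℝ) : ℝ := -(x 0 * y 0) + 3 * (x 1 * y 1) + 3 * (x 2 * y 2)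

theorem rm_gn0 (x : Fin 3 → ℝ) : rm (gn 0) *ᵥ x = ![2 * x 0 - 3 * x 1, x 0 - 2 * x 1, x 2] := by
  ext i
  fin_cases i <;> simp [rm, mu, mt, mulVec, dotProduct, Fin.sum_univ_three] <;> ring

theorem rm_gn1 (x : Fin 3 → ℝ) : rm (gn 1) *ᵥ x = ![x 0, x 1, -x 2] := by
  ext i
  fin_cases i <;> simp [rm, mu, mt, mulVec, dotProduct, Fin.sum_univ_three]

theorem rm_gn2 (x : Fin 3 → ℝ) : rm (gn 2) *ᵥ x = ![x 0, -x 2, -x 1] := by
  ext i
  fin_cases i <;> simp [rm, mu, mt, mulVec, dotProduct, Fin.sum_univ_three]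

theorem fm_gn (i : Fin 3) (x y : Fin 3 → ℝ) : fm (rm (gn i) *ᵥ x) (rm (gn i) *ᵥ y) = fm x y := by
  fin_cases i
  · simp only [Fin.zero_eta, rm_gn0, fm]; simp; ring
  · simp only [Fin.mk_one, rm_gn1, fm]; simp
  · simp only [Fin.reduceFinMk, rm_gn2, fm]; simp; ring

/-- induction on elements of `W` -/
theorem W_induction {p : W → Prop} (h1 : p 1) (hm : ∀ i g, p g → p (gn i * g)) (g : W) : p g := by
  have hg : g ∈ Subgroup.closure (Set.range gn) := by rw [closure_gn]; trivial
  induction hg using Subgroup.closure_induction_left with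
  | one => exact h1
  | mul_left x hx y hy ih =>
    obtain ⟨i, rfl⟩ := hx
    exact hm i y ih
  | inv_mul_cancel x hx y hy ih =>
    obtain ⟨i, rfl⟩ := hx
    rw [inv_eq_of_mul_eq_one_left (gn_sq i)]
    exact hm i y ih

theorem fm_rm (g : W) (x y : Fin 3 → ℝ) : fm (rm g *ᵥ x) (rm g *ᵥ y) = fm x y := by
  induction g using W_induction generalizing x y with
  | h1 => simp [rm_one]
  | hm i g ih =>
    rw [rm_mul, ← mulVec_mulVec, ← mulVec_mulVec, fm_gn, ih]

/-- the unit normals of the walls -/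
noncomputable def wall : Fin 3 → (Fin 3 → ℝ) :=
  ![(Real.sqrt 2)⁻¹ • ![1, 1, 0], (Real.sqrt 3)⁻¹ • ![0, 0, 1], (Real.sqrt 6)⁻¹ • ![0, -1, -1]]

theorem fm_wall0 (x : Fin 3 → ℝ) : fm x (wall 0) = (Real.sqrt 2)⁻¹ * (-x 0 + 3 * x 1) := by
  simp [fm, wall]; ring

theorem fm_wall1 (x : Fin 3 → ℝ) : fm x (wall 1) = (Real.sqrt 3)⁻¹ * (3 * x 2) := by
  simp [fm, wall]; ring

theorem fm_wall2 (x : Fin 3 → ℝ) : fm x (wall 2) = (Real.sqrt 6)⁻¹ * (-(3 * x 1) - 3 * x 2) := by
  simp [fm, wall]; ring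

theorem sq2 : (Real.sqrt 2)⁻¹ * (Real.sqrt 2)⁻¹ = 1 / 2 := by
  rw [← mul_inv, Real.mul_self_sqrt (by norm_num)]; norm_num

theorem sq3 : (Real.sqrt 3)⁻¹ * (Real.sqrt 3)⁻¹ = 1 / 3 := by
  rw [← mul_inv, Real.mul_self_sqrt (by norm_num)]; norm_num

theorem sq6 : (Real.sqrt 6)⁻¹ * (Real.sqrt 6)⁻¹ = 1 / 6 := by
  rw [← mul_inv, Real.mul_self_sqrt (by norm_num)]; norm_num

/-- the Tits system of the triangle group -/
noncomputable def sys : TSys (Fin 3) W (Fin 3 → ℝ) where
  R := gn
  gen := closure_gn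
  sq := gn_sq
  ρ g x := rm g *ᵥ x
  ρ_one x := by rw [rm_one, one_mulVec]
  ρ_mul g h x := by rw [rm_mul, mulVec_mulVec]
  ρ_add g x y := mulVec_add _ _ _
  ρ_smul g c x := mulVec_smul _ _ _
  B := fm
  symm x y := by unfold fm; ring
  B_add x y z := by simp only [fm, Pi.add_apply]; ring
  B_smul c x y := by simp only [fm, Pi.smul_apply, smul_eq_mul]; ring
  inv := fm_rm
  e := wall
  norm s := by
    fin_cases s
    · show fm (wall 0) (wall 0) = 1
      rw [fm_wall0]
      simp [wall]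
      linear_combination 2 * sq2
    · show fm (wall 1) (wall 1) = 1
      rw [fm_wall1]
      simp [wall]
      linear_combination 3 * sq3
    · show fm (wall 2) (wall 2) = 1
      rw [fm_wall2]
      simp [wall]
      linear_combination 6 * sq6
  act s x := by
    fin_cases s
    · simp only [Fin.zero_eta, fm_wall0, rm_gn0]
      ext i
      fin_cases i
      · simp [wall]; linear_combination 2 * (-x 0 + 3 * x 1) * sq2
      · simp [wall]; linear_combination 2 * (-x 0 + 3 * x 1) * sq2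
      · simp [wall]
    · simp only [Fin.mk_one, fm_wall1, rm_gn1]
      ext i
      fin_cases i
      · simp [wall]
      · simp [wall]
      · simp [wall]; linear_combination 6 * x 2 * sq3
    · simp only [Fin.reduceFinMk, fm_wall2, rm_gn2]
      ext i
      fin_cases i
      · simp [wall]
      · simp [wall]; linear_combination 6 * (x 1 + x 2) * sq6
      · simp [wall]; linear_combination 6 * (x 1 + x 2) * sq6
  sgn := sgn
  sgn_R := sgn_gn
  pair s t hst := by
    have s2 : 0 < (Real.sqrt 2)⁻¹ := by positivity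
    have s3 : 0 < (Real.sqrt 3)⁻¹ := by positivity
    have s6 : 0 < (Real.sqrt 6)⁻¹ := by positivity
    have e01 : fm (wall 0) (wall 1) = 0 := by rw [fm_wall1]; simp [wall]
    have e12 : fm (wall 1) (wall 2) = -(3 * ((Real.sqrt 3)⁻¹ * (Real.sqrt 6)⁻¹)) := by
      rw [fm_wall2]; simp [wall]; ring
    have e02 : fm (wall 0) (wall 2) = -(3 * ((Real.sqrt 2)⁻¹ * (Real.sqrt 6)⁻¹)) := by
      rw [fm_wall2]; simp [wall]; ring
    have sym : ∀ x y, fm x y = fm y x := fun x y => by unfold fm; ring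
    have q12 : 2 * (fm (wall 1) (wall 2)) ^ 2 = 1 := by
      rw [e12]
      have := sq3
      have h6 := sq6
      calc _ = 18 * (((Real.sqrt 3)⁻¹ * (Real.sqrt 3)⁻¹) * ((Real.sqrt 6)⁻¹ * (Real.sqrt 6)⁻¹)) := by
            ring
        _ = 1 := by rw [this, h6]; norm_num
    have q02 : 4 * (fm (wall 0) (wall 2)) ^ 2 = 3 := by
      rw [e02]
      have := sq2
      have h6 := sq6
      calc _ = 36 * (((Real.sqrt 2)⁻¹ * (Real.sqrt 2)⁻¹) * ((Real.sqrt 6)⁻¹ * (Real.sqrt 6)⁻¹)) := by
            ring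
        _ = 3 := by rw [this, h6]; norm_num
    have n12 : fm (wall 1) (wall 2) < 0 := by rw [e12]; have := mul_pos s3 s6; linarith
    have n02 : fm (wall 0) (wall 2) < 0 := by rw [e02]; have := mul_pos s2 s6; linarith
    have h01 := good_gn.s01
    have h12 := good_gn.s12
    have h02 := good_gn.s02
    fin_cases s <;> fin_cases t
    · exact absurd rfl hst
    · exact .inl ⟨e01, h01⟩
    · exact .inr (.inr ⟨n02, q02, h02⟩)
    · exact .inl ⟨by rw [sym]; exact e01, swap_pow good_gn.s0 good_gn.s1 h01⟩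
    · exact absurd rfl hst
    · exact .inr (.inl ⟨n12, q12, h12⟩)
    · exact .inr (.inr ⟨by rw [sym]; exact n02, by rw [sym]; exact q02,
        swap_pow good_gn.s0 good_gn.s2 h02⟩)
    · exact .inr (.inl ⟨by rw [sym]; exact n12, by rw [sym]; exact q12,
        swap_pow good_gn.s1 good_gn.s2 h12⟩)
    · exact absurd rfl hst

end Pool.Agent.P8H79.Iso
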