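import Mathlib

/-! Invariance of the hyperbolic Laplace operator. -/

set_option autoImplicit false

open UpperHalfPlane Topology

namespace Pool.Agent.P8H79.Iso

/-- the eigenfunctions on the half plane, as in the frozen statement -/
def Eig (μ : ℝ) : Set (ℍ → ℝ) := {f | ∃ F : ℂ → ℝ,
  ContDiffOn ℝ 2 F {w : ℂ | 0 < w.im} ∧
  (∀ z : ℍ, f z = F (z : ℂ)) ∧
  ∀ z : ℍ, -((z : ℂ).im ^ 2 * (iteratedFDeriv ℝ 2 F (z : ℂ) ![1, 1]
    + iteratedFDeriv ℝ 2 F (z : ℂ) ![Complex.I, Complex.I])) = μ * f z}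

theorem isOpen_U : IsOpen {w : ℂ | 0 < w.im} := isOpen_lt continuous_const Complex.continuous_im

theorem mem_U (z : ℍ) : (z : ℂ) ∈ {w : ℂ | 0 < w.im} := z.2

/-- multiplication as a real linear map -/
noncomputable abbrev ml : ℂ →L[ℝ] ℂ →L[ℝ] ℂ := ContinuousLinearMap.mul ℝ ℂ

theorem real_deriv {A : ℂ → ℂ} {a w : ℂ} (h : HasDerivAt A a w) : HasFDerivAt A (ml a) w := by
  have h1 := h.complexToReal_fderiv
  have h2 : ml a = a • (1 : ℂ →L[ℝ] ℂ) := ContinuousLinearMap.ext fun x => by simp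
  rw [h2]
  exact h1

theorem conf_sum (Q : ℂ →L[ℝ] ℂ →L[ℝ] ℝ) (u : ℂ) :
    Q (u * 1) (u * 1) + Q (u * Complex.I) (u * Complex.I) =
      Complex.normSq u * (Q 1 1 + Q Complex.I Complex.I) := by
  have h1 : u * 1 = u.re • (1 : ℂ) + u.im • Complex.I := by
    apply Complex.ext <;> simp
  have h2 : u * Complex.I = (-u.im) • (1 : ℂ) + u.re • Complex.I := by
    apply Complex.ext <;> simp
  rw [h1, h2, Complex.normSq_apply]
  simp only [map_add, map_smul, _root_.add_apply, _root_.smul_apply,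
    smul_eq_mul]
  ring

theorem lap_comp {F : ℂ → ℝ} {A A1 : ℂ → ℂ} {A2 z : ℂ} (hF : ContDiffAt ℝ 2 F (A z))
    (hA : ∀ᶠ w in 𝓝 z, HasDerivAt A (A1 w) w) (hA1 : HasDerivAt A1 A2 z) :
    iteratedFDeriv ℝ 2 (F ∘ A) z ![1, 1] + iteratedFDeriv ℝ 2 (F ∘ A) z ![Complex.I, Complex.I] =
      Complex.normSq (A1 z) * (iteratedFDeriv ℝ 2 F (A z) ![1, 1] +
        iteratedFDeriv ℝ 2 F (A z) ![Complex.I, Complex.I]) := by
  rw [iteratedFDeriv_two_apply, iteratedFDeriv_two_apply, iteratedFDeriv_two_apply,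
    iteratedFDeriv_two_apply]
  simp only [Matrix.cons_val_zero, Matrix.cons_val_one]
  -- the first derivative near `z`
  have hAz : HasDerivAt A (A1 z) z := hA.self_of_nhds
  have hcont : ContinuousAt A z := hAz.continuousAt
  have hF1 : ∀ᶠ y in 𝓝 (A z), DifferentiableAt ℝ F y := by
    have := hF.eventually (by simp)
    filter_upwards [this] with y hy
    exact hy.differentiableAt (by norm_num)
  have e1 : fderiv ℝ (F ∘ A) =ᶠ[𝓝 z] fun w => (fderiv ℝ F (A w)).comp (ml (A1 w)) := by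
    filter_upwards [hA, hcont.eventually hF1] with w hw hw2
    exact (hw2.hasFDerivAt.comp w (real_deriv hw)).fderiv
  have hF2 : DifferentiableAt ℝ (fderiv ℝ F) (A z) := by
    have h1 : ContDiffAt ℝ 1 (fderiv ℝ F) (A z) := hF.fderiv_right (by norm_num)
    exact h1.differentiableAt (by norm_num)
  have h3 : HasFDerivAt (fun w => fderiv ℝ F (A w))
      ((fderiv ℝ (fderiv ℝ F) (A z)).comp (ml (A1 z))) z :=
    hF2.hasFDerivAt.comp z (real_deriv hAz)
  have h4 : HasFDerivAt (fun w => ml (A1 w)) (ml.comp (ml A2)) z :=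
    ml.hasFDerivAt.comp z (real_deriv hA1)
  have h5 := h3.clm_comp h4
  have h6 : fderiv ℝ (fderiv ℝ (F ∘ A)) z = _ := (e1.fderiv_eq).trans h5.fderiv
  rw [h6]
  have h7 := conf_sum (fderiv ℝ (fderiv ℝ F) (A z)) (A1 z)
  simp only [_root_.add_apply, ContinuousLinearMap.comp_apply,
    ContinuousLinearMap.compL_apply, ContinuousLinearMap.flip_apply,
    ContinuousLinearMap.mul_apply']
  rw [← h7]
  have h8 : (fderiv ℝ F (A z)) (A2 * 1 * 1) + (fderiv ℝ F (A z)) (A2 * Complex.I * Complex.I) = 0 := by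
    rw [← map_add]
    have : A2 * 1 * 1 + A2 * Complex.I * Complex.I = 0 := by
      rw [mul_assoc A2 Complex.I, Complex.I_mul_I]; ring
    rw [this, map_zero]
  linarith

theorem eig_zero (μ : ℝ) : (fun _ => 0) ∈ Eig μ :=
  ⟨fun _ => 0, contDiffOn_const, fun _ => rfl, fun z => by
    rw [iteratedFDeriv_two_apply, iteratedFDeriv_two_apply]; simp⟩

theorem cda {F : ℂ → ℝ} (hF : ContDiffOn ℝ 2 F {w : ℂ | 0 < w.im}) (z : ℍ) :
    ContDiffAt ℝ 2 F (z : ℂ) := hF.contDiffAt (isOpen_U.mem_nhds (mem_U z))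

theorem eig_add {μ : ℝ} {f g : ℍ → ℝ} (hf : f ∈ Eig μ) (hg : g ∈ Eig μ) :
    (fun z => f z + g z) ∈ Eig μ := by
  obtain ⟨F, hF, hF1, hF2⟩ := hf
  obtain ⟨G, hG, hG1, hG2⟩ := hg
  refine ⟨F + G, hF.add hG, fun z => by show f z + g z = _; rw [hF1, hG1]; rfl, fun z => ?_⟩
  have h1 : iteratedFDeriv ℝ 2 (F + G) (z : ℂ) = iteratedFDeriv ℝ 2 F z + iteratedFDeriv ℝ 2 G z :=
    iteratedFDeriv_add_apply (cda hF z) (cda hG z)
  rw [h1]
  have h2 := hF2 z
  have h3 := hG2 z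
  simp only [_root_.add_apply]
  linarith

theorem eig_smul {μ : ℝ} {f : ℍ → ℝ} (c : ℝ) (hf : f ∈ Eig μ) : (fun z => c * f z) ∈ Eig μ := by
  obtain ⟨F, hF, hF1, hF2⟩ := hf
  refine ⟨c • F, hF.const_smul c, fun z => by show c * f z = _; rw [hF1]; rfl, fun z => ?_⟩
  have h1 : iteratedFDeriv ℝ 2 (c • F) (z : ℂ) = c • iteratedFDeriv ℝ 2 F z :=
    iteratedFDeriv_const_smul_apply (a := c) (cda hF z)
  rw [h1]
  have h2 := hF2 z
  simp only [_root_.smul_apply, smul_eq_mul]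
  linear_combination c * h2

theorem eig_moebius {μ : ℝ} {f : ℍ → ℝ} (hf : f ∈ Eig μ) {g : ℍ → ℍ} {a b c d : ℝ}
    (hdet : a * d - b * c = 1) (hg : ∀ z : ℍ, ((g z : ℍ) : ℂ) = ((a : ℂ) * z + b) / (c * z + d)) :
    (fun z => f (g z)) ∈ Eig μ := by
  obtain ⟨F, hF, hF1, hF2⟩ := hf
  set A : ℂ → ℂ := fun w => ((a : ℂ) * w + b) / (c * w + d) with hA
  have hden : ∀ w : ℂ, 0 < w.im → (c : ℂ) * w + d ≠ 0 := by
    intro w hw h0
    have h1 := congrArg Complex.im h0
    have h2 := congrArg Complex.re h0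
    simp at h1 h2
    rcases h1 with h1 | h1
    · rw [h1] at h2 hdet
      simp at h2
      rw [h2] at hdet
      norm_num at hdet
    · exact absurd h1 hw.ne'
  have hd1 : ∀ w : ℂ, 0 < w.im → HasDerivAt A (1 / (c * w + d) ^ 2) w := by
    intro w hw
    have h0 := hden w hw
    have h1 : HasDerivAt (fun w : ℂ => (a : ℂ) * w + b) a w := by
      simpa using ((hasDerivAt_id w).const_mul (a : ℂ)).add_const (b : ℂ)
    have h2 : HasDerivAt (fun w : ℂ => (c : ℂ) * w + d) c w := by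
      simpa using ((hasDerivAt_id w).const_mul (c : ℂ)).add_const (d : ℂ)
    have h3 := h1.div h2 h0
    have h4 : (a : ℂ) * (c * w + d) - (a * w + b) * c = 1 := by
      have : ((a * d - b * c : ℝ) : ℂ) = 1 := by rw [hdet]; simp
      push_cast at this
      linear_combination this
    rw [h4] at h3
    exact h3
  have hd2 : ∀ w : ℂ, 0 < w.im → DifferentiableAt ℂ (fun w : ℂ => 1 / ((c : ℂ) * w + d) ^ 2) w := by
    intro w hw
    have h0 := hden w hw
    have h1 : DifferentiableAt ℂ (fun w : ℂ => ((c : ℂ) * w + d) ^ 2) w := by fun_prop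
    exact (differentiableAt_const _).div h1 (pow_ne_zero 2 h0)
  have him : ∀ z : ℍ, (A z).im ^ 2 = (z : ℂ).im ^ 2 *
      Complex.normSq (1 / ((c : ℂ) * z + d) ^ 2) := by
    intro z
    have h0 := hden z z.2
    have hn : Complex.normSq ((c : ℂ) * z + d) ≠ 0 := by
      rw [Ne, Complex.normSq_eq_zero]; exact h0
    have h1 : (A z).im = (z : ℂ).im / Complex.normSq ((c : ℂ) * z + d) := by
      simp only [hA]
      rw [Complex.div_im, ← sub_div]
      congr 1
      simp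
      linear_combination z.im * hdet
    rw [h1, map_div₀, map_pow, map_one]
    field_simp
  have hmaps : ∀ w : ℂ, 0 < w.im → 0 < (A w).im := by
    intro w hw
    have := (g ⟨w, hw⟩).2
    rw [hg] at this
    exact this
  refine ⟨F ∘ A, ?_, fun z => ?_, fun z => ?_⟩
  · apply hF.comp _ hmaps
    intro w hw
    have h0 := hden w hw
    apply ContDiffAt.contDiffWithinAt
    have h1 : ContDiffAt ℂ 2 (fun w : ℂ => (a : ℂ) * w + b) w := by fun_prop
    have h2 : ContDiffAt ℂ 2 (fun w : ℂ => (c : ℂ) * w + d) w := by fun_prop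
    exact (h1.div h2 h0).restrict_scalars ℝ
  · show f (g z) = _
    rw [hF1, hg]; rfl
  · have hz : (A z) = (g z : ℂ) := (hg z).symm
    have h1 := lap_comp (F := F) (A := A) (A1 := fun w : ℂ => 1 / ((c : ℂ) * w + d) ^ 2)
      (z := (z : ℂ)) (by rw [hz]; exact cda hF (g z))
      (by
        filter_upwards [isOpen_U.mem_nhds (mem_U z)] with w hw
        exact hd1 w hw) (hd2 z z.2).hasDerivAt
    rw [h1]
    have h2 := hF2 (g z)
    have h3 := him z
    rw [hz] at h3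
    rw [hz]
    rw [h3] at h2
    rw [← h2]
    ring

/-- the reflection in the imaginary axis -/
noncomputable def rf (z : ℍ) : ℍ := ⟨-(starRingEnd ℂ) (z : ℂ), by simpa using z.2⟩

theorem coe_rf (z : ℍ) : ((rf z : ℍ) : ℂ) = -(starRingEnd ℂ) (z : ℂ) := rfl

theorem eig_rf {μ : ℝ} {f : ℍ → ℝ} (hf : f ∈ Eig μ) : (fun z => f (rf z)) ∈ Eig μ := by
  obtain ⟨F, hF, hF1, hF2⟩ := hf
  set L : ℂ ≃L[ℝ] ℂ := Complex.conjCLE.trans (ContinuousLinearEquiv.neg ℝ) with hL
  have hLw : ∀ w, L w = -(starRingEnd ℂ) w := fun w => by simp [hL]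
  have hmaps : ∀ w : ℂ, 0 < w.im → 0 < (L w).im := by
    intro w hw
    rw [hLw]
    simpa using hw
  refine ⟨F ∘ L, hF.comp L.contDiff.contDiffOn hmaps, fun z => ?_, fun z => ?_⟩
  · show f (rf z) = F (L z)
    rw [hF1, coe_rf, hLw]
  · have hz : L (z : ℂ) = (rf z : ℂ) := by rw [hLw, coe_rf]
    have h1 : iteratedFDeriv ℝ 2 (F ∘ L) (z : ℂ) =
        (iteratedFDeriv ℝ 2 F (L z)).compContinuousLinearMap fun _ => (L : ℂ →L[ℝ] ℂ) := by
      have := L.iteratedFDerivWithin_comp_right F (s := Set.univ) uniqueDiffOn_univ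
        (x := (z : ℂ)) (Set.mem_univ _) 2
      rwa [Set.preimage_univ, iteratedFDerivWithin_univ, iteratedFDerivWithin_univ] at this
    rw [h1, hz]
    have h2 := hF2 (rf z)
    have h3 : ((rf z : ℍ) : ℂ).im = (z : ℂ).im := by rw [coe_rf]; simp
    rw [h3] at h2
    have e1 : L 1 = -1 := by rw [hLw]; simp
    have e2 : L Complex.I = Complex.I := by rw [hLw]; simp
    simp only [ContinuousMultilinearMap.compContinuousLinearMap_apply]
    rw [iteratedFDeriv_two_apply, iteratedFDeriv_two_apply] at h2 ⊢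
    simp only [Matrix.cons_val_zero, Matrix.cons_val_one, ContinuousLinearEquiv.coe_coe, e1, e2]
      at h2 ⊢
    show _ = μ * f (rf z)
    rw [← h2]
    simp

end Pool.Agent.P8H79.Iso
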