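import Pool.Agent.P8H79.Iso.Abel

/-! The surface groups. -/

set_option autoImplicit false

open Matrix UpperHalfPlane

namespace Pool.Agent.P8H79.Iso

theorem dihedral {G : Type} [Group G] {a b : G} (ha : a * a = 1) (hb : b * b = 1) {g : G}
    (hg : g ∈ Subgroup.closure {a, b}) : ∃ j : ℤ, g = (a * b) ^ j ∨ g = (a * b) ^ j * a := by
  have ia : a⁻¹ = a := inv_eq_of_mul_eq_one_left ha
  have ib : b⁻¹ = b := inv_eq_of_mul_eq_one_left hb
  have conj : ∀ j : ℤ, a * (a * b) ^ j = (a * b) ^ (-j) * a := by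
    intro j
    have h1 : a * (a * b) * a⁻¹ = (a * b)⁻¹ := by
      rw [ia, _root_.mul_inv_rev, ia, ib, ← mul_assoc, ha, one_mul]
    have h2 : a * (a * b) ^ j * a⁻¹ = (a * b) ^ (-j) := by
      rw [← conj_zpow, h1, _root_.inv_zpow, _root_.zpow_neg]
    rw [← h2]; group
  have stepa : ∀ x : G, (∃ j : ℤ, x = (a * b) ^ j ∨ x = (a * b) ^ j * a) →
      ∃ j : ℤ, a * x = (a * b) ^ j ∨ a * x = (a * b) ^ j * a := by
    rintro x ⟨j, rfl | rfl⟩
    · exact ⟨-j, .inr (conj j)⟩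
    · refine ⟨-j, .inl ?_⟩
      rw [← mul_assoc, conj, mul_assoc, ha, mul_one]
  have stepb : ∀ x : G, (∃ j : ℤ, x = (a * b) ^ j ∨ x = (a * b) ^ j * a) →
      ∃ j : ℤ, b * x = (a * b) ^ j ∨ b * x = (a * b) ^ j * a := by
    intro x hx
    have h1 : b * x = a * ((a * b) * x) := by
      rw [← mul_assoc, ← mul_assoc, ha, one_mul]
    rw [h1]
    apply stepa
    obtain ⟨j, rfl | rfl⟩ := hx
    · exact ⟨1 + j, .inl (by rw [_root_.zpow_add, _root_.zpow_one])⟩
    · exact ⟨1 + j, .inr (by rw [_root_.zpow_add, _root_.zpow_one]; simp only [mul_assoc])⟩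
  induction hg using Subgroup.closure_induction_left with
  | one => exact ⟨0, .inl (by simp)⟩
  | mul_left x hx y hy ih =>
    rcases hx with rfl | rfl
    · exact stepa y ih
    · exact stepb y ih
  | inv_mul_cancel x hx y hy ih =>
    rcases hx with rfl | rfl
    · rw [ia]; exact stepa y ih
    · rw [ib]; exact stepb y ih

namespace Dat

variable (D : Dat)

theorem sheet_perm (g : W) (w : Fin 96) :
    ((D.perm g w).val < 48 ↔ w.val < 48) ↔ sgn g = 1 := by
  induction g using W_induction generalizing w with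
  | h1 => simp
  | hm s g ih =>
    rw [perm_mul, perm_gn, pf_apply, D.sheet, map_mul, sgn_gn]
    have h1 := ih w
    have h2 : sgn g = 1 ∨ sgn g = -1 := Int.units_eq_one_or _
    have h3 : (-1 : ℤˣ) ≠ 1 := by decide
    rcases h2 with h2 | h2
    · rw [h2] at h1 ⊢
      simp only [mul_one, h3, iff_false]
      simp only [iff_true] at h1
      tauto
    · rw [h2] at h1 ⊢
      simp only [h3, iff_false] at h1
      simp only [mul_neg, mul_one, neg_neg, iff_true]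
      tauto

theorem sgn_K {k : W} (hk : k ∈ D.K) : sgn k = 1 := by
  rw [← D.sheet_perm k 0, D.mem_K.1 hk]

theorem perm_pow_ne {s t : Fin 3} (hst : s ≠ t) {j : ℕ} (h0 : 0 < j) (hj : j < mm s t)
    (w : Fin 96) : D.perm ((gn t * gn s) ^ j) w ≠ w := by
  have key : ∀ (a b : Fin 3) (n : ℕ), sys.pr (alt (2 * n) a b) = (gn a * gn b) ^ n := by
    intro a b n
    induction n with
    | zero => simp [alt]
    | succ n ih =>
      rw [show 2 * (n + 1) = 2 * n + 1 + 1 by ring, alt, TSys.pr_cons, alt, TSys.pr_cons, ih]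
      have h1 : ¬ Even (2 * n + 1) := by
        rw [Nat.not_even_iff_odd]; exact ⟨n, rfl⟩
      have h2 : Even (2 * n) := even_two_mul n
      rw [if_neg h1, if_pos h2, ← mul_assoc, pow_succ']
      rfl
  have hm : mm s t ≤ 6 := by
    unfold mm
    split_ifs <;> norm_num
  rw [← key, perm_alt]
  exact D.free s t hst ⟨j, by omega⟩ h0 hj w

theorem pow_mm (s t : Fin 3) : (gn t * gn s) ^ mm s t = 1 := by
  have h := good_gn
  have h01 := h.s01
  have h12 := h.s12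
  have h02 := h.s02
  have h10 := swap_pow h.s0 h.s1 h01
  have h21 := swap_pow h.s1 h.s2 h12
  have h20 := swap_pow h.s0 h.s2 h02
  fin_cases s <;> fin_cases t
  · show (gn 0 * gn 0) ^ 1 = 1
    rw [pow_one, h.s0]
  · exact h10
  · exact h20
  · exact h01
  · show (gn 1 * gn 1) ^ 1 = 1
    rw [pow_one, h.s1]
  · exact h21
  · exact h02
  · exact h12
  · show (gn 2 * gn 2) ^ 1 = 1
    rw [pow_one, h.s2]

theorem mm_pos (s t : Fin 3) : 0 < mm s t := by
  unfold mm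
  split_ifs <;> norm_num

/-- parabolic elements do not fix cosets -/
theorem par_free {s t : Fin 3} (hst : s ≠ t) {g : W} (hg : g ∈ Subgroup.closure {gn t, gn s})
    (hs : sgn g = 1) {w : Fin 96} (hw : D.perm g w = w) : g = 1 := by
  obtain ⟨j, rfl | rfl⟩ := dihedral (gn_sq t) (gn_sq s) hg
  · have h1 : (gn t * gn s) ^ j = (gn t * gn s) ^ (j % (mm s t : ℤ)).toNat := by
      have h2 : 0 ≤ j % (mm s t : ℤ) := Int.emod_nonneg _ (by have := mm_pos s t; omega)
      have h3 : (gn t * gn s) ^ (j % (mm s t : ℤ)).toNat = (gn t * gn s) ^ (j % (mm s t : ℤ)) := by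
        rw [← _root_.zpow_natCast, Int.toNat_of_nonneg h2]
      rw [h3]
      conv_lhs => rw [← Int.emod_add_mul_ediv j (mm s t : ℤ)]
      rw [_root_.zpow_add, _root_.zpow_mul, _root_.zpow_natCast, pow_mm, _root_.one_zpow, mul_one]
    rw [h1] at hw ⊢
    set r := (j % (mm s t : ℤ)).toNat
    have hr : r < mm s t := by
      have h2 := Int.emod_lt_of_pos j (by have := mm_pos s t; omega : (0 : ℤ) < (mm s t : ℤ))
      have h3 : 0 ≤ j % (mm s t : ℤ) := Int.emod_nonneg _ (by have := mm_pos s t; omega)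
      omega
    rcases Nat.eq_zero_or_pos r with h0 | h0
    · rw [h0, pow_zero]
    · exact absurd hw (D.perm_pow_ne hst h0 hr w)
  · exfalso
    rw [map_mul, map_zpow, map_mul, sgn_gn, sgn_gn] at hs
    simp at hs

theorem K_free {k : W} (hk : k ∈ D.K) {z : ℍ} (hz : act k z = z) : k = 1 := by
  obtain ⟨g, hg⟩ := cover z
  have h1 : act (g * k * g⁻¹) (act g z) = act g z := by
    rw [map_mul, map_mul, map_inv, IsometryEquiv.mul_apply, IsometryEquiv.mul_apply,
      IsometryEquiv.inv_apply_self, hz]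
  obtain ⟨s, t, hst, h2⟩ := stab hg h1
  have h3 : sgn (g * k * g⁻¹) = 1 := by
    rw [map_mul, map_mul, D.sgn_K hk, mul_one, map_inv, mul_inv_cancel]
  have h4 : D.perm (g * k * g⁻¹) (D.perm g 0) = D.perm g 0 := by
    have h5 : D.perm g⁻¹ (D.perm g 0) = 0 := by rw [← perm_mul, inv_mul_cancel]; simp
    rw [perm_mul, perm_mul, h5, D.mem_K.1 hk]
  have h5 := D.par_free hst.symm h2 h3 h4
  have h6 : k = g⁻¹ * (g * k * g⁻¹) * g := by group
  rw [h6, h5]
  group

/-- the surface group -/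
noncomputable def Gam : Subgroup (ℍ ≃ᵢ ℍ) := D.K.map act

theorem gam_moebius {γ : ℍ ≃ᵢ ℍ} (hγ : γ ∈ D.Gam) : ∃ a b c d : ℝ, a * d - b * c = 1 ∧
    ∀ z : ℍ, ((γ z : ℍ) : ℂ) = ((a : ℂ) * (z : ℂ) + (b : ℂ)) / ((c : ℂ) * (z : ℂ) + (d : ℂ)) := by
  obtain ⟨k, hk, rfl⟩ := hγ
  obtain ⟨m, h1, h2⟩ := exists_gl k
  rw [D.sgn_K hk] at h1
  have h3 : m.det.val = 1 := by simpa using h1
  refine ⟨m 0 0, m 0 1, m 1 0, m 1 1, ?_, fun z => ?_⟩
  · rw [← h3, GeneralLinearGroup.val_det_apply, det_fin_two]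
  · rw [h2, coe_smul_of_det_pos (by rw [h3]; norm_num)]
    rfl

theorem gam_free {γ : ℍ ≃ᵢ ℍ} (hγ : γ ∈ D.Gam) (hne : γ ≠ 1) (z : ℍ) : γ z ≠ z := by
  obtain ⟨k, hk, rfl⟩ := hγ
  intro h
  apply hne
  rw [D.K_free hk h, map_one]

theorem gam_proper {K : Set ℍ} (hK : IsCompact K) :
    {γ : ℍ ≃ᵢ ℍ | γ ∈ D.Gam ∧ (⇑γ '' K ∩ K).Nonempty}.Finite := by
  apply ((proper hK).image act).subset
  rintro γ ⟨⟨k, _, rfl⟩, h⟩
  exact ⟨k, h, rfl⟩

theorem gam_cocompact : ∃ K : Set ℍ, IsCompact K ∧ ∀ z : ℍ, ∃ γ ∈ D.Gam, γ z ∈ K := by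
  refine ⟨⋃ w : Fin 96, act (D.tr w)⁻¹ '' Ch, ?_, fun z => ?_⟩
  · exact isCompact_iUnion fun w => isCompact_Ch.image (act (D.tr w)⁻¹).continuous
  · obtain ⟨g, hg⟩ := cover z
    have hk : (D.tr (D.perm g 0))⁻¹ * g ∈ D.K := by
      rw [mem_K, perm_mul, map_inv, Equiv.Perm.inv_eq_iff_eq, perm_tr]
    refine ⟨act ((D.tr (D.perm g 0))⁻¹ * g), ⟨_, hk, rfl⟩, ?_⟩
    rw [Set.mem_iUnion]
    refine ⟨D.perm g 0, act g z, hg, ?_⟩
    rw [map_mul]
    rfl

theorem gam_abel : Nonempty (Abelianization D.Gam ≃* Multiplicative (Fin 6 → ℤ)) := by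
  obtain ⟨e⟩ := D.abel
  have f : D.K ≃* D.Gam := D.K.equivMapOfInjective act act_injective
  exact ⟨f.symm.abelianizationCongr.trans e⟩

end Dat

end Pool.Agent.P8H79.Iso
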