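import Mathlib

/-! Tits' theorem for the triangle group with angles `π / 2`, `π / 4`, `π / 6`, in an abstract
form: a group generated by involutions with a linear representation by reflections. -/

set_option autoImplicit false

namespace Pool.Agent.P8H79.Iso

/-- a group generated by involutions satisfying the braid relations, acting by reflections -/
structure TSys (S G V : Type) [Group G] [AddCommGroup V] [Module ℝ V] where
  R : S → G
  gen : Subgroup.closure (Set.range R) = ⊤
  sq : ∀ s, R s * R s = 1
  ρ : G → V → V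
  ρ_one : ∀ x, ρ 1 x = x
  ρ_mul : ∀ g h x, ρ (g * h) x = ρ g (ρ h x)
  ρ_add : ∀ g x y, ρ g (x + y) = ρ g x + ρ g y
  ρ_smul : ∀ g (c : ℝ) x, ρ g (c • x) = c • ρ g x
  B : V → V → ℝ
  symm : ∀ x y, B x y = B y x
  B_add : ∀ x y z, B (x + y) z = B x z + B y z
  B_smul : ∀ (c : ℝ) x y, B (c • x) y = c * B x y
  inv : ∀ g x y, B (ρ g x) (ρ g y) = B x y
  e : S → V
  norm : ∀ s, B (e s) (e s) = 1
  act : ∀ s x, ρ (R s) x = x - (2 * B x (e s)) • e s
  sgn : G →* ℤˣ
  sgn_R : ∀ s, sgn (R s) = -1
  pair : ∀ s t, s ≠ t → (B (e s) (e t) = 0 ∧ (R s * R t) ^ 2 = 1) ∨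
    (B (e s) (e t) < 0 ∧ 2 * (B (e s) (e t)) ^ 2 = 1 ∧ (R s * R t) ^ 4 = 1) ∨
    (B (e s) (e t) < 0 ∧ 4 * (B (e s) (e t)) ^ 2 = 3 ∧ (R s * R t) ^ 6 = 1)

/-- alternating words ending with the letter `t` -/
def alt {S : Type} : ℕ → S → S → List S
  | 0, _, _ => []
  | k + 1, s, t => (if Even k then t else s) :: alt k s t

theorem alt_length {S : Type} (k : ℕ) (s t : S) : (alt k s t).length = k := by
  induction k with
  | zero => rfl
  | succ k ih => simp [alt, ih]

namespace TSys

variable {S G V : Type} [Group G] [AddCommGroup V] [Module ℝ V] (C : TSys S G V)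

theorem B_add' (x y z : V) : C.B x (y + z) = C.B x y + C.B x z := by
  rw [C.symm, C.B_add, C.symm y, C.symm z]

theorem B_smul' (c : ℝ) (x y : V) : C.B x (c • y) = c * C.B x y := by
  rw [C.symm, C.B_smul, C.symm y]

theorem B_neg (x y : V) : C.B (-x) y = -C.B x y := by
  have := C.B_smul (-1) x y
  simpa using this

theorem B_neg' (x y : V) : C.B x (-y) = -C.B x y := by
  rw [C.symm, C.B_neg, C.symm y]

theorem B_sub (x y z : V) : C.B (x - y) z = C.B x z - C.B y z := by
  rw [sub_eq_add_neg, C.B_add, C.B_neg]; ring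

theorem ρ_neg (g : G) (x : V) : C.ρ g (-x) = -C.ρ g x := by
  have := C.ρ_smul g (-1) x
  simpa using this

theorem R_e (s : S) : C.ρ (C.R s) (C.e s) = -C.e s := by
  rw [C.act, C.norm]
  module

theorem R_inv (s : S) : (C.R s)⁻¹ = C.R s := inv_eq_of_mul_eq_one_left (C.sq s)

theorem B_left (g : G) (x y : V) : C.B (C.ρ g x) y = C.B x (C.ρ g⁻¹ y) := by
  rw [← C.inv g⁻¹, ← C.ρ_mul, inv_mul_cancel, C.ρ_one]

/-- products of words -/
def pr (w : List S) : G := (w.map C.R).prod

@[simp] theorem pr_nil : C.pr [] = 1 := rfl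

@[simp] theorem pr_cons (s : S) (w : List S) : C.pr (s :: w) = C.R s * C.pr w := by
  simp [pr]

theorem pr_append (v w : List S) : C.pr (v ++ w) = C.pr v * C.pr w := by
  simp [pr]

theorem pr_sgn (w : List S) : C.sgn (C.pr w) = (-1) ^ w.length := by
  induction w with
  | nil => simp
  | cons s w ih => rw [pr_cons, map_mul, C.sgn_R, ih]; simp [pow_succ]

theorem exists_word (g : G) : ∃ w, C.pr w = g := by
  have hg : g ∈ Subgroup.closure (Set.range C.R) := by rw [C.gen]; trivial
  induction hg using Subgroup.closure_induction with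
  | mem x hx =>
    obtain ⟨s, rfl⟩ := hx
    exact ⟨[s], by simp⟩
  | one => exact ⟨[], rfl⟩
  | mul x y _ _ hx hy =>
    obtain ⟨v, rfl⟩ := hx
    obtain ⟨w, rfl⟩ := hy
    exact ⟨v ++ w, C.pr_append v w⟩
  | inv x hx0 hx =>
    obtain ⟨v, rfl⟩ := hx
    clear hx0
    refine ⟨v.reverse, ?_⟩
    rw [eq_inv_iff_mul_eq_one]
    induction v with
    | nil => simp
    | cons s v ih =>
      rw [List.reverse_cons, pr_append, pr_cons, pr_cons, pr_nil, mul_one]
      calc C.pr v.reverse * C.R s * (C.R s * C.pr v)
          = C.pr v.reverse * (C.R s * C.R s) * C.pr v := by group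
        _ = 1 := by rw [C.sq, mul_one, ih]

/-- the length -/
noncomputable def len (g : G) : ℕ := sInf {n | ∃ w : List S, w.length = n ∧ C.pr w = g}

theorem len_le (w : List S) : C.len (C.pr w) ≤ w.length := Nat.sInf_le ⟨w, rfl, rfl⟩

theorem exists_len (g : G) :
    ∃ w : List S, w.length = C.len g ∧ C.pr w = g := by
  obtain ⟨w, hw⟩ := C.exists_word g
  exact Nat.sInf_mem (s := {n | ∃ w : List S, w.length = n ∧ C.pr w = g}) ⟨w.length, w, rfl, hw⟩

theorem len_mul_pr (g : G) (w : List S) :
    C.len (g * C.pr w) ≤ C.len g + w.length := by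
  obtain ⟨v, hv, rfl⟩ := C.exists_len g
  rw [← pr_append, ← hv, ← List.length_append]
  exact C.len_le _

theorem len_mul_R (g : G) (s : S) :
    C.len (g * C.R s) ≤ C.len g + 1 := by
  have := C.len_mul_pr g [s]
  simpa using this

theorem le_len_mul_R (g : G) (s : S) :
    C.len g ≤ C.len (g * C.R s) + 1 := by
  have := C.len_mul_R (g * C.R s) s
  rwa [mul_assoc, C.sq, mul_one] at this

theorem sgn_eq (g : G) : C.sgn g = (-1) ^ (C.len g) := by
  obtain ⟨v, hv, hv'⟩ := C.exists_len g
  rw [← hv, ← C.pr_sgn, hv']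

theorem len_ne (g : G) (s : S) :
    C.len (g * C.R s) ≠ C.len g := by
  intro h
  have h1 := C.sgn_eq g
  have h2 := C.sgn_eq (g * C.R s)
  rw [map_mul, C.sgn_R, h, ← h1] at h2
  have h3 : (-1 : ℤˣ) = 1 := mul_left_cancel (a := C.sgn g) (by rw [h2, mul_one])
  exact absurd h3 (by decide)

theorem len_lt_or (g : G) (s : S) :
    C.len (g * C.R s) = C.len g + 1 ∨ C.len (g * C.R s) + 1 = C.len g := by
  have h1 := C.len_mul_R g s
  have h2 := C.le_len_mul_R g s
  have h3 := C.len_ne g s
  omega

/-! ### dihedral groups -/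

theorem pr_alt_mul (k : ℕ) (s t : S) :
    C.pr (alt k s t) * C.R s = C.pr (alt (k + 1) t s) := by
  induction k with
  | zero => simp [alt]
  | succ k ih =>
    rw [alt, pr_cons, mul_assoc, ih, alt, pr_cons]
    congr 1
    rcases Nat.even_or_odd k with h | h
    · have h' : ¬ Even (k + 1) := by rw [Nat.not_even_iff_odd]; exact h.add_one
      simp [h, h']
    · have h' : Even (k + 1) := h.add_one
      have h'' : ¬ Even k := Nat.not_even_iff_odd.2 h
      simp [h', h'']

/-- the coefficients -/
noncomputable def pp (c : ℝ) : ℕ → ℝ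
  | 0 => 0
  | 1 => 1
  | (n + 2) => 2 * c * pp c (n + 1) - pp c n

theorem alt_e (s t : S) (k : ℕ) :
    C.ρ (C.pr (alt k s t)) (C.e s) =
      if Even k then pp (-C.B (C.e s) (C.e t)) (k + 1) • C.e s +
        pp (-C.B (C.e s) (C.e t)) k • C.e t
      else pp (-C.B (C.e s) (C.e t)) k • C.e s +
        pp (-C.B (C.e s) (C.e t)) (k + 1) • C.e t := by
  induction k with
  | zero => simp [alt, pp, C.ρ_one]
  | succ k ih =>
    rw [alt, pr_cons, C.ρ_mul, ih]
    rcases Nat.even_or_odd k with h | h
    · have h' : ¬ Even (k + 1) := by rw [Nat.not_even_iff_odd]; exact h.add_one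
      rw [if_pos h, if_pos h, if_neg h', C.act, C.B_add, C.B_smul, C.B_smul,
        C.norm, pp]
      module
    · have h' : Even (k + 1) := h.add_one
      have h'' : ¬ Even k := Nat.not_even_iff_odd.2 h
      rw [if_neg h'', if_neg h'', if_pos h', C.act, C.B_add, C.B_smul, C.B_smul,
        C.norm, pp, C.symm (C.e t) (C.e s)]
      module

theorem braid (s t : S) (m : ℕ) (h : (C.R s * C.R t) ^ (2 * m) = 1) :
    C.pr (alt (2 * m) s t) = C.pr (alt (2 * m) t s) := by
  have key : ∀ (a b : S) (n : ℕ), C.pr (alt (2 * n) a b) = (C.R a * C.R b) ^ n := by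
    intro a b n
    induction n with
    | zero => simp [alt]
    | succ n ih =>
      rw [show 2 * (n + 1) = 2 * n + 1 + 1 by ring, alt, pr_cons, alt, pr_cons, ih]
      have h1 : ¬ Even (2 * n + 1) := by
        rw [Nat.not_even_iff_odd]; exact ⟨n, rfl⟩
      have h2 : Even (2 * n) := even_two_mul n
      rw [if_neg h1, if_pos h2, ← mul_assoc, pow_succ']
  rw [key, key]
  have h1 : (C.R s * C.R t) ^ m * (C.R s * C.R t) ^ m = 1 := by
    rw [← pow_add, ← two_mul, h]
  have h2 : (C.R s * C.R t) ^ m * (C.R t * C.R s) ^ m = 1 := by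
    have : C.R t * C.R s = (C.R s * C.R t)⁻¹ := by rw [mul_inv_rev, C.R_inv, C.R_inv]
    rw [this, inv_pow, mul_inv_cancel]
  exact mul_left_cancel (h1.trans h2.symm)

theorem exists_front (s t : S) (m k : ℕ) (hk : m ≤ k) :
    ∃ q : List S, q.length + m = k ∧ C.pr (alt k s t) = C.pr q * C.pr (alt m s t) := by
  induction k, hk using Nat.le_induction with
  | base => exact ⟨[], by simp, by simp⟩
  | succ k _ ih =>
    obtain ⟨q, hq, hq'⟩ := ih
    refine ⟨(if Even k then t else s) :: q, by simp; omega, ?_⟩
    rw [alt, pr_cons, pr_cons, hq', mul_assoc]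

theorem alt_shorten (s t : S) (m : ℕ) (hb : C.pr (alt (m + 1) s t) = C.pr (alt (m + 1) t s))
    (k : ℕ) (hk : m + 1 ≤ k) :
    ∃ w : List S, w.length + 1 = k ∧ C.pr (alt k s t) * C.R s = C.pr w := by
  obtain ⟨q, hq, hq'⟩ := C.exists_front s t (m + 1) k hk
  refine ⟨q ++ alt m s t, by rw [List.length_append, alt_length]; omega, ?_⟩
  rw [hq', hb, ← C.pr_alt_mul, pr_append, mul_assoc, mul_assoc, C.sq, mul_one]

theorem comb_neg {a b X Y : ℝ} (ha : 0 ≤ a) (hb : 0 ≤ b) (hab : 0 < a + b) (hX : X < 0)
    (hY : Y < 0) : a * X + b * Y < 0 := by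
  rcases ha.lt_or_eq with h | h
  · have h1 := mul_neg_of_pos_of_neg h hX
    have h2 := mul_nonpos_of_nonneg_of_nonpos hb hY.le
    linarith
  · subst h
    have h1 : 0 < b := by linarith
    have h2 := mul_neg_of_pos_of_neg h1 hY
    linarith

/-- Tits' theorem, first form. -/
theorem neg_of_len (n : ℕ) : ∀ {g : G}, C.len g = n → ∀ s,
    C.len g < C.len (g * C.R s) → ∀ x, (∀ t, C.B x (C.e t) < 0) → C.B x (C.ρ g (C.e s)) < 0 := by
  induction n using Nat.strong_induction_on with
  | _ n IH =>
    intro g hn s hs x hx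
    rcases Nat.eq_zero_or_pos n with h0 | hpos
    · obtain ⟨w, hw, hw'⟩ := C.exists_len g
      rw [hn, h0] at hw
      have : w = [] := List.length_eq_zero_iff.1 hw
      rw [this] at hw'
      rw [← hw', pr_nil, C.ρ_one]
      exact hx s
    · obtain ⟨t, ht⟩ : ∃ t, C.len (g * C.R t) + 1 = C.len g := by
        obtain ⟨w, hw, hw'⟩ := C.exists_len g
        have hne : w ≠ [] := by
          intro h
          rw [h] at hw
          simp at hw
          omega
        obtain ⟨v, t, rfl⟩ : ∃ v t, w = v ++ [t] :=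
          ⟨w.dropLast, w.getLast hne, (List.dropLast_append_getLast hne).symm⟩
        refine ⟨t, ?_⟩
        have h1 : g * C.R t = C.pr v := by
          rw [← hw', pr_append, pr_cons, pr_nil, mul_one, mul_assoc, C.sq, mul_one]
        have h2 := C.len_le v
        rw [← h1] at h2
        rw [List.length_append] at hw
        simp at hw
        rcases C.len_lt_or g t with h | h <;> omega
      have hst : s ≠ t := by
        rintro rfl
        omega
      -- the maximal alternating end
      let P : ℕ → Prop := fun k => ∃ d : G, g = d * C.pr (alt k s t) ∧ C.len d + k = C.len g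
      have hP1 : P 1 := by
        refine ⟨g * C.R t, ?_, ht⟩
        simp [alt, mul_assoc, C.sq]
      classical
      obtain ⟨k, hk1, hPk, hmax⟩ : ∃ k, 1 ≤ k ∧ P k ∧ ¬ P (k + 1) := by
        have hb : ∀ k, P k → k ≤ C.len g := by
          rintro k ⟨d, _, h⟩
          omega
        refine ⟨Nat.findGreatest P (C.len g), ?_, ?_, ?_⟩
        · exact Nat.le_findGreatest (hb 1 hP1) hP1
        · exact Nat.findGreatest_spec (hb 1 hP1) hP1
        · intro h
          have := Nat.le_findGreatest (hb _ h) h
          omega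
      obtain ⟨d, hgd, hlen⟩ := hPk
      have hnext : C.len d < C.len (d * C.R (if Even k then t else s)) := by
        by_contra hcon
        apply hmax
        have h1 : C.len (d * C.R (if Even k then t else s)) + 1 = C.len d := by
          rcases C.len_lt_or d (if Even k then t else s) with h | h <;> omega
        refine ⟨d * C.R (if Even k then t else s), ?_, by omega⟩
        rw [alt, pr_cons, hgd]
        calc d * C.pr (alt k s t) = d * (C.R (if Even k then t else s) *
            C.R (if Even k then t else s)) * C.pr (alt k s t) := by rw [C.sq, mul_one]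
          _ = _ := by group
      have hfirst : C.len d < C.len (d * C.R (if Even k then s else t)) := by
        by_contra hcon
        have h1 : C.len (d * C.R (if Even k then s else t)) + 1 = C.len d := by
          rcases C.len_lt_or d (if Even k then s else t) with h | h <;> omega
        obtain ⟨j, rfl⟩ : ∃ j, k = j + 1 := ⟨k - 1, by omega⟩
        have h2 : (if Even (j + 1) then s else t) = (if Even j then t else s) := by
          rcases Nat.even_or_odd j with h | h
          · have h' : ¬ Even (j + 1) := by rw [Nat.not_even_iff_odd]; exact h.add_one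
            simp [h, h']
          · have h' : Even (j + 1) := h.add_one
            have h'' : ¬ Even j := Nat.not_even_iff_odd.2 h
            simp [h', h'']
        rw [h2] at h1
        have h3 : g = (d * C.R (if Even j then t else s)) * C.pr (alt j s t) := by
          rw [hgd, alt, pr_cons, mul_assoc]
        have h4 := C.len_mul_pr (d * C.R (if Even j then t else s)) (alt j s t)
        rw [← h3, alt_length] at h4
        omega
      have hds : C.len d < C.len (d * C.R s) := by
        by_cases h : Even k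
        · simpa [h] using hfirst
        · simpa [h] using hnext
      have hdt : C.len d < C.len (d * C.R t) := by
        by_cases h : Even k
        · simpa [h] using hnext
        · simpa [h] using hfirst
      have hxs := IH (C.len d) (by omega) rfl s hds x hx
      have hxt := IH (C.len d) (by omega) rfl t hdt x hx
      -- the coefficients
      have hshort : ∀ m, C.pr (alt (m + 1) s t) = C.pr (alt (m + 1) t s) → k ≤ m := by
        intro m hb
        by_contra hcon
        obtain ⟨w, hw, hw'⟩ := C.alt_shorten s t m hb k (by omega)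
        have h3 : g * C.R s = d * C.pr w := by rw [hgd, mul_assoc, hw']
        have h4 := C.len_mul_pr d w
        rw [← h3] at h4
        omega
      have hcoef : 0 ≤ pp (-C.B (C.e s) (C.e t)) k ∧ 0 ≤ pp (-C.B (C.e s) (C.e t)) (k + 1) ∧
          0 < pp (-C.B (C.e s) (C.e t)) k + pp (-C.B (C.e s) (C.e t)) (k + 1) := by
        rcases C.pair s t hst with ⟨h, hr⟩ | ⟨h, h', hr⟩ | ⟨h, h', hr⟩
        · have hk : k = 1 := by
            have := hshort 1 (C.braid s t 1 hr)
            omega
          subst hk
          simp [pp, h]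
        · have hk : k ≤ 3 := hshort 3 (C.braid s t 2 hr)
          set c := -C.B (C.e s) (C.e t) with hc
          have hc0 : 0 < c := by rw [hc]; linarith
          have hc2 : 2 * c ^ 2 = 1 := by rw [hc]; linarith [h']
          have p1 : pp c 1 = 1 := rfl
          have p2 : pp c 2 = 2 * c := by simp [pp]
          have p3 : pp c 3 = 1 := by
            rw [pp, p2, p1]; linarith
          have p4 : pp c 4 = 0 := by
            rw [pp, p3, p2]; ring
          interval_cases k
          · norm_num [p1, p2]; exact ⟨hc0.le, by positivity⟩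
          · norm_num [p2, p3]; exact ⟨hc0.le, by positivity⟩
          · norm_num [p3, p4]
        · have hk : k ≤ 5 := hshort 5 (C.braid s t 3 hr)
          set c := -C.B (C.e s) (C.e t) with hc
          have hc0 : 0 < c := by rw [hc]; linarith
          have hc2 : 4 * c ^ 2 = 3 := by rw [hc]; linarith [h']
          have p1 : pp c 1 = 1 := rfl
          have p2 : pp c 2 = 2 * c := by simp [pp]
          have p3 : pp c 3 = 2 := by
            rw [pp, p2, p1]; linarith
          have p4 : pp c 4 = 2 * c := by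
            rw [pp, p3, p2]; ring
          have p5 : pp c 5 = 1 := by
            rw [pp, p4, p3]; linarith
          have p6 : pp c 6 = 0 := by
            rw [pp, p5, p4]; ring
          interval_cases k
          · norm_num [p1, p2]; exact ⟨hc0.le, by positivity⟩
          · norm_num [p2, p3]; exact ⟨hc0.le, by positivity⟩
          · norm_num [p3, p4]; exact ⟨hc0.le, by positivity⟩
          · norm_num [p4, p5]; exact ⟨hc0.le, by positivity⟩
          · norm_num [p5, p6]
      obtain ⟨hc1, hc2, hc3⟩ := hcoef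
      set α := pp (-C.B (C.e s) (C.e t)) k
      set β := pp (-C.B (C.e s) (C.e t)) (k + 1)
      rw [hgd, C.ρ_mul, C.alt_e s t k]
      by_cases h : Even k
      · rw [if_pos h, C.ρ_add, C.ρ_smul, C.ρ_smul, C.B_add', C.B_smul', C.B_smul']
        exact comb_neg hc2 hc1 (by linarith) hxs hxt
      · rw [if_neg h, C.ρ_add, C.ρ_smul, C.ρ_smul, C.B_add', C.B_smul', C.B_smul']
        exact comb_neg hc1 hc2 hc3 hxs hxt

/-- Tits' theorem: a nontrivial element moves the chamber off itself. -/
theorem exists_pos {g : G} (h1 : g ≠ 1) :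
    ∃ s, C.len ((C.R s * g)⁻¹) < C.len g⁻¹ ∧
      ∀ x, (∀ t, C.B x (C.e t) < 0) → 0 < C.B (C.ρ g x) (C.e s) := by
  obtain ⟨w, hw, hw'⟩ := C.exists_len g⁻¹
  have hne : w ≠ [] := by
    rintro rfl
    rw [pr_nil] at hw'
    exact h1 (by rw [← inv_inv g, ← hw', inv_one])
  obtain ⟨v, t, rfl⟩ : ∃ v t, w = v ++ [t] :=
    ⟨w.dropLast, w.getLast hne, (List.dropLast_append_getLast hne).symm⟩
  have h2 : g⁻¹ = C.pr v * C.R t := by
    rw [← hw', pr_append, pr_cons, pr_nil, mul_one]
  have h3 : C.len (C.pr v) < C.len (C.pr v * C.R t) := by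
    rw [← h2, ← hw, List.length_append]
    have := C.len_le v
    simp
    omega
  refine ⟨t, ?_, fun x hx => ?_⟩
  · have h4 : (C.R t * g)⁻¹ = C.pr v := by
      rw [mul_inv_rev, h2, mul_assoc, C.R_inv, C.sq, mul_one]
    rw [h4, h2]
    exact h3
  have h4 := C.neg_of_len _ rfl t h3 x hx
  rw [C.B_left, h2, C.ρ_mul, C.R_e, C.ρ_neg, C.B_neg']
  linarith

/-- Tits' theorem for the closed chamber. -/
theorem closed {y : V} (hy : ∀ t, C.B y (C.e t) < 0) {x : V} (hx : ∀ t, C.B x (C.e t) ≤ 0)
    (n : ℕ) : ∀ {g : G}, C.len g⁻¹ = n → (∀ t, C.B (C.ρ g x) (C.e t) ≤ 0) →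
      C.ρ g x = x ∧ g ∈ Subgroup.closure (C.R '' {s | C.B x (C.e s) = 0}) := by
  induction n using Nat.strong_induction_on with
  | _ n IH =>
    intro g hn hg
    by_cases h1 : g = 1
    · subst h1
      exact ⟨C.ρ_one x, one_mem _⟩
    obtain ⟨s, hs, hpos⟩ := C.exists_pos h1
    have hge : 0 ≤ C.B (C.ρ g x) (C.e s) := by
      by_contra hcon
      push Not at hcon
      set a := C.B (C.ρ g x) (C.e s) with ha
      set b := C.B (C.ρ g y) (C.e s) with hb
      have hb0 : 0 < b := hpos y hy
      -- take the point x + ε y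
      have h2 : ∀ ε : ℝ, 0 < ε → 0 < a + ε * b := by
        intro ε hε
        have := hpos (x + ε • y) (fun t => by
          rw [C.B_add, C.B_smul]
          have h3 := hx t
          have h4 := mul_neg_of_pos_of_neg hε (hy t)
          linarith)
        rwa [C.ρ_add, C.ρ_smul, C.B_add, C.B_smul] at this
      have h3 := h2 (-a / b / 2) (div_pos (div_pos (by linarith) hb0) two_pos)
      have h4 : -a / b / 2 * b = -a / 2 := by field_simp
      rw [h4] at h3
      linarith
    have h0 : C.B (C.ρ g x) (C.e s) = 0 := le_antisymm (hg s) hge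
    have h2 : C.ρ (C.R s * g) x = C.ρ g x := by
      rw [C.ρ_mul, C.act, h0]; simp
    obtain ⟨h3, h4⟩ := IH (C.len (C.R s * g)⁻¹) (by omega) rfl (by rw [h2]; exact hg)
    rw [h2] at h3
    refine ⟨h3, ?_⟩
    rw [h3] at h0
    have h5 : g = C.R s * (C.R s * g) := by rw [← mul_assoc, C.sq, one_mul]
    rw [h5]
    exact mul_mem (Subgroup.subset_closure ⟨s, h0, rfl⟩) h4

end TSys

end Pool.Agent.P8H79.Iso
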