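import Pool.Agent.P8H79.Iso.Surf
import Pool.Agent.P8H79.Iso.Lap

/-! Transplantation of eigenfunctions. -/

set_option autoImplicit false

open Matrix UpperHalfPlane

namespace Pool.Agent.P8H79.Iso

theorem rf_rf (z : ℍ) : rf (rf z) = z := by
  apply UpperHalfPlane.ext
  rw [coe_rf, coe_rf]
  simp

theorem eig_act {μ : ℝ} {f : ℍ → ℝ} (hf : f ∈ Eig μ) (g : W) :
    (fun z => f (act g z)) ∈ Eig μ := by
  obtain ⟨m, h1, h2⟩ := exists_gl g
  have hdet : m.det.val = m 0 0 * m 1 1 - m 0 1 * m 1 0 := by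
    rw [GeneralLinearGroup.val_det_apply, det_fin_two]
  rcases Int.units_eq_one_or (sgn g) with h | h
  · have h3 : m.det.val = 1 := by rw [h1, h]; simp
    apply eig_moebius hf (g := fun z => act g z) (by rw [← hdet]; exact h3) (fun z => ?_)
    rw [h2, coe_smul_of_det_pos (by rw [h3]; norm_num)]
    rfl
  · have h3 : m.det.val = -1 := by rw [h1, h]; simp
    have h4 := eig_rf hf
    have h5 := eig_moebius h4 (g := fun z => rf (act g z)) (a := -m 0 0) (b := -m 0 1)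
      (c := m 1 0) (d := m 1 1) (by rw [hdet] at h3; linarith) (fun z => by
        rw [coe_rf, h2, coe_smul]
        have h6 : σ m = Complex.conjCAE := by
          unfold σ
          rw [if_neg]
          rw [h3]; norm_num
        rw [h6]
        simp only [Complex.conjCAE_apply, Complex.conj_conj, num, denom]
        push_cast
        rw [← neg_div]
        congr 1
        ring)
    simpa only [rf_rf] using h5

theorem eig_sum {μ : ℝ} {ι : Type} (s : Finset ι) (f : ι → ℍ → ℝ) (hf : ∀ i ∈ s, f i ∈ Eig μ) :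
    (fun z => ∑ i ∈ s, f i z) ∈ Eig μ := by
  classical
  induction s using Finset.induction_on with
  | empty => simpa using eig_zero μ
  | insert i s hi ih =>
    have h1 := eig_add (hf i (Finset.mem_insert_self _ _))
      (ih fun j hj => hf j (Finset.mem_insert_of_mem hj))
    have h2 : (fun z => ∑ j ∈ insert i s, f j z) = fun z => f i z + ∑ j ∈ s, f j z := by
      funext z
      rw [Finset.sum_insert hi]
    rw [h2]
    exact h1

namespace Dat

/-- the vector valued function attached to an invariant function -/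
noncomputable def fw (D : Dat) (f : ℍ → ℝ) (w : Fin 96) (z : ℍ) : ℝ := f (act (D.tr w)⁻¹ z)

/-- invariance -/
def Inv (D : Dat) (f : ℍ → ℝ) : Prop := ∀ k ∈ D.K, ∀ z, f (act k z) = f z

theorem fw_act (D : Dat) {f : ℍ → ℝ} (hf : D.Inv f) (k : W) (w : Fin 96) (z : ℍ) :
    D.fw f w (act k⁻¹ z) = D.fw f (D.perm k w) z := by
  have hκ : (D.tr (D.perm k w))⁻¹ * k * D.tr w ∈ D.K := by
    rw [mem_K, perm_mul, perm_mul, perm_tr, map_inv, Equiv.Perm.inv_eq_iff_eq, perm_tr]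
  unfold fw
  have h1 := hf _ (inv_mem hκ) (act (D.tr (D.perm k w))⁻¹ z)
  rw [← h1, ← IsometryEquiv.mul_apply, ← IsometryEquiv.mul_apply, ← map_mul, ← map_mul]
  congr 2
  group

/-- the transplantation map -/
noncomputable def tp (D : Dat) (m : Fin 96 → Fin 96 → ℝ) (f : ℍ → ℝ) (z : ℍ) : ℝ :=
  ∑ w, m w 0 * D.fw f w z

theorem tp_act (D D' : Dat) {m : Fin 96 → Fin 96 → ℝ}
    (hm : ∀ g w v, m (D.perm g w) (D'.perm g v) = m w v) {f : ℍ → ℝ} (hf : D.Inv f) (k : W)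
    (z : ℍ) : D.tp m f (act k⁻¹ z) = ∑ w, m w (D'.perm k 0) * D.fw f w z := by
  unfold tp
  rw [← Equiv.sum_comp (D.perm k) fun w => m w (D'.perm k 0) * D.fw f w z]
  refine Finset.sum_congr rfl fun w _ => ?_
  rw [D.fw_act hf, hm]

theorem tp_inv (D D' : Dat) {m : Fin 96 → Fin 96 → ℝ}
    (hm : ∀ g w v, m (D.perm g w) (D'.perm g v) = m w v) {f : ℍ → ℝ} (hf : D.Inv f) :
    D'.Inv (D.tp m f) := by
  intro k hk z
  have h1 := tp_act D D' hm hf k⁻¹ z
  rw [inv_inv, D'.mem_K.1 (inv_mem hk)] at h1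
  exact h1

theorem tp_tp (D D' : Dat) {m m' : Fin 96 → Fin 96 → ℝ}
    (hm : ∀ g w v, m (D.perm g w) (D'.perm g v) = m w v)
    (h : ∀ w, ∑ v, m' v 0 * m w v = if w = 0 then 1 else 0) {f : ℍ → ℝ} (hf : D.Inv f) :
    D'.tp m' (D.tp m f) = f := by
  funext z
  show ∑ v, m' v 0 * D'.fw (D.tp m f) v z = f z
  have h1 : ∀ v, D'.fw (D.tp m f) v z = ∑ w, m w v * D.fw f w z := by
    intro v
    show D.tp m f (act (D'.tr v)⁻¹ z) = _
    rw [tp_act D D' hm hf, perm_tr]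
  simp only [h1, Finset.mul_sum]
  rw [Finset.sum_comm]
  have h2 : ∀ w, ∑ v, m' v 0 * (m w v * D.fw f w z) = (if w = 0 then 1 else 0) * D.fw f w z := by
    intro w
    rw [← h w, Finset.sum_mul]
    refine Finset.sum_congr rfl fun v _ => by ring
  simp only [h2]
  rw [Finset.sum_eq_single 0]
  · rw [if_pos rfl, one_mul]
    unfold fw
    rw [tr_zero]
    simp
  · intro w _ hw
    rw [if_neg hw, zero_mul]
  · simp

/-- the invariant eigenfunctions -/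
def es (D : Dat) (μ : ℝ) : Submodule ℝ (ℍ → ℝ) where
  carrier := {f | f ∈ Eig μ ∧ D.Inv f}
  zero_mem' := ⟨eig_zero μ, fun _ _ _ => rfl⟩
  add_mem' {f g} hf hg := ⟨eig_add hf.1 hg.1, fun k hk z => by
    show f _ + g _ = f _ + g _
    rw [hf.2 k hk, hg.2 k hk]⟩
  smul_mem' c {f} hf := ⟨eig_smul c hf.1, fun k hk z => by
    show c * f _ = c * f _
    rw [hf.2 k hk]⟩

theorem tp_eig (D : Dat) (m : Fin 96 → Fin 96 → ℝ) {μ : ℝ} {f : ℍ → ℝ} (hf : f ∈ Eig μ) :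
    D.tp m f ∈ Eig μ := by
  apply eig_sum
  intro w _
  exact eig_smul _ (eig_act hf _)

theorem tp_add (D : Dat) (m : Fin 96 → Fin 96 → ℝ) (f g : ℍ → ℝ) :
    D.tp m (f + g) = D.tp m f + D.tp m g := by
  funext z
  show D.tp m (f + g) z = D.tp m f z + D.tp m g z
  unfold tp
  rw [← Finset.sum_add_distrib]
  refine Finset.sum_congr rfl fun w _ => ?_
  rw [← mul_add]
  rfl

theorem tp_smul (D : Dat) (m : Fin 96 → Fin 96 → ℝ) (c : ℝ) (f : ℍ → ℝ) :
    D.tp m (c • f) = c • D.tp m f := by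
  funext z
  show D.tp m (c • f) z = c * D.tp m f z
  unfold tp
  rw [Finset.mul_sum]
  refine Finset.sum_congr rfl fun w _ => ?_
  rw [mul_left_comm]
  rfl

/-- transplantation as a linear equivalence -/
noncomputable def te (D D' : Dat) {m m' : Fin 96 → Fin 96 → ℝ}
    (hm : ∀ g w v, m (D.perm g w) (D'.perm g v) = m w v)
    (hm' : ∀ g w v, m' (D'.perm g w) (D.perm g v) = m' w v)
    (h : ∀ w, ∑ v, m' v 0 * m w v = if w = 0 then 1 else 0)
    (h' : ∀ w, ∑ v, m v 0 * m' w v = if w = 0 then 1 else 0) (μ : ℝ) :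
    D.es μ ≃ₗ[ℝ] D'.es μ where
  toFun f := ⟨D.tp m f.1, D.tp_eig m f.2.1, tp_inv D D' hm f.2.2⟩
  invFun f := ⟨D'.tp m' f.1, D'.tp_eig m' f.2.1, tp_inv D' D hm' f.2.2⟩
  left_inv f := Subtype.ext (tp_tp D D' hm h f.2.2)
  right_inv f := Subtype.ext (tp_tp D' D hm' h' f.2.2)
  map_add' f g := Subtype.ext (D.tp_add m f.1 g.1)
  map_smul' c f := Subtype.ext (D.tp_smul m c f.1)

theorem span_eq (D : Dat) (μ : ℝ) : Submodule.span ℝ {f : ℍ → ℝ | ∃ F : ℂ → ℝ,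
    ContDiffOn ℝ 2 F {w : ℂ | 0 < w.im} ∧
    (∀ z : ℍ, f z = F (z : ℂ)) ∧
    (∀ γ ∈ D.Gam, ∀ z : ℍ, f (γ z) = f z) ∧
    ∀ z : ℍ, -((z : ℂ).im ^ 2 * (iteratedFDeriv ℝ 2 F (z : ℂ) ![1, 1]
      + iteratedFDeriv ℝ 2 F (z : ℂ) ![Complex.I, Complex.I])) = μ * f z} = D.es μ := by
  have h : {f : ℍ → ℝ | ∃ F : ℂ → ℝ,
    ContDiffOn ℝ 2 F {w : ℂ | 0 < w.im} ∧
    (∀ z : ℍ, f z = F (z : ℂ)) ∧
    (∀ γ ∈ D.Gam, ∀ z : ℍ, f (γ z) = f z) ∧
    ∀ z : ℍ, -((z : ℂ).im ^ 2 * (iteratedFDeriv ℝ 2 F (z : ℂ) ![1, 1]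
      + iteratedFDeriv ℝ 2 F (z : ℂ) ![Complex.I, Complex.I])) = μ * f z} = (D.es μ : Set _) := by
    ext f
    constructor
    · rintro ⟨F, h1, h2, h3, h4⟩
      exact ⟨⟨F, h1, h2, h4⟩, fun k hk z => h3 _ ⟨k, hk, rfl⟩ z⟩
    · rintro ⟨⟨F, h1, h2, h4⟩, h3⟩
      refine ⟨F, h1, h2, ?_, h4⟩
      rintro _ ⟨k, hk, rfl⟩ z
      exact h3 k hk z
  rw [h, Submodule.span_eq]

end Dat

end Pool.Agent.P8H79.Iso
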