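import Pool.Agent.P8H79.Iso.Conj
import Pool.Agent.P8H79.Iso.Data
import Pool.Agent.P8H79.Iso.Surf

/-! The types of the systoles of the second surface. -/

set_option autoImplicit false

open Matrix UpperHalfPlane

namespace Pool.Agent.P8H79.Iso

/-- the generators modulo two -/
def sf : Fin 3 → Equiv.Perm (Fin 3)
  | 0 => Equiv.swap 0 1
  | 1 => 1
  | 2 => Equiv.swap 1 2

theorem good_sf : Good sf := ⟨by decide, by decide, by decide, by decide, by decide, by decide⟩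

/-- the reduction modulo two -/
def sh : W →* Equiv.Perm (Fin 3) := lift sf good_sf

@[simp] theorem sh_gn (i : Fin 3) : sh (gn i) = sf i := lift_gn _ _ _

/-- matrices of a given type -/
def Ty (k : Fin 3) (M : Matrix (Fin 3) (Fin 3) ℤ) : Prop :=
  ∃ N : Matrix (Fin 3) (Fin 3) ℤ, M = 1 + (2 : ℤ) • N ∧ ∀ j, N j j % 2 = if j = k then 0 else 1

theorem conj_apply (A N : Matrix (Fin 3) (Fin 3) ℤ) (j : Fin 3) : (A * N * A) j j =
    (A j 0 * N 0 0 + A j 1 * N 1 0 + A j 2 * N 2 0) * A 0 j +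
    (A j 0 * N 0 1 + A j 1 * N 1 1 + A j 2 * N 2 1) * A 1 j +
    (A j 0 * N 0 2 + A j 1 * N 1 2 + A j 2 * N 2 2) * A 2 j := by
  simp only [mul_apply, Fin.sum_univ_three]

theorem mt0_conj (N : Matrix (Fin 3) (Fin 3) ℤ) : ∀ j, (mt 0 * N * mt 0) j j % 2 =
    N (sf 0 j) (sf 0 j) % 2 := by
  intro j
  rw [conj_apply]
  fin_cases j
  · show ((2 * N 0 0 + -3 * N 1 0 + 0 * N 2 0) * 2 + (2 * N 0 1 + -3 * N 1 1 + 0 * N 2 1) * 1 +
      (2 * N 0 2 + -3 * N 1 2 + 0 * N 2 2) * 0) % 2 = N 1 1 % 2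
    omega
  · show ((1 * N 0 0 + -2 * N 1 0 + 0 * N 2 0) * -3 + (1 * N 0 1 + -2 * N 1 1 + 0 * N 2 1) * -2 +
      (1 * N 0 2 + -2 * N 1 2 + 0 * N 2 2) * 0) % 2 = N 0 0 % 2
    omega
  · show ((0 * N 0 0 + 0 * N 1 0 + 1 * N 2 0) * 0 + (0 * N 0 1 + 0 * N 1 1 + 1 * N 2 1) * 0 +
      (0 * N 0 2 + 0 * N 1 2 + 1 * N 2 2) * 1) % 2 = N 2 2 % 2
    omega

theorem mt1_conj (N : Matrix (Fin 3) (Fin 3) ℤ) : ∀ j, (mt 1 * N * mt 1) j j % 2 =
    N (sf 1 j) (sf 1 j) % 2 := by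
  intro j
  rw [conj_apply]
  fin_cases j
  · show ((1 * N 0 0 + 0 * N 1 0 + 0 * N 2 0) * 1 + (1 * N 0 1 + 0 * N 1 1 + 0 * N 2 1) * 0 +
      (1 * N 0 2 + 0 * N 1 2 + 0 * N 2 2) * 0) % 2 = N 0 0 % 2
    omega
  · show ((0 * N 0 0 + 1 * N 1 0 + 0 * N 2 0) * 0 + (0 * N 0 1 + 1 * N 1 1 + 0 * N 2 1) * 1 +
      (0 * N 0 2 + 1 * N 1 2 + 0 * N 2 2) * 0) % 2 = N 1 1 % 2
    omega
  · show ((0 * N 0 0 + 0 * N 1 0 + -1 * N 2 0) * 0 + (0 * N 0 1 + 0 * N 1 1 + -1 * N 2 1) * 0 +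
      (0 * N 0 2 + 0 * N 1 2 + -1 * N 2 2) * -1) % 2 = N 2 2 % 2
    omega

theorem mt2_conj (N : Matrix (Fin 3) (Fin 3) ℤ) : ∀ j, (mt 2 * N * mt 2) j j % 2 =
    N (sf 2 j) (sf 2 j) % 2 := by
  intro j
  rw [conj_apply]
  fin_cases j
  · show ((1 * N 0 0 + 0 * N 1 0 + 0 * N 2 0) * 1 + (1 * N 0 1 + 0 * N 1 1 + 0 * N 2 1) * 0 +
      (1 * N 0 2 + 0 * N 1 2 + 0 * N 2 2) * 0) % 2 = N 0 0 % 2
    omega
  · show ((0 * N 0 0 + 0 * N 1 0 + -1 * N 2 0) * 0 + (0 * N 0 1 + 0 * N 1 1 + -1 * N 2 1) * 0 +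
      (0 * N 0 2 + 0 * N 1 2 + -1 * N 2 2) * -1) % 2 = N 2 2 % 2
    omega
  · show ((0 * N 0 0 + -1 * N 1 0 + 0 * N 2 0) * 0 + (0 * N 0 1 + -1 * N 1 1 + 0 * N 2 1) * -1 +
      (0 * N 0 2 + -1 * N 1 2 + 0 * N 2 2) * 0) % 2 = N 1 1 % 2
    omega

theorem mt_conj (i : Fin 3) (N : Matrix (Fin 3) (Fin 3) ℤ) (j : Fin 3) :
    (mt i * N * mt i) j j % 2 = N (sf i j) (sf i j) % 2 := by
  fin_cases i
  · exact mt0_conj N j
  · exact mt1_conj N j
  · exact mt2_conj N j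

theorem sf_inv (i : Fin 3) : ∀ j, sf i (sf i j) = j := by
  fin_cases i <;> decide

theorem ty_step (i k : Fin 3) {M : Matrix (Fin 3) (Fin 3) ℤ} (h : Ty k M) :
    Ty (sf i k) (mt i * M * mt i) := by
  obtain ⟨N, rfl, hN⟩ := h
  refine ⟨mt i * N * mt i, ?_, fun j => ?_⟩
  · rw [mul_add, add_mul, mul_one, mt_sq, mul_smul_comm, smul_mul_assoc]
  · rw [mt_conj, hN]
    congr 1
    rw [eq_iff_iff]
    constructor
    · intro h; rw [← h, sf_inv]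
    · intro h; rw [h, sf_inv]

theorem ty_conj (w : W) (g : W) (k : Fin 3) (h : Ty k (mat g).1) :
    Ty (sh w k) (mat (w * g * w⁻¹)).1 := by
  induction w using W_induction with
  | h1 => simpa using h
  | hm i w ih =>
    have h1 := ty_step i _ ih
    have h2 : gn i * w * g * (gn i * w)⁻¹ = gn i * (w * g * w⁻¹) * gn i := by
      rw [_root_.mul_inv_rev, inv_eq_of_mul_eq_one_left (gn_sq i)]
      simp only [mul_assoc]
    rw [h2, map_mul sh, sh_gn, map_mul mat, map_mul mat, Units.val_mul, Units.val_mul, mat_gn]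
    exact h1

theorem ty_u : Ty 0 (mat u).1 := by
  rw [u, mat_gw]
  refine ⟨!![2, -3, 3; -1, 1, -1; 1, -1, 1], by decide, by decide⟩

theorem ty_ui : Ty 0 (mat u⁻¹).1 := by
  rw [u, ← gw_reverse, mat_gw]
  refine ⟨!![2, 3, -3; 1, 1, -1; -1, -1, 1], by decide, by decide⟩

/-- the quotient of the second table -/
def f1 (w : Fin 96) : Fin 3 :=
  ⟨lk 2 0xa505950806a880a6514660a1a505950806a880a6514660a1 w.val % 3, Nat.mod_lt _ (by norm_num)⟩

theorem f1_P : ∀ s w, f1 (D2.P s w) = sf s (f1 w) := by decide +kernel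

theorem f1_zero : f1 0 = 1 := by decide +kernel

/-- the action of a word -/
def pw (D : Dat) : List (Fin 3) → Fin 96 → Fin 96
  | [], w => w
  | i :: l, w => D.P i (pw D l w)

theorem perm_gw (D : Dat) (l : List (Fin 3)) (w : Fin 96) : D.perm (gw l) w = pw D l w := by
  induction l with
  | nil => simp [gw, pw]
  | cons i l ih => rw [gw, pw, D.perm_mul, ih, D.perm_gn, D.pf_apply]

theorem f1_u : ∀ w, pw D2 uw w = w → f1 w = 0 := by decide +kernel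

theorem f1_perm (g : W) (w : Fin 96) : f1 (D2.perm g w) = sh g (f1 w) := by
  induction g using W_induction with
  | h1 => simp
  | hm i g ih => rw [D2.perm_mul, D2.perm_gn, D2.pf_apply, f1_P, ih, map_mul, sh_gn]; rfl

theorem ty_K2 {g : W} (hg : g ∈ D2.K) (ht : (mat g).1.trace = 11) : Ty 1 (mat g).1 := by
  obtain ⟨w, hw⟩ := class11 (D2.sgn_K hg) ht
  have hfix : D2.perm u (D2.perm w⁻¹ 0) = D2.perm w⁻¹ 0 := by
    have h0 := D2.mem_K.1 hg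
    rcases hw with h | h
    · rw [h, D2.perm_mul, D2.perm_mul] at h0
      have h1 : D2.perm w⁻¹ (D2.perm w (D2.perm u (D2.perm w⁻¹ 0))) = D2.perm w⁻¹ 0 := by rw [h0]
      rwa [← D2.perm_mul, inv_mul_cancel, map_one, Equiv.Perm.one_apply] at h1
    · rw [h, D2.perm_mul, D2.perm_mul] at h0
      have h1 : D2.perm w⁻¹ (D2.perm w (D2.perm u⁻¹ (D2.perm w⁻¹ 0))) = D2.perm w⁻¹ 0 := by rw [h0]
      rw [← D2.perm_mul, inv_mul_cancel, map_one, Equiv.Perm.one_apply] at h1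
      have h2 : D2.perm u (D2.perm u⁻¹ (D2.perm w⁻¹ 0)) = D2.perm u (D2.perm w⁻¹ 0) := by rw [h1]
      rw [← D2.perm_mul, mul_inv_cancel, map_one, Equiv.Perm.one_apply] at h2
      exact h2.symm
  rw [u, perm_gw] at hfix
  have h1 := f1_u _ hfix
  rw [f1_perm, f1_zero, map_inv, Equiv.Perm.inv_eq_iff_eq] at h1
  rw [h1]
  rcases hw with h | h
  · rw [h]; exact ty_conj w u 0 ty_u
  · rw [h]; exact ty_conj w u⁻¹ 0 ty_ui

/-- the parities of the axis vectors of the systoles of the second surface -/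
theorem parity {g : W} (hg : g ∈ D2.K) (ht : (mat g).1.trace = 11) : ∃ B C D : ℤ,
    3 * B ^ 2 = C ^ 2 + D ^ 2 - 2 ∧ (mat g).1 = Rf B C D ∧ B % 2 = 1 ∧ C % 2 = 0 ∧ D % 2 = 1 := by
  obtain ⟨B, C, D, hrel, hm⟩ := form11 (D2.sgn_K hg) ht
  obtain ⟨N, hN, hpar⟩ := ty_K2 hg ht
  refine ⟨B, C, D, hrel, hm, ?_⟩
  have h0 := hpar 0
  have h1 := hpar 1
  have h2 := hpar 2
  rw [if_neg (by decide)] at h0 h2
  rw [if_pos rfl] at h1
  rw [hm] at hN
  have e1 : 5 - 2 * C ^ 2 = 1 + 2 * N 1 1 := congrFun (congrFun hN 1) 1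
  have e2 : 5 - 2 * D ^ 2 = 1 + 2 * N 2 2 := congrFun (congrFun hN 2) 2
  have c2 : C ^ 2 % 2 = 0 := by omega
  have d2 : D ^ 2 % 2 = 1 := by omega
  have b2 : B ^ 2 % 2 = 1 := by omega
  refine ⟨?_, ?_, ?_⟩
  · rcases Int.emod_two_eq_zero_or_one B with h | h
    · exfalso; rw [pow_two, Int.mul_emod, h] at b2; norm_num at b2
    · exact h
  · rcases Int.emod_two_eq_zero_or_one C with h | h
    · exact h
    · exfalso; rw [pow_two, Int.mul_emod, h] at c2; norm_num at c2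
  · rcases Int.emod_two_eq_zero_or_one D with h | h
    · exfalso; rw [pow_two, Int.mul_emod, h] at d2; norm_num at d2
    · exact h

theorem trace_Rf {B C D B' C' D' : ℤ} (h : 3 * B ^ 2 = C ^ 2 + D ^ 2 - 2)
    (h' : 3 * B' ^ 2 = C' ^ 2 + D' ^ 2 - 2) : (Rf B C D * Rf B' C' D').trace =
      4 * (3 - 3 * B * B' + C * C' + D * D') ^ 2 - 1 := by
  simp [Rf, trace, Fin.sum_univ_three]
  linear_combination (-4 * (C ^ 2 + D ^ 2 - 2)) * h' + (-12 * B' ^ 2) * h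

/-- no two systoles of the second surface have a product with trace eight -/
theorem no_63 {g g' : W} (hg : g ∈ D2.K) (hg' : g' ∈ D2.K) (ht : (mat g).1.trace = 11)
    (ht' : (mat g').1.trace = 11) : (mat (g * g')).1.trace ≠ 63 := by
  obtain ⟨B, C, D, hrel, hm, b, c, d⟩ := parity hg ht
  obtain ⟨B', C', D', hrel', hm', b', c', d'⟩ := parity hg' ht'
  rw [map_mul, Units.val_mul, hm, hm', trace_Rf hrel hrel']
  intro h
  have h1 : (3 - 3 * B * B' + C * C' + D * D') ^ 2 = 16 := by linarith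
  have h2 : (3 - 3 * B * B' + C * C' + D * D') % 2 = 1 := by
    obtain ⟨x, rfl⟩ : ∃ x, B = 2 * x + 1 := ⟨B / 2, by omega⟩
    obtain ⟨x', rfl⟩ : ∃ x, B' = 2 * x + 1 := ⟨B' / 2, by omega⟩
    obtain ⟨y, rfl⟩ : ∃ y, C = 2 * y := ⟨C / 2, by omega⟩
    obtain ⟨w, rfl⟩ : ∃ w, D = 2 * w + 1 := ⟨D / 2, by omega⟩
    obtain ⟨w', rfl⟩ : ∃ w, D' = 2 * w + 1 := ⟨D' / 2, by omega⟩
    have : 3 - 3 * (2 * x + 1) * (2 * x' + 1) + 2 * y * C' + (2 * w + 1) * (2 * w' + 1) =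
        2 * (-6 * x * x' - 3 * x - 3 * x' + y * C' + 2 * w * w' + w + w') + 1 := by ring
    rw [this]
    omega
  set E := 3 - 3 * B * B' + C * C' + D * D'
  have h3 : E = 4 ∨ E = -4 := by
    have : (E - 4) * (E + 4) = 0 := by linear_combination h1
    rcases mul_eq_zero.1 this with h4 | h4
    · left; linarith
    · right; linarith
  rcases h3 with h3 | h3 <;> rw [h3] at h2 <;> norm_num at h2

/-! ### the first surface -/

/-- a systole -/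
def w1 : List (Fin 3) := [0, 1, 1, 2, 1, 2, 0, 2, 0, 2, 0, 2, 1, 0]

/-- another systole -/
def w2 : List (Fin 3) := [0, 2, 0, 2, 0, 1, 1, 2, 1, 2, 0, 2, 0, 2, 0, 2, 1, 0, 2, 0, 2, 0]

theorem w1_mem : gw w1 ∈ D1.K := by
  rw [D1.mem_K, perm_gw]
  decide +kernel

theorem w2_mem : gw w2 ∈ D1.K := by
  rw [D1.mem_K, perm_gw]
  decide +kernel

theorem w1_trace : (mat (gw w1)).1.trace = 11 := by
  rw [mat_gw]
  decide +kernel

theorem w2_trace : (mat (gw w2)).1.trace = 11 := by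
  rw [mat_gw]
  decide +kernel

theorem w12_trace : (mat (gw w1 * gw w2)).1.trace = 63 := by
  rw [map_mul, Units.val_mul, mat_gw, mat_gw]
  decide +kernel

/-- the two surfaces are not isometric -/
theorem not_conj : ¬ ∃ φ : ℍ ≃ᵢ ℍ, ∀ γ : ℍ ≃ᵢ ℍ, γ ∈ D1.Gam ↔ φ * γ * φ⁻¹ ∈ D2.Gam := by
  rintro ⟨φ, hφ⟩
  obtain ⟨g1, h1, e1⟩ := (hφ (act (gw w1))).1 ⟨_, w1_mem, rfl⟩
  obtain ⟨g2, h2, e2⟩ := (hφ (act (gw w2))).1 ⟨_, w2_mem, rfl⟩
  have e12 : act (g1 * g2) = φ * act (gw w1 * gw w2) * φ⁻¹ := by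
    rw [map_mul, e1, e2, map_mul]
    group
  have t1 := trace_conj (D1.sgn_K w1_mem) (D2.sgn_K h1) e1 (by rw [w1_trace]; norm_num)
  have t2 := trace_conj (D1.sgn_K w2_mem) (D2.sgn_K h2) e2 (by rw [w2_trace]; norm_num)
  have t12 := trace_conj (D1.sgn_K (mul_mem w1_mem w2_mem)) (D2.sgn_K (mul_mem h1 h2)) e12
    (by rw [w12_trace]; norm_num)
  rw [w1_trace] at t1
  rw [w2_trace] at t2
  rw [w12_trace] at t12
  exact no_63 h1 h2 t1 t2 t12

end Pool.Agent.P8H79.Iso
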